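import Pool.Agent.Work.MP_327059_nt.FR.Stmts2
import Pool.Agent.Work.MP_327059_nt.FL.Alg

/-!
# A5: the output of the Ax type argument
-/

set_option autoImplicit false

namespace Pool.Agent.Work.MP_327059_nt.FR

open Pool.Agent.ED Pool.Agent.Work.MP_327059_nt.FL Pool.Agent.Work.MP_327059_nt.GL

/-- Dual derivations give algebraic independence. -/
theorem Ax2_dual {σ : Type} [Fintype σ] [DecidableEq σ] {n : ℕ} (v : Fin n → ℂ) (F : σ → ℂ)
    (D : σ → Derivation ℚ ℂ ℂ) (hD : ∀ a i, D a (v i) = 0)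
    (hDF : ∀ a b, D a (F b) = if a = b then 1 else 0) :
    AlgebraicIndependent (IntermediateField.adjoin ℚ (Set.range v)) F := by
  classical
  have hk : ∀ a, ∀ z ∈ IntermediateField.adjoin ℚ (Set.range v), D a z = 0 := by
    intro a
    apply der_zero_adjoin
    rintro _ ⟨i, rfl⟩
    exact hD a i
  obtain ⟨s, hs, hrank⟩ := exists_finset_rank
    (K := IntermediateField.adjoin ℚ (Set.range v)) F
  have htop : Submodule.span ℂ (Set.range fun X : Derivation
      (IntermediateField.adjoin ℚ (Set.range v)) ℂ ℂ => fun i => X (F i)) = ⊤ := by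
    rw [eq_top_iff]
    intro u _
    have h0 : u = ∑ i, u i • (Pi.single i (1 : ℂ) : σ → ℂ) := by
      funext k
      rw [Finset.sum_apply]
      simp [Pi.single_apply]
    rw [h0]
    refine Submodule.sum_mem _ fun i _ => Submodule.smul_mem _ _ (Submodule.subset_span ?_)
    refine ⟨derL _ (D i) (hk i), ?_⟩
    funext j
    change D i (F j) = _
    rw [hDF, Pi.single_apply]
    by_cases h : i = j
    · rw [if_pos h, if_pos h.symm]
    · rw [if_neg h, if_neg (Ne.symm h)]
  rw [htop, finrank_top, Module.finrank_fintype_fun_eq_card] at hrank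
  have hsu : s = Finset.univ := Finset.card_eq_iff_eq_univ s |>.1 hrank.symm
  subst hsu
  exact hs.comp (fun o : σ => (⟨o, Finset.mem_univ o⟩ : (Finset.univ : Finset σ)))
      (fun a b hab => congrArg Subtype.val hab)

/-- The rank of the forms. -/
theorem Ax2_rk {n m : ℕ} (l : Fin n → ℂ) (b : Fin m → ℂ) (ι : ℂ →+* ℂ)
    (xd : Derivation ℚ ℂ ℂ → Derivation ℚ ℂ ℂ) (v : Fin n → ℂ) (a : Option (Fin m) → ℂ)
    (h : NS l b ι xd v a) :
    rk (fun i => ι (l i)) (fun i j => ι (Complex.exp (b j * l i))) v ≤ m := by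
  classical
  obtain ⟨h1, h2, h3, h4, h5⟩ := h
  let φ : (Option (Fin m) → ℂ) →ₗ[ℂ] ℂ := Fintype.linearCombination ℂ a
  have hφ : ∀ u, φ u = a none * u none + ∑ j, a (some j) * u (some j) := by
    intro u
    change Fintype.linearCombination ℂ a u = _
    rw [Fintype.linearCombination_apply, Fintype.sum_option, smul_eq_mul, mul_comm]
    congr 1
    exact Finset.sum_congr rfl fun j _ => by rw [smul_eq_mul, mul_comm]
  have hφ0 : φ ≠ 0 := by
    intro h0
    apply h4
    funext o
    have h6 : φ (Pi.single o 1) = 0 := by rw [h0]; rfl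
    change Fintype.linearCombination ℂ a (Pi.single o 1) = 0 at h6
    rw [Fintype.linearCombination_apply_single, one_smul] at h6
    exact h6
  have hker : Module.finrank ℂ (LinearMap.ker φ) = m := by
    have h6 := Module.Dual.finrank_ker_add_one_of_ne_zero (f := φ) hφ0
    rw [Module.finrank_fintype_fun_eq_card, Fintype.card_option, Fintype.card_fin] at h6
    omega
  have hle : (TT v).map (om (fun i => ι (l i)) (fun i j => ι (Complex.exp (b j * l i))) v) ≤
      LinearMap.ker φ := by
    rw [Submodule.map_le_iff_le_comap]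
    intro D hD
    rw [Submodule.mem_comap, LinearMap.mem_ker, hφ]
    obtain ⟨s, δ, c, hc⟩ := der_span ι xd h1
      (Sum.elim l (fun q : Fin n × Fin m => Complex.exp (b q.2 * l q.1))) D
    have hx : ∀ i, D (ι (l i)) = ∑ k, c k * ι (δ k (l i)) := fun i => hc (Sum.inl i)
    have hy : ∀ i j, D (ι (Complex.exp (b j * l i))) =
        ∑ k, c k * ι (δ k (Complex.exp (b j * l i))) := fun i j => hc (Sum.inr (i, j))
    have e1 : ∑ i, v i * D (ι (l i)) = ∑ k, c k * ∑ i, v i * ι (δ k (l i)) := by
      simp only [hx, Finset.mul_sum]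
      rw [Finset.sum_comm]
      exact Finset.sum_congr rfl fun k _ => Finset.sum_congr rfl fun i _ => by ring
    have e2 : ∀ j, ∑ i, v i * (D (ι (Complex.exp (b j * l i))) / ι (Complex.exp (b j * l i))) =
        ∑ k, c k * ∑ i, v i * (ι (δ k (Complex.exp (b j * l i))) /
          ι (Complex.exp (b j * l i))) := by
      intro j
      simp only [hy, Finset.mul_sum, Finset.sum_div]
      rw [Finset.sum_comm]
      exact Finset.sum_congr rfl fun k _ => Finset.sum_congr rfl fun i _ => by ring
    change a none * (∑ i, v i * D (ι (l i))) + ∑ j, a (some j) *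
      (∑ i, v i * (D (ι (Complex.exp (b j * l i))) / ι (Complex.exp (b j * l i)))) = 0
    rw [e1]
    simp only [e2]
    have e3 : a none * ∑ k, c k * ∑ i, v i * ι (δ k (l i)) +
        ∑ j, a (some j) * ∑ k, c k * ∑ i, v i * (ι (δ k (Complex.exp (b j * l i))) /
          ι (Complex.exp (b j * l i))) =
        ∑ k, c k * (a none * ∑ i, v i * ι (δ k (l i)) +
          ∑ j, a (some j) * ∑ i, v i * (ι (δ k (Complex.exp (b j * l i))) /
            ι (Complex.exp (b j * l i)))) := by
      simp only [mul_add, Finset.sum_add_distrib]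
      congr 1
      · rw [Finset.mul_sum]
        exact Finset.sum_congr rfl fun k _ => by ring
      · simp only [Finset.mul_sum]
        rw [Finset.sum_comm]
        refine Finset.sum_congr rfl fun k _ => Finset.sum_congr rfl fun j _ =>
          Finset.sum_congr rfl fun i _ => by ring
    rw [e3]
    refine Finset.sum_eq_zero fun k _ => ?_
    rw [h5 (δ k), mul_zero]
  unfold rk
  exact (Submodule.finrank_mono hle).trans hker.le

theorem Ax2_mon {n m : ℕ} (ι : ℂ →+* ℂ) (y : Fin n → Fin m → ℂ) (ξ : Fin n → Fin m → ℤ) :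
    ι (mon y ξ) = mon (fun i j => ι (y i j)) ξ := by
  unfold mon
  simp only [map_prod, map_zpow₀]

theorem pr_Ax2 (h0 : S_AxOut) : S_Ax2 := by
  classical
  intro n m l b ι xd v a hNS
  have hrk := Ax2_rk l b ι xd v a hNS
  obtain ⟨h1, h2, h3, h4, h5⟩ := hNS
  obtain ⟨G, hG⟩ := h0 n m (fun i => ι (l i)) (fun i j => ι (Complex.exp (b j * l i))) v
    (fun i j => (map_ne_zero ι).2 (Complex.exp_ne_zero _))
  let y0 : Fin n → Fin m → ℂ := fun i j => Complex.exp (b j * l i)
  -- dual derivations
  have hdual : ∀ (k : ℕ) (f : Fin k → ℂ), AlgebraicIndependent ℚ f →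
      ∃ D : Fin k → Derivation ℚ ℂ ℂ, ∀ a b, D a (f b) = if a = b then 1 else 0 := by
    intro k f hf
    have h6 : ∀ a : Fin k, ∃ δ : Derivation ℚ ℂ ℂ, ∀ b, δ (f b) = if a = b then 1 else 0 :=
      fun a => exists_derivation hf _
    choose D hD using h6
    exact ⟨D, hD⟩
  have hA : ∀ (k : ℕ) (f : Fin k → ℂ), AlgebraicIndependent ℚ f →
      (∀ t, ∃ ξ ∈ G, f t = mon y0 ξ) → ug G v + k ≤ m := by
    intro k f hf hfm
    obtain ⟨D, hD⟩ := hdual k f hf
    have h6 := hG k (fun t => ι (f t)) (fun t => by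
      right
      obtain ⟨ξ, hξ, he⟩ := hfm t
      exact ⟨ξ, hξ, by rw [he, Ax2_mon]⟩) (Ax2_dual v _ (fun a => xd (D a))
        (fun a i => h2 _ _) (fun a b => by
          rw [h1, hD]
          split_ifs
          · exact map_one ι
          · exact map_zero ι))
    omega
  let P : ℕ → Prop := fun k => ∃ f : Fin k → ℂ, AlgebraicIndependent ℚ f ∧
    ∀ t, ∃ ξ ∈ G, f t = mon y0 ξ
  have hP0 : P 0 := ⟨Fin.elim0, algebraicIndependent_empty_type_iff.2 (algebraMap ℚ ℂ).injective,
    fun t => Fin.elim0 t⟩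
  have hPm : ∀ k, P k → k ≤ m := by
    rintro k ⟨f, hf, hfm⟩
    have := hA k f hf hfm
    omega
  set k0 := Nat.findGreatest P m with hk0
  obtain ⟨f, hf, hfm⟩ : P k0 := Nat.findGreatest_spec (Nat.zero_le m) hP0
  have hmax : ¬ P (k0 + 1) := by
    intro h6
    have h7 := hPm _ h6
    exact absurd (Nat.le_findGreatest h7 h6) (by omega)
  refine ⟨G, k0, f, hf, ?_, hA k0 f hf hfm, ?_⟩
  · intro ξ hξ
    by_contra hno
    apply hmax
    have htr : Transcendental (Algebra.adjoin ℚ (Set.range f)) (mon y0 ξ) := by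
      intro h6
      exact hno (IntermediateField.isAlgebraic_adjoin_iff.2 h6)
    have h7 := (hf.option_iff_transcendental (mon y0 ξ)).2 htr
    refine ⟨fun t => (finSuccEquiv k0 t).elim (mon y0 ξ) f, ?_, ?_⟩
    · exact h7.comp (finSuccEquiv k0) (finSuccEquiv k0).injective
    · intro t
      refine Fin.cases ?_ (fun t => ?_) t
      · refine ⟨ξ, hξ, ?_⟩
        change (finSuccEquiv k0 0).elim (mon y0 ξ) f = mon y0 ξ
        rw [finSuccEquiv_zero]
        rfl
      · change ∃ ξ_1 ∈ G, (finSuccEquiv k0 t.succ).elim (mon y0 ξ) f = mon y0 ξ_1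
        rw [finSuccEquiv_succ]
        exact hfm t
  · by_cases hall : ∀ i, AlgOver f (l i)
    · exact Or.inl hall
    · right
      push Not at hall
      obtain ⟨i0, hi0⟩ := hall
      -- a derivation killing `f` and not `l i0`
      obtain ⟨δ, hδ, hδ0⟩ : ∃ δ : Derivation ℚ ℂ ℂ, (∀ s ∈ Set.range f, δ s = 0) ∧
          δ (l i0) ≠ 0 := by
        by_contra hcon
        push Not at hcon
        exact hi0 (isAlgebraic_of_derivation (Set.range f) (l i0) (fun X hX => hcon X hX))
      set θ : ℂ := ∑ i, v i * ι (l i) with hθ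
      have hxθ : ∀ D, xd D θ = ∑ i, v i * ι (D (l i)) := by
        intro D
        rw [hθ, map_sum]
        refine Finset.sum_congr rfl fun i _ => ?_
        rw [Derivation.leibniz, h2, smul_zero, add_zero, h1, smul_eq_mul]
      have hτ : xd δ θ ≠ 0 := by
        rw [hxθ]
        intro h6
        exact hδ0 (congrFun (h3 _ h6) i0)
      obtain ⟨D, hD⟩ := hdual k0 f hf
      let Dθ : Derivation ℚ ℂ ℂ := (xd δ θ)⁻¹ • xd δ
      have hDθ : ∀ z, Dθ z = (xd δ θ)⁻¹ * xd δ z := fun z => rfl
      let E : Fin (k0 + 1) → Derivation ℚ ℂ ℂ :=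
        Fin.cons Dθ (fun a => xd (D a) - (xd (D a) θ) • Dθ)
      let F : Fin (k0 + 1) → ℂ := Fin.cons θ (fun t => ι (f t))
      have hE0 : E 0 = Dθ := rfl
      have hEs : ∀ a, ∀ z, E (Fin.succ a) z = xd (D a) z - xd (D a) θ * Dθ z := fun a z => rfl
      have hF0 : F 0 = θ := rfl
      have hFs : ∀ a, F (Fin.succ a) = ι (f a) := fun a => rfl
      have hDθθ : Dθ θ = 1 := by rw [hDθ, inv_mul_cancel₀ hτ]
      have hDθf : ∀ t, Dθ (ι (f t)) = 0 := by
        intro t
        rw [hDθ, h1, hδ _ ⟨t, rfl⟩, map_zero, mul_zero]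
      have hDθv : ∀ i, Dθ (v i) = 0 := fun i => by rw [hDθ, h2, mul_zero]
      have hEv : ∀ a i, E a (v i) = 0 := by
        intro a i
        refine Fin.cases ?_ (fun a => ?_) a
        · rw [hE0]; exact hDθv i
        · rw [hEs, h2, hDθv]; ring
      have hEF : ∀ a b, E a (F b) = if a = b then 1 else 0 := by
        intro a b
        refine Fin.cases ?_ (fun a => ?_) a
        · refine Fin.cases ?_ (fun b => ?_) b
          · rw [hE0, hF0, hDθθ, if_pos rfl]
          · rw [hE0, hFs, hDθf, if_neg (Fin.succ_ne_zero b).symm]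
        · refine Fin.cases ?_ (fun b => ?_) b
          · rw [hEs, hF0, hDθθ, if_neg (Fin.succ_ne_zero a)]; ring
          · rw [hEs, hFs, hDθf, h1, hD]
            by_cases hab : a = b
            · rw [if_pos hab, if_pos (by rw [hab]), map_one]; ring
            · rw [if_neg hab, if_neg (fun h => hab (Fin.succ_injective _ h)), map_zero]; ring
      have h6 := hG (k0 + 1) F (fun t => by
        refine Fin.cases ?_ (fun t => ?_) t
        · left; rfl
        · right
          obtain ⟨ξ, hξ, he⟩ := hfm t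
          exact ⟨ξ, hξ, by rw [hFs, he, Ax2_mon]⟩) (Ax2_dual v F E hEv hEF)
      omega

end Pool.Agent.Work.MP_327059_nt.FR
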