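import Pool.Agent.Work.MP_327059_nt.FR.CovR
import Pool.Agent.Work.MP_327059_nt.FL.Fin

/-!
# The final theorem from the covering statement
-/

set_option autoImplicit false

namespace Pool.Agent.Work.MP_327059_nt.FR

theorem final (h : S_CovB) : ∀ m : ℕ, ∃ n₀ : ℕ, ∀ b : Fin m → ℂ,
    (∀ j, IsAlgebraic ℚ (b j)) → LinearIndependent ℚ (Fin.cons 1 b : Fin (m + 1) → ℂ) →
    ∀ V : Submodule ℚ ℂ, FiniteDimensional ℚ V → (∀ z ∈ V, IsAlgebraic ℚ (Complex.exp z)) →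
    ∃ T : Set (Submodule ℚ ℂ), T.Finite ∧ (∀ W ∈ T, W ≤ V ∧ Module.finrank ℚ W ≤ n₀) ∧
      ∀ z ∈ V, ¬ AlgebraicIndependent ℚ
        (Fin.cons z (fun j => Complex.exp (b j * z)) : Fin (m + 1) → ℂ) → ∃ W ∈ T, z ∈ W := by
  intro m
  obtain ⟨n₀, hn₀⟩ := h m
  refine ⟨n₀, ?_⟩
  intro b hb hli V hV hexp
  exact FL.descent (fun z => ¬ AlgebraicIndependent ℚ
    (Fin.cons z (fun j => Complex.exp (b j * z)) : Fin (m + 1) → ℂ)) n₀
    (fun n hn l hl hlog => hn₀ b hb hli n hn l hl hlog) _ V hV le_rfl hexp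

theorem final2 (h : S_CovB) : ∀ m : ℕ, ∃ n₀ : ℕ,
    (∀ b : Fin m → ℂ, (∀ j, IsAlgebraic ℚ (b j)) →
      LinearIndependent ℚ (Fin.cons 1 b : Fin (m + 1) → ℂ) →
      ∀ V : Submodule ℚ ℂ, FiniteDimensional ℚ V → (∀ z ∈ V, IsAlgebraic ℚ (Complex.exp z)) →
        ∃ T : Set (Submodule ℚ ℂ), T.Finite ∧ (∀ W ∈ T, W ≤ V ∧ Module.finrank ℚ W ≤ n₀) ∧
          ∀ z ∈ V, ¬ AlgebraicIndependent ℚ
            (Fin.cons z (fun j => Complex.exp (b j * z)) : Fin (m + 1) → ℂ) → ∃ W ∈ T, z ∈ W) ∧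
    (∀ β : ℂ, IsAlgebraic ℚ β → (minpoly ℚ β).natDegree = m + 1 →
      ∀ V : Submodule ℚ ℂ, FiniteDimensional ℚ V → (∀ z ∈ V, IsAlgebraic ℚ (Complex.exp z)) →
        ∃ T : Set (Submodule ℚ ℂ), T.Finite ∧ (∀ W ∈ T, W ≤ V ∧ Module.finrank ℚ W ≤ n₀) ∧
          ∀ z ∈ V, ¬ AlgebraicIndependent ℚ (fun j : Fin (m + 1) =>
            if (j : ℕ) = 0 then z else Complex.exp (β ^ (j : ℕ) * z)) → ∃ W ∈ T, z ∈ W) := by
  intro m
  obtain ⟨n₀, hn₀⟩ := final h m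
  refine ⟨n₀, hn₀, ?_⟩
  intro β hβ hdeg V hV hexp
  have hli := linearIndependent_pow (K := ℚ) β
  rw [hdeg] at hli
  have h1 : (Fin.cons 1 (fun j : Fin m => β ^ ((j : ℕ) + 1)) : Fin (m + 1) → ℂ) =
      fun i : Fin (m + 1) => β ^ (i : ℕ) := by
    funext j
    refine Fin.cases ?_ (fun j => ?_) j
    · rw [Fin.cons_zero, Fin.val_zero, pow_zero]
    · rw [Fin.cons_succ, Fin.val_succ]
  obtain ⟨T, hT1, hT2, hT3⟩ := hn₀ (fun j => β ^ ((j : ℕ) + 1)) (fun k => hβ.pow _)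
    (by rw [h1]; exact hli) V hV hexp
  refine ⟨T, hT1, hT2, fun z hz hdep => hT3 z hz ?_⟩
  have h2 : (Fin.cons z (fun j : Fin m => Complex.exp (β ^ ((j : ℕ) + 1) * z)) :
        Fin (m + 1) → ℂ) = (fun j : Fin (m + 1) =>
        if (j : ℕ) = 0 then z else Complex.exp (β ^ (j : ℕ) * z)) := by
    funext j
    refine Fin.cases ?_ (fun j => ?_) j
    · rw [Fin.cons_zero, Fin.val_zero, if_pos rfl]
    · rw [Fin.cons_succ, Fin.val_succ, if_neg (Nat.succ_ne_zero _)]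
  rw [h2]
  exact hdep

end Pool.Agent.Work.MP_327059_nt.FR
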