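import Mathlib
import Pool.Agent.Work.MP_327059_nt.GL.DefsT

/-!
# PROJECT FR: definitions (transcendence input in several variables)
-/

set_option autoImplicit false

namespace Pool.Agent.Work.MP_327059_nt.FR

open MvPolynomial Pool.Agent.Work.MP_327059_nt.GL

/-! ## Mixed translations (zero estimate) -/

/-- The point of index `s`: the coordinate `k` is multiplicative if `κ k` and additive if not. -/
noncomputable def mpt {N M : ℕ} (κ : Fin M → Bool) (t : Fin N → Fin M → ℂ) (s : Fin N → ℕ) :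
    Fin M → ℂ :=
  fun k => if κ k then ∏ i, t i k ^ s i else ∑ i, (s i : ℂ) * t i k

/-- Translation operator. -/
noncomputable def mtr {M : ℕ} (κ : Fin M → Bool) (c : Fin M → ℂ) :
    MvPolynomial (Fin M) ℂ →ₐ[ℂ] MvPolynomial (Fin M) ℂ :=
  aeval (fun k => if κ k then C (c k) * X k else X k + C (c k))

/-- Multiplicative relations in a box. -/
noncomputable def mcnt {N M : ℕ} (S : ℕ) (κ : Fin M → Bool) (t : Fin N → Fin M → ℂ)
    (w : Fin M → ℤ) : ℕ :=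
  Set.ncard {s : Fin N → ℤ | (∀ i, |s i| ≤ (S : ℤ)) ∧
    ∏ i, ∏ k, (if κ k then t i k ^ (s i * w k) else 1) = 1}

/-- Additive relations in a box. -/
noncomputable def acnt {N M : ℕ} (S : ℕ) (κ : Fin M → Bool) (t : Fin N → Fin M → ℂ)
    (c : Fin M → ℂ) : ℕ :=
  Set.ncard {s : Fin N → ℤ | (∀ i, |s i| ≤ (S : ℤ)) ∧
    ∑ i, ∑ k, (if κ k then 0 else (s i : ℂ) * (c k * t i k)) = 0}

/-- The point `(∏_i y_ij^{s_i}, ∑_i s_i w_ik)`. -/
noncomputable def rpt {N r m : ℕ} (w : Fin N → Fin r → ℂ) (y : Fin N → Fin m → ℂ)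
    (s : Fin N → ℕ) : Fin m ⊕ Fin r → ℂ :=
  Sum.elim (fun j => ∏ i, y i j ^ s i) (fun k => ∑ i, (s i : ℂ) * w i k)

/-! ## Auxiliary functions -/

/-- Index set of the functions `z^a e^{φ_W(z)}` in `r` variables. -/
abbrev Ixr (r m A W : ℕ) : Type := (Fin r → Fin A) × (Fin m → Fin W)

/-- The linear form `φ_W = ∑ W_j φ_j`. -/
noncomputable def bwr {r m A W : ℕ} (φ : Fin m → Fin r → ℂ) (x : Ixr r m A W) : Fin r → ℂ :=
  fun k => ∑ j, ((x.2 j : ℕ) : ℂ) * φ j k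

/-- The function `z^a e^{φ_W(z)}`. -/
noncomputable def fr {r m A W : ℕ} (φ : Fin m → Fin r → ℂ) (x : Ixr r m A W) (z : Fin r → ℂ) : ℂ :=
  (∏ k, z k ^ (x.1 k : ℕ)) * Complex.exp (∑ k, bwr φ x k * z k)

/-- The monomial of exponent `x`. -/
noncomputable def evr {r m A W : ℕ} (x : Ixr r m A W) (v : Fin m ⊕ Fin r → ℂ) : ℂ :=
  (∏ k, v (Sum.inr k) ^ (x.1 k : ℕ)) * ∏ j, v (Sum.inl j) ^ (x.2 j : ℕ)

/-- The family of numbers `w_ik`, `y_ij`. -/
noncomputable def cdr {N r m : ℕ} (w : Fin N → Fin r → ℂ) (y : Fin N → Fin m → ℂ) :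
    (Fin N × Fin r) ⊕ (Fin N × Fin m) → ℂ :=
  Sum.elim (fun q => w q.1 q.2) (fun q => y q.1 q.2)

/-- The numbers `e^{φ_j(w_i)}`. -/
noncomputable def ey {N r m : ℕ} (φ : Fin m → Fin r → ℂ) (w : Fin N → Fin r → ℂ) :
    Fin N → Fin m → ℂ := fun i j => Complex.exp (∑ k, φ j k * w i k)

/-- The integer polynomial `P_s`. -/
noncomputable def PSr {N r m A W G : ℕ} (p : (Fin G → Ixr r m A W) → ℤ) (s : Fin G → Fin N → ℕ) :
    MvPolynomial ((Fin N × Fin r) ⊕ (Fin N × Fin m)) ℤ :=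
  ∑ x : Fin G → Ixr r m A W, C (p x) * ∏ g : Fin G,
    ((∏ k, (∑ i, C ((s g i : ℕ) : ℤ) * X (Sum.inl (i, k))) ^ ((x g).1 k : ℕ)) *
      ∏ i, ∏ j, X (Sum.inr (i, j)) ^ (((x g).2 j : ℕ) * s g i))

/-- The logarithms `w_ik` are robustly independent. -/
def Rob {N r : ℕ} (n₀ : ℕ) (w : Fin N → Fin r → ℂ) : Prop :=
  ∀ c : Fin r → ℚ, c ≠ 0 →
    n₀ ≤ Module.finrank ℚ (Submodule.span ℚ (Set.range fun i => ∑ k, (c k : ℂ) * w i k))

/-- All `e^{w_ik}` are algebraic. -/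
def Lg {N r : ℕ} (w : Fin N → Fin r → ℂ) : Prop := ∀ i k, IsAlgebraic ℚ (Complex.exp (w i k))

/-! ## Growth -/

/-- The span of the monomials of degree at most `D` in the numbers `t_i`. -/
noncomputable def AD {R : ℕ} (t : Fin R → ℂ) (D : ℕ) : Submodule ℚ ℂ :=
  Submodule.span ℚ {z | ∃ e : Fin R → ℕ, ∑ i, e i ≤ D ∧ z = ∏ i, t i ^ e i}

end Pool.Agent.Work.MP_327059_nt.FR
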