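import Mathlib
import Pool.Agent.Work.MP_327059_nt.FR.Defs
import Pool.Agent.Work.MP_327059_nt.GL.StmtsT

/-!
# PROJECT FR: statements

Goal: for every `d ≥ 2` there is `n₀` such that for every `β` algebraic of degree `d` and every
finite dimensional `ℚ`-space `V` of logarithms of algebraic numbers, the `z ≠ 0` in `V` for which
`z, e^(βz), …, e^(β^(d-1) z)` are algebraically dependent lie in finitely many subspaces of
dimension less than `n₀`.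

Part Z, P, L, N, T: transcendence input in `r` variables (adaptation of the files `GL.T_*`,
`Bd.B11`, `Bd.B12`). Part A: algebra.
-/

set_option autoImplicit false

namespace Pool.Agent.Work.MP_327059_nt.FR

open MvPolynomial Pool.Agent.Work.MP_327059_nt.GL

/-! ## Zero estimate -/

/-- Z1: the translation operator. Adapt `GL.pr_Tr` (Bd/B11.lean, lines 1800-2036).
(5): compare, for a monomial `d` of the support, among the `d'` of the support with the same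
multiplicative exponents, one of maximal total additive degree: its coefficient in `mtr κ c P` is
`∏ c^{d}` times its coefficient in `P` (the other terms have smaller additive degree).
(6): `P(z + c) = a P(z)`, `a = 1` by (5)-type comparison, so `P(z + n c) = P(z)` for all `n : ℕ`,
hence `x ↦ P(z + x c)` is constant and its derivative at `0` vanishes (the sum runs over all `k`,
the terms with `κ k` vanish because `P` does not involve these variables). -/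
def S_MTr : Prop := ∀ (M : ℕ) (κ : Fin M → Bool) (c : Fin M → ℂ), (∀ k, κ k = true → c k ≠ 0) →
  (∀ (z : Fin M → ℂ) (P : MvPolynomial (Fin M) ℂ),
    eval z (mtr κ c P) = eval (fun k => if κ k then c k * z k else z k + c k) P) ∧
  (∀ (P : MvPolynomial (Fin M) ℂ) (i : Fin M), (mtr κ c P).degreeOf i = P.degreeOf i) ∧
  (∀ (c' : Fin M → ℂ) (P : MvPolynomial (Fin M) ℂ),
    mtr κ c (mtr κ c' P) = mtr κ (fun k => if κ k then c k * c' k else c k + c' k) P) ∧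
  (∀ P : MvPolynomial (Fin M) ℂ, Irreducible (mtr κ c P) ↔ Irreducible P) ∧
  (∀ (P : MvPolynomial (Fin M) ℂ) (a : ℂ), mtr κ c P = C a * P →
    ∀ d ∈ P.support, ∀ d' ∈ P.support,
      ∏ k, (if κ k then c k ^ (d k) else 1) = ∏ k, (if κ k then c k ^ (d' k) else 1)) ∧
  (∀ (P : MvPolynomial (Fin M) ℂ) (a : ℂ), mtr κ c P = C a * P →
    (∀ d ∈ P.support, ∀ k, κ k = true → d k = 0) →
      ∀ z, ∑ k, (if κ k then 0 else c k * eval z (pderiv k P)) = 0)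

/-- Z2: the dichotomy. Adapt `GL.pr_ZStep` (Bd/B12.lean, lines 370-700). If `κ 0 = true` remove the
power of `X 0` first (as in `pr_ZStep`), if `κ 0 = false` take `P1 = P`. Same pigeonhole: an
irreducible factor `f` of `P1` with `f.degreeOf 0 ≠ 0` and a set `F` of at least
`(S+1)^N/(B*B)` indices `s` such that all translates of `f` by the points of `F` are associated.
If two monomials of `f` have different multiplicative exponents: first case (part (5) of `S_MTr`).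
If not, `κ 0 = false` (an irreducible `f` not associated to `X 0` which involves `X 0` has two
monomials with different exponents of `X 0`) and the common multiplicative exponent is `0` (else
`X k ∣ f`, so `f` is associated to `X k`, `κ k`, but `f` involves `X 0`); choose `z` and `k` with
`eval z (pderiv k f) ≠ 0` (`f` is not constant) and put `c k = eval z (pderiv k f)` for `κ k` false,
`c k = 0` otherwise: second case, by part (6). -/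
def S_MStep : Prop := ∀ (M N S S' B : ℕ) (κ : Fin (M + 1) → Bool) (t : Fin N → Fin (M + 1) → ℂ)
  (P : MvPolynomial (Fin (M + 1)) ℂ), (∀ i k, κ k = true → t i k ≠ 0) → P ≠ 0 → 1 ≤ B →
  (∀ i, P.degreeOf i ≤ B) →
  (∀ s : Fin N → ℕ, (∀ i, s i ≤ S + S') → eval (mpt κ t s) P = 0) →
    (∃ w : Fin (M + 1) → ℤ, w ≠ 0 ∧ (∀ k, κ k = false → w k = 0) ∧ (∀ k, |w k| ≤ (B : ℤ)) ∧
      (S + 1) ^ N ≤ B * B * mcnt S κ t w) ∨
    (∃ c : Fin (M + 1) → ℂ, c ≠ 0 ∧ (∀ k, κ k = true → c k = 0) ∧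
      (S + 1) ^ N ≤ B * B * acnt S κ t c) ∨
    (∃ R : MvPolynomial (Fin M) ℂ, R ≠ 0 ∧ (∀ i, R.degreeOf i ≤ 2 * B * B) ∧
      ∀ s : Fin N → ℕ, (∀ i, s i ≤ S') →
        eval (mpt (fun k => κ k.succ) (fun i k => t i k.succ) s) R = 0)

/-- Z3: the zero estimate (induction on `M`, from `S_MStep`, see `GL.pr_ZE`, Bd/B12.lean, 35-96;
for `M = 0` the polynomial is a non-zero constant, contradiction with `s = 0`). -/
def S_MZE : Prop := ∀ M : ℕ, ∃ c : ℕ, ∀ (N S B : ℕ) (κ : Fin M → Bool) (t : Fin N → Fin M → ℂ)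
  (P : MvPolynomial (Fin M) ℂ), (∀ i k, κ k = true → t i k ≠ 0) → P ≠ 0 → 1 ≤ B →
  (∀ i, P.degreeOf i ≤ B) →
  (∀ s : Fin N → ℕ, (∀ i, s i ≤ 2 ^ M * S) → eval (mpt κ t s) P = 0) →
    (∃ w : Fin M → ℤ, w ≠ 0 ∧ (∀ k, κ k = false → w k = 0) ∧
      (∀ k, |w k| ≤ ((2 * B) ^ c : ℕ)) ∧ (S + 1) ^ N ≤ (2 * B) ^ c * mcnt S κ t w) ∨
    (∃ c' : Fin M → ℂ, c' ≠ 0 ∧ (∀ k, κ k = true → c' k = 0) ∧
      (S + 1) ^ N ≤ (2 * B) ^ c * acnt S κ t c')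

/-- Z4: the zero estimate, sum version (from `S_MZE` with `M = m + r`, renaming the variables along
`finSumFinEquiv`). -/
def S_ZEr : Prop := ∀ m r : ℕ, ∃ c : ℕ, ∀ (N S B : ℕ) (w : Fin N → Fin r → ℂ)
  (y : Fin N → Fin m → ℂ) (P : MvPolynomial (Fin m ⊕ Fin r) ℂ), (∀ i j, y i j ≠ 0) → P ≠ 0 →
  1 ≤ B → (∀ i, P.degreeOf i ≤ B) →
  (∀ s : Fin N → ℕ, (∀ i, s i ≤ 2 ^ (m + r) * S) → eval (rpt w y s) P = 0) →
    (∃ W : Fin m → ℤ, W ≠ 0 ∧ (∀ j, |W j| ≤ ((2 * B) ^ c : ℕ)) ∧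
      (S + 1) ^ N ≤ (2 * B) ^ c * cntY S y W) ∨
    (∃ c' : Fin r → ℂ, c' ≠ 0 ∧
      (S + 1) ^ N ≤ (2 * B) ^ c * cntL S (fun i => ∑ k, c' k * w i k))

/-! ## Construction -/

/-- P1: pigeonhole for a finite family of products of one variable functions. Adapt `GL.pr_PLm`
(Bd/B11.lean, lines 860-1165): replace `Fin G → N` by `N`, `Fin G` by `ι` and `c (x i)` by
`c x i`. -/
def S_PLg : Prop := ∀ (N ι : Type) [Fintype N] [Fintype ι] (K h : ℕ) (c : N → ι → ℕ → ℂ)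
  (R A : ℝ), 0 ≤ R → 1 ≤ A → 1 ≤ K →
  (∀ x i k, ‖c x i k‖ * R ^ k ≤ A / 2 ^ k) →
  4 * K ^ (Fintype.card ι + 1) ≤ h * Fintype.card N →
    ∃ p : N → ℤ, p ≠ 0 ∧ (∀ x, |p x| ≤ (2 : ℤ) ^ h) ∧
      ∀ z : ι → ℂ, (∀ i, ‖z i‖ ≤ R) →
        ‖∑ x, (p x : ℂ) * ∏ i, ∑' k, c x i k * z i ^ k‖ ≤
          (4 * (K : ℝ) ^ (Fintype.card ι) + Fintype.card ι * 4 ^ (Fintype.card ι)) *
            ((Fintype.card N : ℝ) * 2 ^ h * A ^ (Fintype.card ι)) / 2 ^ K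

/-- P2: the auxiliary function in `r` variables, `G = 2 τ + 4` copies. From `S_PLg` with
`N = Fin G → Ixr r m _ _`, `ι = Fin G × Fin r`, `K = T^((q+1)(τ+1)+2)`, `h = T^(q+1)`, and
`GL.S_Tay` (a theorem `GL.pr_Tay`) for `z^a e^(βz)`. Adapt `GL.pr_Psi` (Bd/B11.lean, 1270-1490). -/
def S_Psir : Prop := ∀ (r m e τ q : ℕ), e ≤ 1 → 1 ≤ r → r * (τ + 1) < e * r + m →
  2 * r * (τ + 3) ≤ q → ∀ (φ : Fin m → Fin r → ℂ) (R0 : ℝ), 1 ≤ R0 →
  ∃ T₀ : ℕ, ∀ T : ℕ, T₀ ≤ T →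
    ∃ p : (Fin (2 * τ + 4) → Ixr r m (T ^ (q * e)) (T ^ q)) → ℤ,
      p ≠ 0 ∧ (∀ x, |p x| ≤ (2 : ℤ) ^ (T ^ (q + 1))) ∧
      ∀ z : Fin (2 * τ + 4) → Fin r → ℂ, (∀ g k, ‖z g k‖ ≤ R0 * T) →
        ‖∑ x, (p x : ℂ) * ∏ g, fr φ (x g) (z g)‖ ≤
          Real.exp (-((T : ℝ) ^ ((q + 1) * (τ + 1) + 2) / 4))

/-- P3: values and sizes of the polynomials `P_s`. Adapt `GL.pr_Val` (Bd/B11.lean, 2045-2356). -/
def S_Valr : Prop := ∀ (N r m A W G : ℕ) (p : (Fin G → Ixr r m A W) → ℤ)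
  (s : Fin G → Fin N → ℕ),
  (∀ (w' : Fin N → Fin r → ℂ) (y' : Fin N → Fin m → ℂ),
    aeval (cdr w' y') (PSr p s) = ∑ x, (p x : ℂ) * ∏ g, evr (x g) (rpt w' y' (s g))) ∧
  (∀ (φ : Fin m → Fin r → ℂ) (w : Fin N → Fin r → ℂ), aeval (cdr w (ey φ w)) (PSr p s) =
      ∑ x, (p x : ℂ) * ∏ g, fr φ (x g) (fun k => ∑ i, (s g i : ℂ) * w i k)) ∧
  (∀ S : ℕ, (∀ g i, s g i ≤ S) →
    (PSr p s).totalDegree ≤ G * (r * A + W * S * N * m)) ∧
  (∀ (S : ℕ) (H : ℝ), 1 ≤ S → 1 ≤ N → (∀ g i, s g i ≤ S) → (∀ x, |(p x : ℝ)| ≤ H) →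
    len (PSr p s) ≤ ((A : ℝ) ^ r * W ^ m) ^ G * H * ((N : ℝ) * S) ^ (r * A * G))

/-! ## Lower bounds -/

/-- L1: linear forms are not small on too many points (Schneider's method in `r - 1` variables). -/
def S_LA : Prop := ∀ (r κ₀ : ℕ), 1 ≤ r → ∃ n₀ : ℕ, ∀ (N : ℕ) (w : Fin N → Fin r → ℂ), Lg w →
  Rob n₀ w → κ₀ ≤ N ∧ ∃ T₀ : ℕ, ∀ T : ℕ, T₀ ≤ T → ∀ ψ : Fin r → ℂ, (∃ k, 1 ≤ ‖ψ k‖) →
    ∀ t : Fin (N - κ₀) → Fin N → ℤ, LinearIndependent ℚ (fun j => (fun i => (t j i : ℚ))) →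
      (∀ j i, |t j i| ≤ (T : ℤ)) →
      (∀ j, ‖∑ k, ψ k * ∑ i, (t j i : ℂ) * w i k‖ ≤ Real.exp (-((T : ℝ) ^ (3 * r + 5)))) → False

/-- N1: multiplicative relations close to the true point are impossible. -/
def S_NoRY : Prop := ∀ (r m q c : ℕ), 1 ≤ r → ∃ n₀ : ℕ, ∀ φ : Fin m → Fin r → ℂ,
  (∀ j k, IsAlgebraic ℚ (φ j k)) → LinearIndependent ℚ φ → ∀ (N : ℕ) (w : Fin N → Fin r → ℂ),
    Lg w → Rob n₀ w → ∃ T₀ : ℕ, ∀ T : ℕ, T₀ ≤ T → ∀ y' : Fin N → Fin m → ℂ,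
      (∀ i j, ‖y' i j - ey φ w i j‖ ≤ Real.exp (-((T : ℝ) ^ (3 * r + 6)))) →
      ∀ W : Fin m → ℤ, W ≠ 0 → (∀ j, |W j| ≤ ((2 * T ^ q) ^ c : ℕ)) →
        (2 * T ^ q) ^ c * cntY T y' W < (T + 1) ^ N

/-- N2: additive relations close to the true point are impossible. -/
def S_NoRL : Prop := ∀ (r q c : ℕ), 1 ≤ r → ∃ n₀ : ℕ, ∀ (N : ℕ) (w : Fin N → Fin r → ℂ),
    Lg w → Rob n₀ w → ∃ T₀ : ℕ, ∀ T : ℕ, T₀ ≤ T → ∀ w' : Fin N → Fin r → ℂ,
      (∀ i k, ‖w' i k - w i k‖ ≤ Real.exp (-((T : ℝ) ^ (3 * r + 6)))) →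
      ∀ c' : Fin r → ℂ, c' ≠ 0 →
        (2 * T ^ q) ^ c * cntL T (fun i => ∑ k, c' k * w' i k) < (T + 1) ^ N

/-- N3: no polynomial of degree `≤ T^q` vanishes on the perturbed points (from `S_ZEr`, `S_NoRY`,
`S_NoRL`; see `GL.pr_NoZero`, Bd/B11.lean, 700-850). -/
def S_NoZr : Prop := ∀ (r m q : ℕ), 1 ≤ r → ∃ n₀ : ℕ, ∀ φ : Fin m → Fin r → ℂ,
  (∀ j k, IsAlgebraic ℚ (φ j k)) → LinearIndependent ℚ φ → ∀ (N : ℕ) (w : Fin N → Fin r → ℂ),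
    Lg w → Rob n₀ w → ∃ T₀ : ℕ, ∀ T : ℕ, T₀ ≤ T →
      ∀ (w' : Fin N → Fin r → ℂ) (y' : Fin N → Fin m → ℂ),
      (∀ i k, ‖w' i k - w i k‖ ≤ Real.exp (-((T : ℝ) ^ (3 * r + 6)))) →
      (∀ i j, ‖y' i j - ey φ w i j‖ ≤ Real.exp (-((T : ℝ) ^ (3 * r + 6)))) →
      ∀ P : MvPolynomial (Fin m ⊕ Fin r) ℂ, (∀ i, P.degreeOf i ≤ T ^ q) →
        (∀ s : Fin N → ℕ, (∀ i, s i ≤ 2 ^ (m + r) * T) → eval (rpt w' y' s) P = 0) → P = 0

/-- T1: the transcendence theorem in `r` variables (from `GL.S_Crit`, `S_Psir`, `S_Valr`,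
`GL.S_Tensor`, `S_NoZr` with `q = 2 r (τ+3) + 3 r + 6`; adapt `GL/T_TIe.lean`: `M - 1` becomes
`τ + 1`, `M + 1` copies become `2 τ + 4` copies, `T ^ 3` becomes `T ^ (3 r + 6)`, the box is
`2 ^ (m + r) * T`). -/
def S_TIr : Prop := ∀ (r m e τ : ℕ), e ≤ 1 → 1 ≤ r → r * (τ + 1) < e * r + m →
  ∃ n₀ : ℕ, ∀ φ : Fin m → Fin r → ℂ, (∀ j k, IsAlgebraic ℚ (φ j k)) → LinearIndependent ℚ φ →
    ∀ (N : ℕ) (w : Fin N → Fin r → ℂ), Lg w → Rob n₀ w →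
      (e = 1 → ¬ TrLe τ (cdr w (ey φ w))) ∧
      (e = 0 → ¬ TrLe τ (fun q : Fin N × Fin m => ey φ w q.1 q.2))

/-! ## Algebra -/

/-- A1: growth. `AD t D` has dimension at most `(D+1)^R`, so it cannot grow exponentially. -/
def S_Grow : Prop := ∀ (R s : ℕ), ∃ D₁ : ℕ, ∀ t : Fin R → ℂ, ∃ D : ℕ, D + 1 ≤ D₁ ∧
  Module.finrank ℚ (AD t (D + 1)) ≤ D₁ ∧ FiniteDimensional ℚ (AD t (D + 1)) ∧
  s * Module.finrank ℚ (AD t (D + 1)) <
    s * Module.finrank ℚ (AD t D) + Module.finrank ℚ (AD t (D + 1))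

/-- A2: pivots of a subspace. -/
def S_Piv : Prop := ∀ (m : ℕ) (V : Submodule ℂ (Fin m → ℂ)),
  ∃ (J : Finset (Fin m)) (c : J → Fin m → ℂ), J.card = Module.finrank ℂ V ∧ (∀ j, c j ∈ V) ∧
    ∀ j j' : J, c j j' = if j = j' then 1 else 0

/-- A3: functionals. For `ℚ`-independent `v`, `l`, `g` there are finitely many functionals `μ_i` on
`ℂ` such that the combinations `∑ μ_i(g_k v_a) l_a` are robustly independent. (`μ_i`: extensions to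
`ℂ` of the dual basis of a basis of the span of the `g_k v_a`; for `c ≠ 0` the number
`g = ∑ c_k g_k` is not zero, so the `g v_a` are independent and the rows `(μ_i(g v_a))_a`
span `ℚ^n`.) -/
def S_Fun : Prop := ∀ (n r : ℕ) (v l : Fin n → ℂ) (g : Fin r → ℂ), LinearIndependent ℚ v →
  LinearIndependent ℚ l → LinearIndependent ℚ g → ∃ (N : ℕ) (μ : Fin N → ℂ →ₗ[ℚ] ℚ),
    Rob n (fun i k => ∑ a, (μ i (g k * v a) : ℂ) * l a)

end Pool.Agent.Work.MP_327059_nt.FR
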