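import Mathlib
import Pool.Agent.Work.MP_327059_nt.FR.Stmts

/-!
# Item Fun: functionals
-/

set_option autoImplicit false

namespace Pool.Agent.Work.MP_327059_nt.FR

open MvPolynomial Pool.Agent.Work.MP_327059_nt.GL

/-- The rows of the matrix of the coordinates of independent vectors span. -/
theorem Fun_rank {n N : ℕ} (W : Submodule ℚ ℂ) (b : Module.Basis (Fin N) ℚ W)
    (μ : Fin N → ℂ →ₗ[ℚ] ℚ) (hμ : ∀ i, (μ i).comp W.subtype = b.coord i)
    (x : Fin n → ℂ) (hx : LinearIndependent ℚ x) (hxW : ∀ a, x a ∈ W) :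
    Module.finrank ℚ (Submodule.span ℚ (Set.range (fun i : Fin N => fun a : Fin n => μ i (x a))))
      = n := by
  obtain ⟨A, hA⟩ : ∃ A : Matrix (Fin N) (Fin n) ℚ, A = Matrix.of (fun i a => μ i (x a)) :=
    ⟨_, rfl⟩
  have h1 : LinearIndependent ℚ (A.transpose).row := by
    rw [Fintype.linearIndependent_iff]
    intro d hd
    have hW : ∑ a, d a • x a ∈ W := Submodule.sum_mem _ fun a _ => W.smul_mem _ (hxW a)
    have h2 : ∀ i, μ i (∑ a, d a • x a) = 0 := by
      intro i
      have h3 := congrFun hd i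
      rw [Finset.sum_apply] at h3
      rw [map_sum]
      calc ∑ a, μ i (d a • x a) = ∑ a, (d a • (A.transpose).row a) i := by
            refine Finset.sum_congr rfl fun a _ => ?_
            rw [map_smul, hA]
            rfl
        _ = 0 := by rw [h3]; rfl
    have h4 : (⟨∑ a, d a • x a, hW⟩ : W) = 0 := by
      apply b.repr.injective
      ext i
      have h5 := h2 i
      have h6 : μ i (∑ a, d a • x a) = b.coord i ⟨∑ a, d a • x a, hW⟩ := by
        rw [← hμ i]
        rfl
      rw [h6] at h5
      rw [map_zero, Finsupp.zero_apply]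
      exact h5
    have h7 : ∑ a, d a • x a = 0 := congrArg Subtype.val h4
    exact (Fintype.linearIndependent_iff.1 hx) d h7
  have h2 := h1.rank_matrix
  rw [Matrix.rank_transpose, Matrix.rank_eq_finrank_span_row, Fintype.card_fin] at h2
  rw [hA] at h2
  exact h2

theorem Fun_mul {n : ℕ} (v : Fin n → ℂ) (hv : LinearIndependent ℚ v) (G : ℂ) (hG : G ≠ 0) :
    LinearIndependent ℚ (fun a => G * v a) := by
  rw [Fintype.linearIndependent_iff] at hv ⊢
  intro d hd
  apply hv d
  have h1 : ∑ a, d a • (G * v a) = G * ∑ a, d a • v a := by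
    rw [Finset.mul_sum]
    exact Finset.sum_congr rfl fun a _ => (mul_smul_comm (d a) G (v a)).symm
  rw [h1] at hd
  exact (mul_eq_zero.1 hd).resolve_left hG

theorem pr_Fun : S_Fun := by
  classical
  intro n r v l g hv hl hg
  obtain ⟨W, hW⟩ : ∃ W : Submodule ℚ ℂ,
      W = Submodule.span ℚ (Set.range (fun p : Fin r × Fin n => g p.1 * v p.2)) := ⟨_, rfl⟩
  have hWf : FiniteDimensional ℚ W := by
    rw [hW]
    exact FiniteDimensional.span_of_finite ℚ (Set.finite_range _)
  have hWm : ∀ k a, g k * v a ∈ W := by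
    intro k a
    rw [hW]
    exact Submodule.subset_span ⟨(k, a), rfl⟩
  obtain ⟨b⟩ : Nonempty (Module.Basis (Fin (Module.finrank ℚ W)) ℚ W) :=
    ⟨Module.finBasis ℚ W⟩
  have hex : ∀ i, ∃ μ : ℂ →ₗ[ℚ] ℚ, μ.comp W.subtype = b.coord i := fun i =>
    LinearMap.exists_extend (b.coord i)
  choose μ hμ using hex
  refine ⟨Module.finrank ℚ W, μ, ?_⟩
  intro c hc
  obtain ⟨G, hG⟩ : ∃ G : ℂ, G = ∑ k, c k • g k := ⟨_, rfl⟩
  have hG0 : G ≠ 0 := by
    intro h0
    rw [hG] at h0
    exact hc (funext fun k => (Fintype.linearIndependent_iff.1 hg) c h0 k)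
  have hGv : ∀ a, G * v a = ∑ k, c k • (g k * v a) := by
    intro a
    rw [hG, Finset.sum_mul]
    exact Finset.sum_congr rfl fun k _ => smul_mul_assoc (c k) (g k) (v a)
  have hrank := Fun_rank W b μ hμ (fun a => G * v a) (Fun_mul v hv G hG0) (fun a => by
    show G * v a ∈ W
    rw [hGv]
    exact Submodule.sum_mem _ fun k _ => W.smul_mem _ (hWm k a))
  have hy : (fun i => ∑ k, (c k : ℂ) * ∑ a, ((μ i (g k * v a) : ℚ) : ℂ) * l a) =
      (fun i => Fintype.linearCombination ℚ l (fun a => μ i (G * v a))) := by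
    funext i
    rw [Fintype.linearCombination_apply]
    simp only [Finset.mul_sum]
    rw [Finset.sum_comm]
    refine Finset.sum_congr rfl fun a _ => ?_
    show _ = μ i (G * v a) • l a
    rw [hGv, map_sum, Finset.sum_smul]
    refine Finset.sum_congr rfl fun k _ => ?_
    rw [map_smul, smul_eq_mul, Rat.smul_def]
    push_cast
    ring
  rw [hy]
  have hinj : Function.Injective (Fintype.linearCombination ℚ l) := by
    rw [injective_iff_map_eq_zero]
    intro d hd
    rw [Fintype.linearCombination_apply] at hd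
    exact funext fun a => (Fintype.linearIndependent_iff.1 hl) d hd a
  have hspan : Submodule.span ℚ (Set.range (fun i : Fin (Module.finrank ℚ W) =>
      Fintype.linearCombination ℚ l (fun a => μ i (G * v a)))) =
      (Submodule.span ℚ (Set.range (fun i : Fin (Module.finrank ℚ W) =>
        fun a : Fin n => μ i (G * v a)))).map (Fintype.linearCombination ℚ l) := by
    rw [Submodule.map_span, ← Set.range_comp]
    rfl
  rw [hspan, ← (Submodule.equivMapOfInjective _ hinj _).finrank_eq]
  exact le_of_eq hrank.symm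

end Pool.Agent.Work.MP_327059_nt.FR
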