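import Mathlib
import Pool.Agent.Work.MP_327059_nt.FR.Stmts

/-!
# PROJECT FR: item Grow
-/

set_option autoImplicit false

namespace Pool.Agent.Work.MP_327059_nt.FR

/-- The box of monomials with all exponents at most `D`. -/
noncomputable def Grow_mon {R : ℕ} (t : Fin R → ℂ) (D : ℕ) (e : Fin R → Fin (D + 1)) : ℂ :=
  ∏ i, t i ^ (e i : ℕ)

theorem Grow_le {R : ℕ} (t : Fin R → ℂ) (D : ℕ) :
    AD t D ≤ Submodule.span ℚ (Set.range (Grow_mon t D)) := by
  unfold AD
  apply Submodule.span_mono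
  rintro z ⟨e, he, rfl⟩
  have h : ∀ i, e i < D + 1 := fun i =>
    Nat.lt_succ_of_le (le_trans (Finset.single_le_sum (f := e) (fun j _ => Nat.zero_le _)
      (Finset.mem_univ i)) he)
  exact ⟨fun i => ⟨e i, h i⟩, rfl⟩

theorem Grow_fin {R : ℕ} (t : Fin R → ℂ) (D : ℕ) : FiniteDimensional ℚ (AD t D) := by
  have : FiniteDimensional ℚ (Submodule.span ℚ (Set.range (Grow_mon t D))) :=
    FiniteDimensional.span_of_finite ℚ (Set.finite_range _)
  exact Submodule.finiteDimensional_of_le (Grow_le t D)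

theorem Grow_card {R : ℕ} (t : Fin R → ℂ) (D : ℕ) :
    Module.finrank ℚ (AD t D) ≤ (D + 1) ^ R := by
  have : FiniteDimensional ℚ (Submodule.span ℚ (Set.range (Grow_mon t D))) :=
    FiniteDimensional.span_of_finite ℚ (Set.finite_range _)
  have h1 := Submodule.finrank_mono (Grow_le t D)
  have h2 : Module.finrank ℚ (Submodule.span ℚ (Set.range (Grow_mon t D))) ≤
      Fintype.card (Fin R → Fin (D + 1)) := finrank_range_le_card (Grow_mon t D)
  have h3 : Fintype.card (Fin R → Fin (D + 1)) = (D + 1) ^ R := by simp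
  omega

theorem Grow_pos {R : ℕ} (t : Fin R → ℂ) (D : ℕ) : 1 ≤ Module.finrank ℚ (AD t D) := by
  have := Grow_fin t D
  have h1 : (1 : ℂ) ∈ AD t D := Submodule.subset_span ⟨fun _ => 0, by simp, by simp⟩
  have h2 : 0 < Module.finrank ℚ (AD t D) := by
    rw [Module.finrank_pos_iff_exists_ne_zero]
    exact ⟨⟨1, h1⟩, fun h => one_ne_zero (congrArg Subtype.val h)⟩
  exact h2

theorem Grow_exp (R s : ℕ) (hs : 1 ≤ s) : ∃ D₀ : ℕ, (s - 1) ^ D₀ * (D₀ + 1) ^ R < s ^ D₀ := by
  have hs' : (0 : ℝ) < s := by exact_mod_cast hs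
  have hr : |((s : ℝ) - 1) / s| < 1 := by
    have h0 : (0 : ℝ) ≤ (s : ℝ) - 1 := by
      have : (1 : ℝ) ≤ s := by exact_mod_cast hs
      linarith
    rw [abs_of_nonneg (div_nonneg h0 hs'.le), div_lt_one hs']
    linarith
  have ht := (tendsto_pow_const_mul_const_pow_of_abs_lt_one R hr).const_mul ((2 : ℝ) ^ R)
  rw [mul_zero] at ht
  have hev := (ht.eventually (gt_mem_nhds (zero_lt_one' ℝ))).and (Filter.eventually_ge_atTop 1)
  obtain ⟨D, hD, hD1⟩ := hev.exists
  refine ⟨D, ?_⟩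
  have hsD : (0 : ℝ) < (s : ℝ) ^ D := pow_pos hs' D
  have h1 : ((2 : ℝ) ^ R * ((D : ℝ) ^ R * (((s : ℝ) - 1) / s) ^ D)) * (s : ℝ) ^ D =
      ((2 * D : ℝ)) ^ R * ((s : ℝ) - 1) ^ D := by
    rw [div_pow, mul_pow]
    field_simp
  have h2 : ((2 * D : ℝ)) ^ R * ((s : ℝ) - 1) ^ D < (s : ℝ) ^ D := by
    rw [← h1]
    calc _ < 1 * (s : ℝ) ^ D := by
          apply mul_lt_mul_of_pos_right _ hsD
          simpa using hD
      _ = _ := one_mul _
  have h3 : (((s - 1) ^ D * (2 * D) ^ R : ℕ) : ℝ) < ((s ^ D : ℕ) : ℝ) := by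
    push_cast [Nat.cast_sub hs]
    rw [mul_comm]
    exact h2
  have h4 : (s - 1) ^ D * (2 * D) ^ R < s ^ D := by exact_mod_cast h3
  have h5 : (D + 1) ^ R ≤ (2 * D) ^ R := Nat.pow_le_pow_left (by omega) R
  exact lt_of_le_of_lt (Nat.mul_le_mul_left _ h5) h4

theorem pr_Grow : S_Grow := by
  intro R s
  rcases Nat.eq_zero_or_pos s with hs | hs
  · subst hs
    refine ⟨(0 + 1 + 1) ^ R + 1, fun t => ⟨0, ?_, ?_, Grow_fin t _, ?_⟩⟩
    · exact Nat.succ_le_succ (Nat.zero_le _)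
    · exact le_trans (Grow_card t (0 + 1)) (Nat.le_succ _)
    · have := Grow_pos t (0 + 1)
      omega
  · obtain ⟨D₀, hD₀⟩ := Grow_exp R s hs
    refine ⟨D₀ + (D₀ + 1) ^ R, fun t => ?_⟩
    by_contra hcon
    push Not at hcon
    have hall : ∀ D, D + 1 ≤ D₀ → s * Module.finrank ℚ (AD t D) +
        Module.finrank ℚ (AD t (D + 1)) ≤ s * Module.finrank ℚ (AD t (D + 1)) := by
      intro D hD
      refine hcon D (by omega) ?_ (Grow_fin t _)
      have h1 := Grow_card t (D + 1)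
      have h2 : (D + 1 + 1) ^ R ≤ (D₀ + 1) ^ R := Nat.pow_le_pow_left (by omega) R
      omega
    have hind : ∀ D, D ≤ D₀ → s ^ D ≤ (s - 1) ^ D * Module.finrank ℚ (AD t D) := by
      intro D
      induction D with
      | zero =>
        intro _
        have := Grow_pos t 0
        simpa using this
      | succ D ih =>
        intro hD
        have h1 := ih (by omega)
        have h2 := hall D hD
        obtain ⟨u, rfl⟩ : ∃ u, s = u + 1 := ⟨s - 1, by omega⟩
        have h3 : (u + 1) * Module.finrank ℚ (AD t D) ≤ u * Module.finrank ℚ (AD t (D + 1)) := by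
          have : (u + 1) * Module.finrank ℚ (AD t (D + 1)) =
              u * Module.finrank ℚ (AD t (D + 1)) + Module.finrank ℚ (AD t (D + 1)) := by ring
          omega
        simp only [Nat.add_sub_cancel] at h1 ⊢
        calc (u + 1) ^ (D + 1) = (u + 1) * (u + 1) ^ D := by ring
          _ ≤ (u + 1) * (u ^ D * Module.finrank ℚ (AD t D)) := Nat.mul_le_mul_left _ h1
          _ = u ^ D * ((u + 1) * Module.finrank ℚ (AD t D)) := by ring
          _ ≤ u ^ D * (u * Module.finrank ℚ (AD t (D + 1))) := Nat.mul_le_mul_left _ h3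
          _ = u ^ (D + 1) * Module.finrank ℚ (AD t (D + 1)) := by ring
    have h6 := hind D₀ le_rfl
    have h7 := Nat.mul_le_mul_left ((s - 1) ^ D₀) (Grow_card t D₀)
    omega

end Pool.Agent.Work.MP_327059_nt.FR
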