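import Mathlib
import Pool.Agent.Work.MP_327059_nt.FR.Stmts
import Pool.Agent.Work.MP_327059_nt.Bd.B01

/-!
# PROJECT FR: statements, second part
-/

set_option autoImplicit false

namespace Pool.Agent.Work.MP_327059_nt.FR

open MvPolynomial Pool.Agent.Work.MP_327059_nt.GL

/-! ## Parts of `S_LA` -/

/-- L2: counting. Let `L : ℚ^N → ℂ`, `s ↦ ∑ s_i ∑_k q_k w_ik`; its rank is at least `n₀` (`Rob`).
`L' : ℚ^(N-κ₀) → ℂ`, `σ ↦ L(∑ σ_j t_j)` has rank at least `n₀ - κ₀` because the `t_j` are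
independent (`finrank (range L') ≥ finrank (range L) - κ₀`). If `exp (L'(σ)) = 1` then `L'(σ)` is an
integral multiple of `2πi`, so `σ` lies in the inverse image under `L'` of `ℚ · 2πi`, of dimension
at most `finrank (ker L') + 1 ≤ (N - κ₀) - (n₀ - κ₀) + 1 = N + 1 - n₀`. Use `GL.S_RankBox`
(theorem `GL.pr_RankBox` in Bd/B11.lean). -/
def S_LAc : Prop := ∀ (r N κ₀ n₀ S : ℕ) (w : Fin N → Fin r → ℂ) (q : Fin r → ℤ)
  (t : Fin (N - κ₀) → Fin N → ℤ), κ₀ ≤ N → Rob n₀ w → q ≠ 0 →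
  LinearIndependent ℚ (fun j => (fun i => (t j i : ℚ))) → κ₀ + 1 ≤ n₀ →
  Set.ncard {σ : Fin (N - κ₀) → ℤ | (∀ j, |σ j| ≤ (S : ℤ)) ∧
    Complex.exp (∑ j, (σ j : ℂ) * ∑ k, (q k : ℂ) * ∑ i, (t j i : ℂ) * w i k) = 1} ≤
      (2 * S + 1) ^ (N + 1 - n₀)

/-- L3: the auxiliary function. `S_PLg` with `N = (Fin r → Fin (T^(3r)))`,
`ι = {k // k ≠ k0}` (`r - 1` elements), `K = T^(3r+3)`, `h = T^(3r+2)`, `R = R0 T^2`, and
the Taylor coefficients of `e^(β z)` (`GL.S_Tay` with `a = 0`, `A0 = 0`, theorem `GL.pr_Tay` in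
Bd/B11.lean), `β = x_k + x_{k0} χ_k`, `|β| ≤ 2 T^(3r)`. Count: `4 K^r ≤ h (T^(3r))^r` since
`(3r+3) r + 2 = 3r+2 + 3r^2` for `T ≥ 2`. So the function
`F(z) = ∑_x p_x exp(∑_{k ≠ k0} (x_k + x_{k0} χ_k) z_k)` has
`|F(z)| ≤ exp(-T^(3r+3)/4)` for large `T` (as in `GL.Psi_est`); and
`F(z) = ∑_x p_x exp(∑_k x_k z_k - x_{k0} δ)` with `δ = z_{k0} - ∑_{k≠k0} χ_k z_k`,
`|δ| ≤ exp(-T^(3r+4))`, so the difference to the sum in the statement is at most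
`T^(3r^2) 2^(T^(3r+2)) exp(r T^(3r) R0 T^2) 2 T^(3r) exp(-T^(3r+4))`, very small. -/
def S_LAa : Prop := ∀ (r : ℕ) (R0 : ℝ), 1 ≤ r → 1 ≤ R0 → ∃ T₀ : ℕ, ∀ T : ℕ, T₀ ≤ T →
  ∀ (k0 : Fin r) (χ : Fin r → ℂ), (∀ k, ‖χ k‖ ≤ 1) →
    ∃ p : (Fin r → Fin (T ^ (3 * r))) → ℤ, p ≠ 0 ∧ (∀ x, |p x| ≤ (2 : ℤ) ^ (T ^ (3 * r + 2))) ∧
      ∀ z : Fin r → ℂ, (∀ k, ‖z k‖ ≤ R0 * (T : ℝ) ^ 2) →
        ‖z k0 - ∑ k ∈ Finset.univ.erase k0, χ k * z k‖ ≤ Real.exp (-((T : ℝ) ^ (3 * r + 4))) →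
          ‖∑ x, (p x : ℂ) * Complex.exp (∑ k, ((x k : ℕ) : ℂ) * z k)‖ ≤
            Real.exp (-((T : ℝ) ^ (3 * r + 3) / 8))

/-- L4: Liouville. The sum is the value of an integer polynomial of degree at most
`r K N B` and length at most `K^r 2^h` at the algebraic numbers `e^(w_ik)`, `e^(-w_ik)` (negative
exponents): `AA.IsVal`, `AA.S_Liou` (theorem `AA.pr_Liou AA.full_NL`, file AA/Asm.lean; model
`GL.pr_LiB` at the end of Bd/B10.lean). Absorb `r`, `N` in `C`. -/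
def S_LAl : Prop := ∀ (N r : ℕ) (w : Fin N → Fin r → ℂ), Lg w → ∃ C : ℝ, 1 ≤ C ∧
  ∀ (K h B : ℕ) (p : (Fin r → Fin K) → ℤ) (s : Fin N → ℤ), (∀ x, |p x| ≤ (2 : ℤ) ^ h) →
    (∀ i, |s i| ≤ (B : ℤ)) →
    ∑ x, (p x : ℂ) * Complex.exp (∑ k, ((x k : ℕ) : ℂ) * ∑ i, (s i : ℂ) * w i k) ≠ 0 →
    Real.exp (-(C * ((K : ℝ) * B + h + K + 1))) ≤
      ‖∑ x, (p x : ℂ) * Complex.exp (∑ k, ((x k : ℕ) : ℂ) * ∑ i, (s i : ℂ) * w i k)‖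

/-! `S_LA` from `S_LAc`, `S_LAa`, `S_LAl`, `S_MZE`: put `n₀ = κ₀ + 3 r c + 3`, `c` the constant of
`S_MZE` for `M = r`. `κ₀ ≤ n₀ ≤ N` (`Rob` for a unit vector). Given `ψ`, `t`: `k0` with `‖ψ k0‖`
maximal (`≥ 1`), `χ_k = -ψ_k/ψ_{k0}`. For `σ : Fin (N-κ₀) → ℕ` with `σ_j ≤ 2^r T` put
`s = ∑ σ_j t_j`, `z_k = ∑ s_i w_ik`: `|s_i| ≤ N 2^r T^2`, `‖z_k‖ ≤ R0 T^2`,
`‖z_{k0} - ∑ χ_k z_k‖ ≤ N 2^r T exp(-T^(3r+5)) ≤ exp(-T^(3r+4))`. `S_LAa` gives `p`, and the sum is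
`≤ exp(-T^(3r+3)/8)`, by `S_LAl` it vanishes (`K B, h, K ≤ C' T^(3r+2)`). So the polynomial
`∑ p_x X^x` in `r` variables (all multiplicative, `κ = fun _ => true`) of degrees `≤ T^(3r)`
vanishes at all points `mpt κ y σ`, `y_jk = exp(∑_i t_ji w_ik)`, `σ_j ≤ 2^r T`. `S_MZE`
(`N := N - κ₀`, `S := T`, `B := T^(3r)`): the second case is impossible (`c' = 0`), the first gives
`q ≠ 0` with `(T+1)^(N-κ₀) ≤ (2 T^(3r))^c mcnt`, and `mcnt ≤ (2T+1)^(N+1-n₀)` by `S_LAc`.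
For large `T` this is false: `N - κ₀ > 3 r c + (N + 1 - n₀)`. -/

/-- L5: linear independence measure for vectors (Liouville; some coordinate of the non-zero vector
`∑ W_j φ_j` is non-zero; model `GL.pr_LiB` at the end of Bd/B10.lean). -/
def S_LiV : Prop := ∀ (r m : ℕ) (φ : Fin m → Fin r → ℂ), (∀ j k, IsAlgebraic ℚ (φ j k)) →
  LinearIndependent ℚ φ → ∃ c : ℕ, ∀ W : Fin m → ℤ, W ≠ 0 → ∀ X : ℝ, 2 ≤ X →
    (∀ j, |(W j : ℝ)| ≤ X) → ∃ k, (X ^ c)⁻¹ ≤ ‖∑ j, (W j : ℂ) * φ j k‖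

/-! `S_NoRY` from `S_LA`, `S_LiV`, `GL.S_ManyInd`, `GL.S_Pert`, `GL.S_NearLog`: put
`κ₀ = 2 q c + c + 4` and `n₀` from `S_LA r κ₀`. Suppose `(T+1)^N ≤ (2T^q)^c cntY T y' W`. For `s` in
the set counted by `cntY` the numbers `y'` are close to `ey φ w`, so (as in `GL.pr_NoRelY`)
`‖exp(∑_j W_j φ_j(s)) - 1‖` is tiny and `∑_j W_j φ_j(s) - 2πi k_s` is tiny, where
`φ_j(s) = ∑_k φ_jk ∑_i s_i w_ik`, `|k_s| ≤ C T^(qc+1)`. Pigeonhole: at least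
`(T+1)^N / ((2T^q)^c C' T^(qc+1))` of these `s` have the same `k_s`; subtract one of them: many
`s` in the box `2T` with `‖∑_k ψ_k ∑_i s_i w_ik‖` tiny, `ψ_k = ∑_j W_j φ_jk`. `GL.S_ManyInd` with
`r + 1 = N - κ₀` gives `N - κ₀` independent ones. Normalise `ψ` by `S_LiV` (multiply by `X^c`),
contradiction with `S_LA` at `2T`: `exp(-T^(3r+6)/2) ≤ exp(-(2T)^(3r+5))`.
`S_NoRL` the same, simpler: normalise `c'` so that `max ‖c'_k‖ = 1`; the `s` counted by `cntL`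
satisfy `‖∑_k c'_k ∑_i s_i w_ik‖ ≤ N r T exp(-T^(3r+6))`. -/

/-! ## Algebra -/

/-- The data of a non-standard exceptional logarithm, transported to `ℂ`: an embedding `ι` of `ℂ`
in `ℂ`, extensions `xd δ` of the derivations, elements `v` killed by them and linearly independent
over `ι ℂ`, and one linear relation between the forms. -/
def NS {n m : ℕ} (l : Fin n → ℂ) (b : Fin m → ℂ) (ι : ℂ →+* ℂ)
    (xd : Derivation ℚ ℂ ℂ → Derivation ℚ ℂ ℂ) (v : Fin n → ℂ) (a : Option (Fin m) → ℂ) : Prop :=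
  (∀ δ c, xd δ (ι c) = ι (δ c)) ∧ (∀ δ i, xd δ (v i) = 0) ∧
  (∀ c : Fin n → ℂ, ∑ i, v i * ι (c i) = 0 → c = 0) ∧ a ≠ 0 ∧
  ∀ δ : Derivation ℚ ℂ ℂ, a none * ∑ i, v i * ι (δ (l i)) +
    ∑ j, a (some j) * ∑ i, v i * (ι (δ (Complex.exp (b j * l i))) /
      ι (Complex.exp (b j * l i))) = 0

/-- A4: the ultrapower, transported to `ℂ`. -/
def S_UPC : Prop := ∀ (n m : ℕ) (l : Fin n → ℂ) (b : Fin m → ℂ), 0 < n →
  LinearIndependent ℚ l →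
  (∀ T : Finset (Submodule ℚ (Fin n → ℚ)), (∀ W ∈ T, W ≠ ⊤) →
    ∃ t : Fin n → ℚ, (∀ W ∈ T, t ∉ W) ∧ ¬ AlgebraicIndependent ℚ (fun o : Option (Fin m) =>
      o.elim (Fintype.linearCombination ℚ l t)
        (fun j => Complex.exp (b j * Fintype.linearCombination ℚ l t)))) →
  ∃ (ι : ℂ →+* ℂ) (xd : Derivation ℚ ℂ ℂ → Derivation ℚ ℂ ℂ) (v : Fin n → ℂ)
    (a : Option (Fin m) → ℂ), NS l b ι xd v a

/-- A5: the output of the Ax type argument. -/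
def S_Ax2 : Prop := ∀ (n m : ℕ) (l : Fin n → ℂ) (b : Fin m → ℂ) (ι : ℂ →+* ℂ)
  (xd : Derivation ℚ ℂ ℂ → Derivation ℚ ℂ ℂ) (v : Fin n → ℂ) (a : Option (Fin m) → ℂ),
  NS l b ι xd v a → ∃ (G : AddSubgroup (Fin n → Fin m → ℤ)) (k0 : ℕ) (f : Fin k0 → ℂ),
    AlgebraicIndependent ℚ f ∧
    (∀ ξ ∈ G, AlgOver f (mon (fun i j => Complex.exp (b j * l i)) ξ)) ∧
    ug G v + k0 ≤ m ∧ ((∀ i, AlgOver f (l i)) ∨ ug G v + k0 + 1 ≤ m)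

/-- A6: pivots and functionals. Let `V` be the space of all `c` in `ℂ^m` with
`∑_k c_k (mv v b)_k = 0` for all `b` in `annC G`: the orthogonal of `(annC G).map (mv v)`, of
dimension `m - ug G v`. `S_Piv` gives `J`, `c`. For a `ℚ`-linear `μ : ℂ → ℚ` and `b` in `annQ G`,
`∑_ik μ(v_i c_jk) b_ik = μ(∑_ik v_i c_jk b_ik) = 0`, so by `GL.S_DoubleAnn` a multiple of the
matrix `μ(v_i c_jk)` is in `G`. -/
def S_Lin2 : Prop := ∀ (n m : ℕ) (G : AddSubgroup (Fin n → Fin m → ℤ)) (v : Fin n → ℂ),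
  ∃ (J : Finset (Fin m)) (c : J → Fin m → ℂ), J.card + ug G v = m ∧
    (∀ j j' : J, c j j' = if j = j' then 1 else 0) ∧
    ∀ (j : J) (μ : ℂ →ₗ[ℚ] ℚ), ∃ N : ℕ, N ≠ 0 ∧ ∃ ξ ∈ G, ∀ i k,
      (ξ i k : ℚ) = N * μ (v i * c j k)

/-- A7: covering by proper subspaces. -/
def S_CovR : Prop := ∀ d : ℕ, 2 ≤ d → ∃ n₀ : ℕ, ∀ β : ℂ, IsAlgebraic ℚ β →
  (minpoly ℚ β).natDegree = d → ∀ n : ℕ, n₀ < n → ∀ l : Fin n → ℂ, LinearIndependent ℚ l →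
    (∀ t : Fin n → ℚ, IsAlgebraic ℚ (Complex.exp (Fintype.linearCombination ℚ l t))) →
      ∃ T : Finset (Submodule ℚ (Fin n → ℚ)), (∀ W ∈ T, W ≠ ⊤) ∧
        ∀ t : Fin n → ℚ, ¬ AlgebraicIndependent ℚ (fun j : Fin d =>
            if (j : ℕ) = 0 then Fintype.linearCombination ℚ l t
            else Complex.exp (β ^ (j : ℕ) * Fintype.linearCombination ℚ l t)) → ∃ W ∈ T, t ∈ W

end Pool.Agent.Work.MP_327059_nt.FR
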