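import Mathlib
import Pool.Agent.Work.MP_327059_nt.FR.Stmts2

/-!
# PROJECT FR, item LA: linear forms are not small on too many points
-/

set_option autoImplicit false

namespace Pool.Agent.Work.MP_327059_nt.FR

open MvPolynomial Pool.Agent.Work.MP_327059_nt.GL

/-- The polynomial with coefficients `p x`. -/
noncomputable def LA_P {r K : ℕ} (p : (Fin r → Fin K) → ℤ) : MvPolynomial (Fin r) ℂ :=
  ∑ x, monomial (Finsupp.equivFunOnFinite.symm fun k => ((x k : ℕ))) (p x : ℂ)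

theorem LA_P_coeff {r K : ℕ} (p : (Fin r → Fin K) → ℤ) (x : Fin r → Fin K) :
    coeff (Finsupp.equivFunOnFinite.symm fun k => ((x k : ℕ))) (LA_P p) = (p x : ℂ) := by
  classical
  unfold LA_P
  rw [coeff_sum, Finset.sum_eq_single x]
  · rw [coeff_monomial, if_pos rfl]
  · intro y _ hy
    rw [coeff_monomial, if_neg]
    intro h
    apply hy
    have := Finsupp.equivFunOnFinite.symm.injective h
    funext k
    exact Fin.ext (congrFun this k)
  · intro h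
    exact absurd (Finset.mem_univ _) h

theorem LA_P_ne {r K : ℕ} {p : (Fin r → Fin K) → ℤ} (hp : p ≠ 0) : LA_P p ≠ 0 := by
  obtain ⟨x, hx⟩ := Function.ne_iff.1 hp
  intro h
  have h1 := LA_P_coeff p x
  rw [h, coeff_zero] at h1
  refine hx ?_
  simpa using h1.symm

theorem LA_P_deg {r K : ℕ} (p : (Fin r → Fin K) → ℤ) (i : Fin r) : (LA_P p).degreeOf i ≤ K := by
  classical
  rw [degreeOf_le_iff]
  intro m hm
  have h1 := support_sum hm
  rw [Finset.mem_biUnion] at h1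
  obtain ⟨x, _, hx⟩ := h1
  have h2 := support_monomial_subset hx
  rw [Finset.mem_singleton] at h2
  rw [h2]
  simp

theorem LA_P_eval {r K : ℕ} (p : (Fin r → Fin K) → ℤ) (z : Fin r → ℂ) :
    eval z (LA_P p) = ∑ x, (p x : ℂ) * ∏ k, z k ^ (x k : ℕ) := by
  unfold LA_P
  rw [map_sum]
  refine Finset.sum_congr rfl fun x _ => ?_
  rw [eval_monomial, Finsupp.prod_fintype _ _ (fun i => pow_zero _)]
  simp

theorem LA_P_exp {r K : ℕ} (p : (Fin r → Fin K) → ℤ) (z : Fin r → ℂ) :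
    eval (fun k => Complex.exp (z k)) (LA_P p) =
      ∑ x, (p x : ℂ) * Complex.exp (∑ k, ((x k : ℕ) : ℂ) * z k) := by
  rw [LA_P_eval]
  refine Finset.sum_congr rfl fun x _ => ?_
  rw [Complex.exp_sum]
  congr 1
  refine Finset.prod_congr rfl fun k _ => ?_
  rw [Complex.exp_nat_mul]

/-- `exp` of the translated points. -/
theorem LA_pt {N' N r : ℕ} (w : Fin N → Fin r → ℂ) (t : Fin N' → Fin N → ℤ) (σ : Fin N' → ℕ) :
    mpt (fun _ => true) (fun j k => Complex.exp (∑ i, (t j i : ℂ) * w i k)) σ =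
      fun k => Complex.exp (∑ i, ((∑ j, (σ j : ℤ) * t j i : ℤ) : ℂ) * w i k) := by
  funext k
  simp only [mpt, if_true]
  have h : ∑ i, ((∑ j, (σ j : ℤ) * t j i : ℤ) : ℂ) * w i k =
      ∑ j, (σ j : ℂ) * ∑ i, (t j i : ℂ) * w i k := by
    push_cast
    simp only [Finset.sum_mul, Finset.mul_sum]
    rw [Finset.sum_comm]
    refine Finset.sum_congr rfl fun j _ => Finset.sum_congr rfl fun i _ => ?_
    ring
  rw [h, Complex.exp_sum]
  refine Finset.prod_congr rfl fun j _ => ?_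
  rw [Complex.exp_nat_mul]

theorem LA_cnt {N' N r : ℕ} (w : Fin N → Fin r → ℂ) (t : Fin N' → Fin N → ℤ) (q : Fin r → ℤ)
    (S : ℕ) :
    mcnt S (fun _ => true) (fun j k => Complex.exp (∑ i, (t j i : ℂ) * w i k)) q =
      Set.ncard {σ : Fin N' → ℤ | (∀ j, |σ j| ≤ (S : ℤ)) ∧
        Complex.exp (∑ j, (σ j : ℂ) * ∑ k, (q k : ℂ) * ∑ i, (t j i : ℂ) * w i k) = 1} := by
  unfold mcnt
  congr 1
  ext σ
  simp only [if_true, Set.mem_ofPred_eq]
  refine and_congr Iff.rfl ?_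
  have h : ∏ j, ∏ k, Complex.exp (∑ i, (t j i : ℂ) * w i k) ^ (σ j * q k) =
      Complex.exp (∑ j, (σ j : ℂ) * ∑ k, (q k : ℂ) * ∑ i, (t j i : ℂ) * w i k) := by
    rw [Complex.exp_sum]
    refine Finset.prod_congr rfl fun j _ => ?_
    rw [Finset.mul_sum, Complex.exp_sum]
    refine Finset.prod_congr rfl fun k _ => ?_
    rw [← Complex.exp_int_mul]
    congr 1
    push_cast
    ring
  rw [h]

theorem LA_lin {N' N r : ℕ} (w : Fin N → Fin r → ℂ) (ψ : Fin r → ℂ) (t : Fin N' → Fin N → ℤ)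
    (σ : Fin N' → ℕ) :
    ∑ k, ψ k * ∑ i, ((∑ j, (σ j : ℤ) * t j i : ℤ) : ℂ) * w i k =
      ∑ j, (σ j : ℂ) * ∑ k, ψ k * ∑ i, (t j i : ℂ) * w i k := by
  have h : ∀ k, ∑ i, ((∑ j, (σ j : ℤ) * t j i : ℤ) : ℂ) * w i k =
      ∑ j, (σ j : ℂ) * ∑ i, (t j i : ℂ) * w i k := by
    intro k
    push_cast
    simp only [Finset.sum_mul, Finset.mul_sum]
    rw [Finset.sum_comm]
    refine Finset.sum_congr rfl fun j _ => Finset.sum_congr rfl fun i _ => ?_
    ring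
  simp only [h, Finset.mul_sum]
  rw [Finset.sum_comm]
  refine Finset.sum_congr rfl fun j _ => Finset.sum_congr rfl fun k _ => ?_
  refine Finset.sum_congr rfl fun i _ => ?_
  ring

theorem pr_LA (h1 : S_LAc) (h2 : S_LAa) (h3 : S_LAl) (h4 : S_MZE) : S_LA := by
  intro r κ₀ hr
  obtain ⟨c, hc⟩ := h4 r
  refine ⟨κ₀ + 3 * r * c + 3, ?_⟩
  intro N w hLg hRob
  -- `n₀ ≤ N`
  have hnN : κ₀ + 3 * r * c + 3 ≤ N := by
    have h5 := hRob (Pi.single ⟨0, hr⟩ 1) (by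
      intro h
      have := congrFun h ⟨0, hr⟩
      simp at this)
    refine h5.trans ?_
    have h6 := finrank_range_le_card (R := ℚ) (fun i => ∑ k, ((Pi.single (⟨0, hr⟩ : Fin r) (1 : ℚ) :
      Fin r → ℚ) k : ℂ) * w i k)
    simpa [Set.finrank] using h6
  have hκN : κ₀ ≤ N := by omega
  refine ⟨hκN, ?_⟩
  obtain ⟨C, hC1, hC⟩ := h3 N r w hLg
  set A : ℝ := ∑ i, ∑ k, ‖w i k‖ with hA
  have hA0 : 0 ≤ A := Finset.sum_nonneg fun i _ => Finset.sum_nonneg fun k _ => norm_nonneg _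
  have hwA : ∀ k, ∑ i, ‖w i k‖ ≤ A := by
    intro k
    refine Finset.sum_le_sum fun i _ => ?_
    exact Finset.single_le_sum (f := fun k => ‖w i k‖) (fun k _ => norm_nonneg _)
      (Finset.mem_univ k)
  set R0 : ℝ := 1 + (N : ℝ) * 2 ^ r * A with hR0
  have hR01 : 1 ≤ R0 := by
    have : 0 ≤ (N : ℝ) * 2 ^ r * A := by positivity
    linarith
  obtain ⟨T1, hT1⟩ := h2 r R0 hr hR01
  obtain ⟨T2, hT2⟩ := exists_nat_gt (8 * C * ((N : ℝ) * 2 ^ r + 3))
  refine ⟨T1 + T2 + N * 2 ^ r + 2 ^ c * 3 ^ (N + 1) + 2, ?_⟩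
  intro T hT ψ hψ t hti htT hts
  have hTT1 : T1 ≤ T := by
    have : 0 ≤ N * 2 ^ r + 2 ^ c * 3 ^ (N + 1) := Nat.zero_le _
    omega
  have hTT2 : T2 ≤ T := by
    have : 0 ≤ N * 2 ^ r + 2 ^ c * 3 ^ (N + 1) := Nat.zero_le _
    omega
  have hTN : N * 2 ^ r + 1 ≤ T := by
    have : 0 ≤ 2 ^ c * 3 ^ (N + 1) := Nat.zero_le _
    omega
  have hT3 : 2 ^ c * 3 ^ (N + 1) + 2 ≤ T := by
    have : 0 ≤ N * 2 ^ r := Nat.zero_le _
    omega
  have hT0 : 1 ≤ T := by omega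
  have hTr : (1 : ℝ) ≤ T := by exact_mod_cast hT0
  -- maximal coordinate
  have : Nonempty (Fin r) := ⟨⟨0, hr⟩⟩
  obtain ⟨k0, hk0⟩ := Finite.exists_max fun k => ‖ψ k‖
  have hψ0 : 1 ≤ ‖ψ k0‖ := by
    obtain ⟨k, hk⟩ := hψ
    exact hk.trans (hk0 k)
  have hψne : ψ k0 ≠ 0 := by
    intro h
    rw [h, norm_zero] at hψ0
    linarith
  set χ : Fin r → ℂ := fun k => -ψ k / ψ k0 with hχ
  have hχ1 : ∀ k, ‖χ k‖ ≤ 1 := by
    intro k
    rw [hχ]
    simp only [norm_div, norm_neg]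
    exact div_le_one_of_le₀ (hk0 k) (norm_nonneg _)
  obtain ⟨p, hp0, hpb, hpz⟩ := hT1 T hTT1 k0 χ hχ1
  -- the sums vanish
  have hvan : ∀ σ : Fin (N - κ₀) → ℕ, (∀ j, σ j ≤ 2 ^ r * T) →
      eval (mpt (fun _ => true) (fun j k => Complex.exp (∑ i, (t j i : ℂ) * w i k)) σ)
        (LA_P p) = 0 := by
    intro σ hσ
    rw [LA_pt, LA_P_exp]
    set s : Fin N → ℤ := fun i => ∑ j, (σ j : ℤ) * t j i with hs
    have hsB : ∀ i, |s i| ≤ ((N * 2 ^ r * T ^ 2 : ℕ) : ℤ) := by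
      intro i
      calc |s i| ≤ ∑ j, |(σ j : ℤ) * t j i| := Finset.abs_sum_le_sum_abs _ _
        _ ≤ ∑ _j : Fin (N - κ₀), ((2 ^ r * T : ℕ) : ℤ) * (T : ℤ) := by
            refine Finset.sum_le_sum fun j _ => ?_
            rw [abs_mul, abs_of_nonneg (Int.natCast_nonneg (σ j))]
            refine mul_le_mul ?_ (htT j i) (abs_nonneg _) (Int.natCast_nonneg _)
            exact_mod_cast hσ j
        _ = (N - κ₀ : ℕ) * (((2 ^ r * T : ℕ) : ℤ) * (T : ℤ)) := by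
            rw [Finset.sum_const, Finset.card_univ, Fintype.card_fin, nsmul_eq_mul]
        _ ≤ (N : ℤ) * (((2 ^ r * T : ℕ) : ℤ) * (T : ℤ)) := by
            refine mul_le_mul_of_nonneg_right ?_ (by positivity)
            exact_mod_cast Nat.sub_le _ _
        _ = ((N * 2 ^ r * T ^ 2 : ℕ) : ℤ) := by
            push_cast
            ring
    by_contra hne
    have hlow := hC (T ^ (3 * r)) (T ^ (3 * r + 2)) (N * 2 ^ r * T ^ 2) p s hpb hsB hne
    have hz1 : ∀ k, ‖∑ i, (s i : ℂ) * w i k‖ ≤ R0 * (T : ℝ) ^ 2 := by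
      intro k
      calc ‖∑ i, (s i : ℂ) * w i k‖ ≤ ∑ i, ‖(s i : ℂ) * w i k‖ := norm_sum_le _ _
        _ ≤ ∑ i, ((N : ℝ) * 2 ^ r * (T : ℝ) ^ 2) * ‖w i k‖ := by
            refine Finset.sum_le_sum fun i _ => ?_
            rw [norm_mul]
            refine mul_le_mul_of_nonneg_right ?_ (norm_nonneg _)
            have h7 : ((|s i| : ℤ) : ℝ) ≤ ((N * 2 ^ r * T ^ 2 : ℕ) : ℝ) := by
              exact_mod_cast hsB i
            rw [Complex.norm_intCast]
            push_cast at h7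
            exact h7
        _ = ((N : ℝ) * 2 ^ r * (T : ℝ) ^ 2) * ∑ i, ‖w i k‖ := by rw [Finset.mul_sum]
        _ ≤ ((N : ℝ) * 2 ^ r * (T : ℝ) ^ 2) * A :=
            mul_le_mul_of_nonneg_left (hwA k) (by positivity)
        _ ≤ R0 * (T : ℝ) ^ 2 := by
            rw [hR0]
            nlinarith [sq_nonneg (T : ℝ)]
    have hz2 : ‖(∑ i, (s i : ℂ) * w i k0) - ∑ k ∈ Finset.univ.erase k0,
        χ k * ∑ i, (s i : ℂ) * w i k‖ ≤ Real.exp (-((T : ℝ) ^ (3 * r + 4))) := by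
      have h8 : (∑ i, (s i : ℂ) * w i k0) - ∑ k ∈ Finset.univ.erase k0,
          χ k * ∑ i, (s i : ℂ) * w i k =
            (∑ j, (σ j : ℂ) * ∑ k, ψ k * ∑ i, (t j i : ℂ) * w i k) / ψ k0 := by
        rw [← LA_lin w ψ t σ, ← Finset.add_sum_erase Finset.univ _ (Finset.mem_univ k0), add_div,
          Finset.sum_div, sub_eq_add_neg, ← Finset.sum_neg_distrib]
        refine congrArg₂ _ ?_ (Finset.sum_congr rfl fun k _ => ?_)
        · exact (mul_div_cancel_left₀ _ hψne).symm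
        · simp only [hχ, hs]
          ring
      rw [h8, norm_div]
      have h9 : ‖∑ j, (σ j : ℂ) * ∑ k, ψ k * ∑ i, (t j i : ℂ) * w i k‖ ≤
          ((N : ℝ) * 2 ^ r * T) * Real.exp (-((T : ℝ) ^ (3 * r + 5))) := by
        calc _ ≤ ∑ j, ‖(σ j : ℂ) * ∑ k, ψ k * ∑ i, (t j i : ℂ) * w i k‖ := norm_sum_le _ _
          _ ≤ ∑ _j : Fin (N - κ₀), ((2 : ℝ) ^ r * T) * Real.exp (-((T : ℝ) ^ (3 * r + 5))) := by
              refine Finset.sum_le_sum fun j _ => ?_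
              rw [norm_mul, Complex.norm_natCast]
              refine mul_le_mul ?_ (hts j) (norm_nonneg _) (by positivity)
              exact_mod_cast hσ j
          _ = ((N - κ₀ : ℕ) : ℝ) * (((2 : ℝ) ^ r * T) * Real.exp (-((T : ℝ) ^ (3 * r + 5)))) := by
              rw [Finset.sum_const, Finset.card_univ, Fintype.card_fin, nsmul_eq_mul]
          _ ≤ (N : ℝ) * (((2 : ℝ) ^ r * T) * Real.exp (-((T : ℝ) ^ (3 * r + 5)))) := by
              refine mul_le_mul_of_nonneg_right ?_ (by positivity)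
              exact_mod_cast Nat.sub_le _ _
          _ = _ := by ring
      have h10 : ((N : ℝ) * 2 ^ r * T) * Real.exp (-((T : ℝ) ^ (3 * r + 5))) ≤
          Real.exp (-((T : ℝ) ^ (3 * r + 4))) := by
        have h11 : (N : ℝ) * 2 ^ r * T ≤ (T : ℝ) ^ (3 * r + 5) - (T : ℝ) ^ (3 * r + 4) := by
          have h12 : (T : ℝ) ^ (3 * r + 5) - (T : ℝ) ^ (3 * r + 4) =
              (T : ℝ) ^ (3 * r + 4) * (T - 1) := by ring
          have h13 : (T : ℝ) ≤ (T : ℝ) ^ (3 * r + 4) := by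
            calc (T : ℝ) = (T : ℝ) ^ 1 := (pow_one _).symm
              _ ≤ _ := pow_le_pow_right₀ hTr (by omega)
          have h14 : (N : ℝ) * 2 ^ r ≤ (T : ℝ) - 1 := by
            have : ((N * 2 ^ r + 1 : ℕ) : ℝ) ≤ (T : ℝ) := by exact_mod_cast hTN
            push_cast at this
            linarith
          rw [h12, mul_comm]
          refine mul_le_mul h13 h14 (by positivity) (by positivity)
        calc _ ≤ Real.exp ((N : ℝ) * 2 ^ r * T) * Real.exp (-((T : ℝ) ^ (3 * r + 5))) := by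
              refine mul_le_mul_of_nonneg_right ?_ (Real.exp_pos _).le
              linarith [Real.add_one_le_exp ((N : ℝ) * 2 ^ r * T)]
          _ = Real.exp ((N : ℝ) * 2 ^ r * T - (T : ℝ) ^ (3 * r + 5)) := by
              rw [← Real.exp_add]
              ring_nf
          _ ≤ _ := Real.exp_le_exp.2 (by linarith)
      calc _ ≤ ‖∑ j, (σ j : ℂ) * ∑ k, ψ k * ∑ i, (t j i : ℂ) * w i k‖ / 1 :=
            div_le_div_of_nonneg_left (norm_nonneg _) one_pos hψ0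
        _ ≤ _ := by rw [div_one]; exact h9.trans h10
    have hup := hpz (fun k => ∑ i, (s i : ℂ) * w i k) hz1 hz2
    have hfin := Real.exp_le_exp.1 (hlow.trans hup)
    have hP : (0 : ℝ) < (T : ℝ) ^ (3 * r + 2) := by positivity
    have hT2' : 8 * C * ((N : ℝ) * 2 ^ r + 3) < T := hT2.trans_le (by exact_mod_cast hTT2)
    have h15 : (((T ^ (3 * r) : ℕ) : ℝ) * ((N * 2 ^ r * T ^ 2 : ℕ) : ℝ) +
        ((T ^ (3 * r + 2) : ℕ) : ℝ) + ((T ^ (3 * r) : ℕ) : ℝ) + 1) ≤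
          ((N : ℝ) * 2 ^ r + 3) * (T : ℝ) ^ (3 * r + 2) := by
      push_cast
      have h16 : (T : ℝ) ^ (3 * r) ≤ (T : ℝ) ^ (3 * r + 2) := pow_le_pow_right₀ hTr (by omega)
      have h17 : (1 : ℝ) ≤ (T : ℝ) ^ (3 * r + 2) := one_le_pow₀ hTr
      have h18 : (T : ℝ) ^ (3 * r) * ((N : ℝ) * 2 ^ r * (T : ℝ) ^ 2) =
          ((N : ℝ) * 2 ^ r) * (T : ℝ) ^ (3 * r + 2) := by ring
      rw [h18]
      linarith
    have h19 : (T : ℝ) ^ (3 * r + 3) = T * (T : ℝ) ^ (3 * r + 2) := by ring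
    rw [h19] at hfin
    have h20 := mul_le_mul_of_nonneg_left h15 (by linarith : (0 : ℝ) ≤ C)
    have h21 := mul_lt_mul_of_pos_right hT2' hP
    linarith
  -- zero estimate
  rcases hc (N - κ₀) T (T ^ (3 * r)) (fun _ => true)
    (fun j k => Complex.exp (∑ i, (t j i : ℂ) * w i k)) (LA_P p)
    (fun _ _ _ => Complex.exp_ne_zero _) (LA_P_ne hp0) (Nat.one_le_pow _ _ hT0)
    (LA_P_deg p) hvan with h | h
  · obtain ⟨q, hq0, _, _, hq⟩ := h
    rw [LA_cnt] at hq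
    have h22 := h1 r N κ₀ (κ₀ + 3 * r * c + 3) T w q t hκN hRob hq0 hti (by omega)
    have h23 := hq.trans (Nat.mul_le_mul_left _ h22)
    -- contradiction
    obtain ⟨a, ha⟩ := Nat.exists_eq_add_of_le hnN
    have e1 : N - κ₀ = 3 * r * c + 2 + (a + 1) := by omega
    have e2 : N + 1 - (κ₀ + 3 * r * c + 3) = a + 1 := by omega
    rw [e1, e2] at h23
    have h24 : (2 * T + 1) ^ (a + 1) ≤ 3 ^ (a + 1) * T ^ (a + 1) := by
      rw [← mul_pow]
      exact Nat.pow_le_pow_left (by omega) _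
    have h25 : T ^ (3 * r * c + 2 + (a + 1)) ≤ (T + 1) ^ (3 * r * c + 2 + (a + 1)) :=
      Nat.pow_le_pow_left (by omega) _
    have h26 : (2 * T ^ (3 * r)) ^ c = 2 ^ c * T ^ (3 * r * c) := by
      rw [mul_pow, ← pow_mul]
    rw [h26] at h23
    have h27 : T ^ (3 * r * c + 2 + (a + 1)) ≤
        2 ^ c * T ^ (3 * r * c) * (3 ^ (a + 1) * T ^ (a + 1)) :=
      h25.trans (h23.trans (Nat.mul_le_mul_left _ h24))
    have h28 : T ^ (3 * r * c + 2 + (a + 1)) = (T ^ (3 * r * c) * T ^ (a + 1)) * T ^ 2 := by ring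
    have h29 : 2 ^ c * T ^ (3 * r * c) * (3 ^ (a + 1) * T ^ (a + 1)) =
        (T ^ (3 * r * c) * T ^ (a + 1)) * (2 ^ c * 3 ^ (a + 1)) := by ring
    rw [h28, h29] at h27
    have h30 := Nat.le_of_mul_le_mul_left h27 (by positivity)
    have h31 : 2 ^ c * 3 ^ (a + 1) ≤ 2 ^ c * 3 ^ (N + 1) :=
      Nat.mul_le_mul_left _ (Nat.pow_le_pow_right (by norm_num) (by omega))
    have h32 : T ≤ T ^ 2 := by nlinarith
    omega
  · obtain ⟨c', hc0, hc1, _⟩ := h
    exact hc0 (funext fun k => hc1 k rfl)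

end Pool.Agent.Work.MP_327059_nt.FR
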