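import Mathlib
import Pool.Agent.Work.MP_327059_nt.FR.Stmts2
import Pool.Agent.Work.MP_327059_nt.Bd.B11

set_option autoImplicit false

namespace Pool.Agent.Work.MP_327059_nt.FR

open Finset Pool.Agent.Work.MP_327059_nt.GL

/-- first estimate -/
theorem LAa_est (r G : ℕ) (hG : G ≤ r) (R0 : ℝ) (hR0 : 1 ≤ R0) (T : ℕ) (hT1 : 1 ≤ T)
    (hTC : 4 * ((4 + (r : ℝ) * 4 ^ r) + (3 * r + 3) * r + 3 * r * r + 1 + 4 * R0 * r) ≤ T) :
    (4 * ((T ^ (3 * r + 3) : ℕ) : ℝ) ^ G + G * 4 ^ G) *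
      (((T ^ (3 * r)) ^ r : ℕ) * 2 ^ (T ^ (3 * r + 2)) *
        Real.exp (4 * R0 * (T : ℝ) ^ (3 * r + 2)) ^ G) / 2 ^ (T ^ (3 * r + 3)) ≤
      Real.exp (-((T : ℝ) ^ (3 * r + 3) / 4)) := by
  set t : ℝ := (T : ℝ) with ht
  have ht1 : (1 : ℝ) ≤ t := by rw [ht]; exact_mod_cast hT1
  have ht0 : (0 : ℝ) ≤ t := by linarith
  set X : ℝ := t ^ (3 * r + 2) with hX
  have hX1 : 1 ≤ X := one_le_pow₀ ht1
  have hX0 : 0 ≤ X := by linarith
  have htX : t ≤ X := le_self_pow₀ ht1 (by omega)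
  have hr0 : (0 : ℝ) ≤ r := Nat.cast_nonneg r
  have hGr : (G : ℝ) ≤ r := by exact_mod_cast hG
  have hG0 : (0 : ℝ) ≤ G := Nat.cast_nonneg G
  set C1 : ℝ := 4 + (r : ℝ) * 4 ^ r with hC1
  have hC10 : 0 ≤ C1 := by positivity
  have hb : 4 * ((T ^ (3 * r + 3) : ℕ) : ℝ) ^ G + G * 4 ^ G ≤
      Real.exp (C1 * X + (3 * r + 3) * r * X) := by
    have e1 : ((T ^ (3 * r + 3) : ℕ) : ℝ) ^ G ≤ Real.exp ((3 * r + 3) * r * X) := by
      push_cast
      rw [← pow_mul]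
      refine (Psi_pow_le t ht0 ((3 * r + 3) * G)).trans (Real.exp_le_exp.2 ?_)
      push_cast
      have a1 : ((3 : ℝ) * r + 3) * G ≤ (3 * r + 3) * r :=
        mul_le_mul_of_nonneg_left hGr (by positivity)
      exact mul_le_mul a1 htX ht0 (by positivity)
    have e2 : (1 : ℝ) ≤ Real.exp ((3 * r + 3) * r * X) := Real.one_le_exp (by positivity)
    have e3 : C1 ≤ Real.exp (C1 * X) := by
      have : C1 ≤ C1 * X := le_mul_of_one_le_right hC10 hX1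
      linarith [Real.add_one_le_exp (C1 * X)]
    have e5 : (G : ℝ) * 4 ^ G ≤ r * 4 ^ r :=
      mul_le_mul hGr (pow_le_pow_right₀ (by norm_num) hG) (by positivity) hr0
    calc 4 * ((T ^ (3 * r + 3) : ℕ) : ℝ) ^ G + G * 4 ^ G
        ≤ 4 * Real.exp ((3 * r + 3) * r * X) + (r * 4 ^ r) * Real.exp ((3 * r + 3) * r * X) := by
          have e4 : (r : ℝ) * 4 ^ r ≤ (r * 4 ^ r) * Real.exp ((3 * r + 3) * r * X) :=
            le_mul_of_one_le_right (by positivity) e2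
          linarith
      _ = C1 * Real.exp ((3 * r + 3) * r * X) := by rw [hC1]; ring
      _ ≤ Real.exp (C1 * X) * Real.exp ((3 * r + 3) * r * X) :=
          mul_le_mul_of_nonneg_right e3 (Real.exp_pos _).le
      _ = Real.exp (C1 * X + (3 * r + 3) * r * X) := (Real.exp_add _ _).symm
  have hc : (((T ^ (3 * r)) ^ r : ℕ) : ℝ) ≤ Real.exp (3 * r * r * X) := by
    push_cast
    rw [← pow_mul]
    refine (Psi_pow_le t ht0 _).trans (Real.exp_le_exp.2 ?_)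
    push_cast
    exact mul_le_mul_of_nonneg_left htX (by positivity)
  have hd : (2 : ℝ) ^ (T ^ (3 * r + 2)) ≤ Real.exp X := by
    refine (Psi_two_le _).trans (Real.exp_le_exp.2 ?_)
    push_cast
    exact le_refl _
  have hg : Real.exp (4 * R0 * X) ^ G ≤ Real.exp (4 * R0 * r * X) := by
    rw [← Real.exp_nat_mul]
    refine Real.exp_le_exp.2 ?_
    have : (G : ℝ) * (4 * R0 * X) ≤ r * (4 * R0 * X) :=
      mul_le_mul_of_nonneg_right hGr (by positivity)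
    linarith
  have hh := Psi_le_two (T ^ (3 * r + 3))
  have hhp : (0 : ℝ) < 2 ^ (T ^ (3 * r + 3)) := by positivity
  rw [div_le_iff₀ hhp]
  have n2 : (0 : ℝ) ≤ 2 ^ (T ^ (3 * r + 2)) := by positivity
  calc (4 * ((T ^ (3 * r + 3) : ℕ) : ℝ) ^ G + G * 4 ^ G) *
      (((T ^ (3 * r)) ^ r : ℕ) * 2 ^ (T ^ (3 * r + 2)) * Real.exp (4 * R0 * X) ^ G)
      ≤ Real.exp (C1 * X + (3 * r + 3) * r * X) *
        (Real.exp (3 * r * r * X) * Real.exp X * Real.exp (4 * R0 * r * X)) := by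
        refine mul_le_mul hb ?_ (by positivity) (Real.exp_pos _).le
        refine mul_le_mul ?_ hg (by positivity) (by positivity)
        exact mul_le_mul hc hd n2 (Real.exp_pos _).le
    _ = Real.exp ((C1 + (3 * r + 3) * r + 3 * r * r + 1 + 4 * R0 * r) * X) := by
        rw [← Real.exp_add, ← Real.exp_add, ← Real.exp_add]
        congr 1
        ring
    _ ≤ Real.exp (t ^ (3 * r + 3) / 4) := by
        refine Real.exp_le_exp.2 ?_
        have e1 : t * X = t ^ (3 * r + 3) := by rw [hX]; ring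
        have e2 := mul_le_mul_of_nonneg_right hTC hX0
        rw [← e1]
        linarith
    _ = Real.exp (-(t ^ (3 * r + 3) / 4)) * Real.exp (t ^ (3 * r + 3) / 2) := by
        rw [← Real.exp_add]
        congr 1
        ring
    _ ≤ Real.exp (-(t ^ (3 * r + 3) / 4)) * 2 ^ (T ^ (3 * r + 3)) := by
        refine mul_le_mul_of_nonneg_left ?_ (Real.exp_pos _).le
        refine le_trans (le_of_eq ?_) hh
        push_cast
        rfl

/-- second estimate -/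
theorem LAa_est2 (r : ℕ) (R0 : ℝ) (hR0 : 1 ≤ R0) (T : ℕ) (hT1 : 1 ≤ T)
    (hTC : 4 * (3 * (r : ℝ) * r + 1 + r * R0 + 2 + 3 * r) ≤ T) :
    (((T ^ (3 * r)) ^ r : ℕ) : ℝ) * (2 ^ (T ^ (3 * r + 2)) *
      (Real.exp (r * ((T : ℝ) ^ (3 * r) * (R0 * T ^ 2))) *
        (2 * ((T : ℝ) ^ (3 * r) * Real.exp (-((T : ℝ) ^ (3 * r + 4))))))) ≤
      Real.exp (-((T : ℝ) ^ (3 * r + 3) / 4)) := by
  set t : ℝ := (T : ℝ) with ht
  have ht1 : (1 : ℝ) ≤ t := by rw [ht]; exact_mod_cast hT1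
  have ht0 : (0 : ℝ) ≤ t := by linarith
  set X : ℝ := t ^ (3 * r + 2) with hX
  have hX1 : 1 ≤ X := one_le_pow₀ ht1
  have hX0 : 0 ≤ X := by linarith
  have htX : t ≤ X := le_self_pow₀ ht1 (by omega)
  have hr0 : (0 : ℝ) ≤ r := Nat.cast_nonneg r
  have hc : (((T ^ (3 * r)) ^ r : ℕ) : ℝ) ≤ Real.exp (3 * r * r * X) := by
    push_cast
    rw [← pow_mul]
    refine (Psi_pow_le t ht0 _).trans (Real.exp_le_exp.2 ?_)
    push_cast
    exact mul_le_mul_of_nonneg_left htX (by positivity)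
  have hd : (2 : ℝ) ^ (T ^ (3 * r + 2)) ≤ Real.exp X := by
    refine (Psi_two_le _).trans (Real.exp_le_exp.2 ?_)
    push_cast
    exact le_refl _
  have he : Real.exp (r * (t ^ (3 * r) * (R0 * t ^ 2))) = Real.exp (r * R0 * X) := by
    congr 1
    rw [hX, pow_add]
    ring
  have h2 : (2 : ℝ) ≤ Real.exp (2 * X) := by
    linarith [Real.add_one_le_exp (2 * X)]
  have hf : t ^ (3 * r) ≤ Real.exp (3 * r * X) := by
    refine (Psi_pow_le t ht0 _).trans (Real.exp_le_exp.2 ?_)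
    push_cast
    exact mul_le_mul_of_nonneg_left htX (by positivity)
  calc (((T ^ (3 * r)) ^ r : ℕ) : ℝ) * (2 ^ (T ^ (3 * r + 2)) *
      (Real.exp (r * (t ^ (3 * r) * (R0 * t ^ 2))) *
        (2 * (t ^ (3 * r) * Real.exp (-(t ^ (3 * r + 4)))))))
      ≤ Real.exp (3 * r * r * X) * (Real.exp X * (Real.exp (r * R0 * X) *
        (Real.exp (2 * X) * (Real.exp (3 * r * X) * Real.exp (-(t ^ (3 * r + 4))))))) := by
        rw [he]
        gcongr
    _ = Real.exp ((3 * r * r + 1 + r * R0 + 2 + 3 * r) * X - t ^ (3 * r + 4)) := by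
        rw [← Real.exp_add, ← Real.exp_add, ← Real.exp_add, ← Real.exp_add, ← Real.exp_add]
        congr 1
        ring
    _ ≤ Real.exp (-(t ^ (3 * r + 3) / 4)) := by
        refine Real.exp_le_exp.2 ?_
        have e1 : t ^ (3 * r + 3) = t * X := by rw [hX]; ring
        have e2 : t ^ (3 * r + 4) = t * (t * X) := by rw [hX]; ring
        have e3 := mul_le_mul_of_nonneg_right hTC hX0
        have e4 : t * X ≤ t * (t * X) := le_mul_of_one_le_left (by positivity) ht1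
        have e5 : 0 ≤ t * X := by positivity
        rw [e1, e2]
        linarith

theorem pr_LAa (h1 : S_PLg) (h2 : S_Tay) : S_LAa := by
  classical
  intro r R0 hr hR0
  obtain ⟨T₀, hT₀⟩ := exists_nat_ge
    (4 * ((4 + (r : ℝ) * 4 ^ r) + (3 * r + 3) * r + 3 * r * r + 1 + 4 * R0 * r) +
      4 * (3 * (r : ℝ) * r + 1 + r * R0 + 2 + 3 * r))
  refine ⟨T₀ + 8, fun T hT k0 χ hχ => ?_⟩
  have hT8 : 8 ≤ T := by omega
  have hT1 : 1 ≤ T := by omega
  have hTr : (1 : ℝ) ≤ T := by exact_mod_cast hT1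
  have hT8r : (8 : ℝ) ≤ T := by exact_mod_cast hT8
  have hT0 : (0 : ℝ) ≤ T := by linarith
  have hTT : (T₀ : ℝ) ≤ T := by exact_mod_cast (by omega : T₀ ≤ T)
  have hr0 : (0 : ℝ) ≤ r := Nat.cast_nonneg r
  have hTC1 : 4 * ((4 + (r : ℝ) * 4 ^ r) + (3 * r + 3) * r + 3 * r * r + 1 + 4 * R0 * r) ≤ T := by
    have : 0 ≤ 4 * (3 * (r : ℝ) * r + 1 + r * R0 + 2 + 3 * r) := by positivity
    linarith
  have hTC2 : 4 * (3 * (r : ℝ) * r + 1 + r * R0 + 2 + 3 * r) ≤ T := by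
    have : 0 ≤ 4 * ((4 + (r : ℝ) * 4 ^ r) + (3 * r + 3) * r + 3 * r * r + 1 + 4 * R0 * r) := by
      positivity
    linarith
  have hR1 : 1 ≤ R0 * (T : ℝ) ^ 2 :=
    one_le_mul_of_one_le_of_one_le hR0 (one_le_pow₀ hTr)
  have hxb : ∀ (x : Fin r → Fin (T ^ (3 * r))) (k : Fin r),
      (((x k : ℕ) : ℝ)) ≤ (T : ℝ) ^ (3 * r) := by
    intro x k
    have := (x k).2.le
    exact_mod_cast this
  have hβ : ∀ (x : Fin r → Fin (T ^ (3 * r))) (k : {k : Fin r // k ≠ k0}),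
      ‖((x k : ℕ) : ℂ) + ((x k0 : ℕ) : ℂ) * χ k‖ ≤ 2 * (T : ℝ) ^ (3 * r) := by
    intro x k
    refine (norm_add_le _ _).trans ?_
    rw [norm_mul, Complex.norm_natCast, Complex.norm_natCast]
    have a1 := hxb x k
    have a2 := hxb x k0
    have a3 : ((x k0 : ℕ) : ℝ) * ‖χ k‖ ≤ ((x k0 : ℕ) : ℝ) * 1 :=
      mul_le_mul_of_nonneg_left (hχ k) (Nat.cast_nonneg _)
    linarith
  choose c hc1 hc2 using fun (x : Fin r → Fin (T ^ (3 * r))) (k : {k : Fin r // k ≠ k0}) =>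
    h2 0 0 (((x k : ℕ) : ℂ) + ((x k0 : ℕ) : ℂ) * χ k) (R0 * (T : ℝ) ^ 2)
      (2 * (T : ℝ) ^ (3 * r)) hR1 le_rfl (hβ x k)
  have hA : (2 * (R0 * (T : ℝ) ^ 2)) ^ 0 * Real.exp (2 * (R0 * (T : ℝ) ^ 2) *
      (2 * (T : ℝ) ^ (3 * r))) = Real.exp (4 * R0 * (T : ℝ) ^ (3 * r + 2)) := by
    rw [pow_zero, one_mul]
    congr 1
    rw [pow_add]
    ring
  rw [hA] at hc2
  have hcι : Fintype.card {k : Fin r // k ≠ k0} + 1 = r := by
    have h3 : Fintype.card {k : Fin r // k ≠ k0} = Fintype.card (Fin r) - 1 := by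
      simp
    rw [h3, Fintype.card_fin]
    omega
  have hcardN : Fintype.card (Fin r → Fin (T ^ (3 * r))) = (T ^ (3 * r)) ^ r := by
    simp
  have hcount : 4 * (T ^ (3 * r + 3)) ^ (Fintype.card {k : Fin r // k ≠ k0} + 1) ≤
      T ^ (3 * r + 2) * Fintype.card (Fin r → Fin (T ^ (3 * r))) := by
    rw [hcι, hcardN, ← pow_mul, ← pow_mul, ← pow_add]
    have e1 : 3 * r + 2 + 3 * r * r = (3 * r + 3) * r + 2 := by ring
    rw [e1, pow_add _ _ 2, mul_comm]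
    refine Nat.mul_le_mul_left _ ?_
    nlinarith
  obtain ⟨p, hp0, hp, hz⟩ := h1 (Fin r → Fin (T ^ (3 * r))) {k : Fin r // k ≠ k0}
    (T ^ (3 * r + 3)) (T ^ (3 * r + 2)) c (R0 * (T : ℝ) ^ 2)
    (Real.exp (4 * R0 * (T : ℝ) ^ (3 * r + 2))) (by linarith)
    (Real.one_le_exp (by positivity)) (Nat.one_le_pow _ _ hT1) hc2 hcount
  refine ⟨p, hp0, hp, fun z hz1 hz2 => ?_⟩
  set δ : ℂ := z k0 - ∑ k ∈ Finset.univ.erase k0, χ k * z k with hδ
  -- the function F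
  have hF := hz (fun k => z k) (fun k => hz1 k)
  have hF2 : ∀ x : Fin r → Fin (T ^ (3 * r)),
      ∏ k : {k : Fin r // k ≠ k0}, ∑' n, c x k n * z k ^ n =
        Complex.exp (∑ k, ((x k : ℕ) : ℂ) * z k - ((x k0 : ℕ) : ℂ) * δ) := by
    intro x
    have e1 : ∀ k : {k : Fin r // k ≠ k0}, ∑' n, c x k n * z k ^ n =
        Complex.exp ((((x k : ℕ) : ℂ) + ((x k0 : ℕ) : ℂ) * χ k) * z k) := by
      intro k
      have := (hc1 x k (z k)).tsum_eq
      rw [this, pow_zero, one_mul]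
    simp only [e1]
    rw [← Complex.exp_sum]
    congr 1
    have e2 : ∑ k : {k : Fin r // k ≠ k0}, (((x k : ℕ) : ℂ) + ((x k0 : ℕ) : ℂ) * χ k) * z k =
        ∑ k ∈ Finset.univ.erase k0, (((x k : ℕ) : ℂ) + ((x k0 : ℕ) : ℂ) * χ k) * z k := by
      symm
      refine Finset.sum_subtype (Finset.univ.erase k0) (p := fun k => k ≠ k0) ?_
        (fun k => (((x k : ℕ) : ℂ) + ((x k0 : ℕ) : ℂ) * χ k) * z k)
      intro k
      simp
    rw [e2, ← Finset.add_sum_erase Finset.univ (fun k => ((x k : ℕ) : ℂ) * z k)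
      (Finset.mem_univ k0), hδ, mul_sub, Finset.mul_sum]
    have e3 : ∀ k, (((x k : ℕ) : ℂ) + ((x k0 : ℕ) : ℂ) * χ k) * z k =
        ((x k : ℕ) : ℂ) * z k + ((x k0 : ℕ) : ℂ) * (χ k * z k) := by
      intro k
      ring
    simp only [e3]
    rw [Finset.sum_add_distrib]
    ring
  simp only [hF2] at hF
  rw [hcardN] at hF
  have hF3 := hF.trans (LAa_est r (Fintype.card {k : Fin r // k ≠ k0}) (by omega) R0 hR0 T hT1
    hTC1)
  -- the difference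
  have hδ1 : ‖δ‖ ≤ Real.exp (-((T : ℝ) ^ (3 * r + 4))) := hz2
  have hsmall : (T : ℝ) ^ (3 * r) * Real.exp (-((T : ℝ) ^ (3 * r + 4))) ≤ 1 := by
    have a1 : (T : ℝ) ^ (3 * r) ≤ (T : ℝ) ^ (3 * r + 4) :=
      pow_le_pow_right₀ hTr (by omega)
    have a2 : (T : ℝ) ^ (3 * r + 4) ≤ Real.exp ((T : ℝ) ^ (3 * r + 4)) := by
      linarith [Real.add_one_le_exp ((T : ℝ) ^ (3 * r + 4))]
    calc (T : ℝ) ^ (3 * r) * Real.exp (-((T : ℝ) ^ (3 * r + 4)))
        ≤ Real.exp ((T : ℝ) ^ (3 * r + 4)) * Real.exp (-((T : ℝ) ^ (3 * r + 4))) :=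
          mul_le_mul_of_nonneg_right (a1.trans a2) (Real.exp_pos _).le
      _ = 1 := by rw [← Real.exp_add, add_neg_cancel, Real.exp_zero]
  have hdiff : ∀ x : Fin r → Fin (T ^ (3 * r)),
      ‖Complex.exp (∑ k, ((x k : ℕ) : ℂ) * z k) -
        Complex.exp (∑ k, ((x k : ℕ) : ℂ) * z k - ((x k0 : ℕ) : ℂ) * δ)‖ ≤
      Real.exp (r * ((T : ℝ) ^ (3 * r) * (R0 * T ^ 2))) *
        (2 * ((T : ℝ) ^ (3 * r) * Real.exp (-((T : ℝ) ^ (3 * r + 4))))) := by
    intro x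
    have b1 : ‖((x k0 : ℕ) : ℂ) * δ‖ ≤
        (T : ℝ) ^ (3 * r) * Real.exp (-((T : ℝ) ^ (3 * r + 4))) := by
      rw [norm_mul, Complex.norm_natCast]
      exact mul_le_mul (hxb x k0) hδ1 (norm_nonneg _) (by positivity)
    have b2 : ‖-(((x k0 : ℕ) : ℂ) * δ)‖ ≤ 1 := by
      rw [norm_neg]
      exact b1.trans hsmall
    have b3 := Complex.norm_exp_sub_one_le b2
    rw [norm_neg] at b3
    have b4 : Complex.exp (∑ k, ((x k : ℕ) : ℂ) * z k) -
        Complex.exp (∑ k, ((x k : ℕ) : ℂ) * z k - ((x k0 : ℕ) : ℂ) * δ) =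
        -(Complex.exp (∑ k, ((x k : ℕ) : ℂ) * z k) *
          (Complex.exp (-(((x k0 : ℕ) : ℂ) * δ)) - 1)) := by
      rw [sub_eq_add_neg (∑ k, ((x k : ℕ) : ℂ) * z k), Complex.exp_add]
      ring
    rw [b4, norm_neg, norm_mul]
    have b5 : ‖Complex.exp (∑ k, ((x k : ℕ) : ℂ) * z k)‖ ≤
        Real.exp (r * ((T : ℝ) ^ (3 * r) * (R0 * T ^ 2))) := by
      rw [Complex.norm_exp]
      refine Real.exp_le_exp.2 ?_
      refine (Complex.re_le_norm _).trans ?_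
      refine (norm_sum_le _ _).trans ?_
      calc ∑ k, ‖((x k : ℕ) : ℂ) * z k‖ ≤ ∑ _k : Fin r, (T : ℝ) ^ (3 * r) * (R0 * T ^ 2) := by
            refine Finset.sum_le_sum fun k _ => ?_
            rw [norm_mul, Complex.norm_natCast]
            exact mul_le_mul (hxb x k) (hz1 k) (norm_nonneg _) (by positivity)
        _ = r * ((T : ℝ) ^ (3 * r) * (R0 * T ^ 2)) := by
            rw [Finset.sum_const, Finset.card_univ, Fintype.card_fin, nsmul_eq_mul]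
    refine mul_le_mul b5 ?_ (norm_nonneg _) (Real.exp_pos _).le
    linarith
  have hD : ‖∑ x, (p x : ℂ) * (Complex.exp (∑ k, ((x k : ℕ) : ℂ) * z k) -
        Complex.exp (∑ k, ((x k : ℕ) : ℂ) * z k - ((x k0 : ℕ) : ℂ) * δ))‖ ≤
      Real.exp (-((T : ℝ) ^ (3 * r + 3) / 4)) := by
    refine le_trans ?_ (LAa_est2 r R0 hR0 T hT1 hTC2)
    refine (norm_sum_le _ _).trans ?_
    calc ∑ x, ‖(p x : ℂ) * (Complex.exp (∑ k, ((x k : ℕ) : ℂ) * z k) -
        Complex.exp (∑ k, ((x k : ℕ) : ℂ) * z k - ((x k0 : ℕ) : ℂ) * δ))‖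
        ≤ ∑ _x : Fin r → Fin (T ^ (3 * r)), (2 : ℝ) ^ (T ^ (3 * r + 2)) *
          (Real.exp (r * ((T : ℝ) ^ (3 * r) * (R0 * T ^ 2))) *
            (2 * ((T : ℝ) ^ (3 * r) * Real.exp (-((T : ℝ) ^ (3 * r + 4)))))) := by
          refine Finset.sum_le_sum fun x _ => ?_
          rw [norm_mul, Complex.norm_intCast]
          refine mul_le_mul ?_ (hdiff x) (norm_nonneg _) (by positivity)
          have := hp x
          exact_mod_cast this
      _ = _ := by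
          rw [Finset.sum_const, Finset.card_univ, hcardN, nsmul_eq_mul]
  have hsplit : ∑ x, (p x : ℂ) * Complex.exp (∑ k, ((x k : ℕ) : ℂ) * z k) =
      ∑ x, (p x : ℂ) * (Complex.exp (∑ k, ((x k : ℕ) : ℂ) * z k) -
        Complex.exp (∑ k, ((x k : ℕ) : ℂ) * z k - ((x k0 : ℕ) : ℂ) * δ)) +
      ∑ x, (p x : ℂ) * Complex.exp (∑ k, ((x k : ℕ) : ℂ) * z k - ((x k0 : ℕ) : ℂ) * δ) := by
    rw [← Finset.sum_add_distrib]
    refine Finset.sum_congr rfl fun x _ => ?_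
    ring
  rw [hsplit]
  refine (norm_add_le _ _).trans ?_
  refine (add_le_add hD hF3).trans ?_
  have c1 : (8 : ℝ) ≤ (T : ℝ) ^ (3 * r + 3) := by
    refine hT8r.trans (le_self_pow₀ hTr (by omega))
  have c2 : (2 : ℝ) ≤ Real.exp ((T : ℝ) ^ (3 * r + 3) / 8) := by
    have := Real.add_one_le_exp ((T : ℝ) ^ (3 * r + 3) / 8)
    linarith
  have c3 : Real.exp (-((T : ℝ) ^ (3 * r + 3) / 4)) * 2 ≤
      Real.exp (-((T : ℝ) ^ (3 * r + 3) / 4)) * Real.exp ((T : ℝ) ^ (3 * r + 3) / 8) :=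
    mul_le_mul_of_nonneg_left c2 (Real.exp_pos _).le
  rw [← Real.exp_add] at c3
  have c4 : -((T : ℝ) ^ (3 * r + 3) / 4) + (T : ℝ) ^ (3 * r + 3) / 8 =
      -((T : ℝ) ^ (3 * r + 3) / 8) := by ring
  rw [c4] at c3
  linarith

end Pool.Agent.Work.MP_327059_nt.FR
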