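import Mathlib
import Pool.Agent.Work.MP_327059_nt.FR.Stmts2

/-!
# PROJECT FR: item LAc (linear algebra and a count)
-/

set_option autoImplicit false

namespace Pool.Agent.Work.MP_327059_nt.FR

open Pool.Agent.Work.MP_327059_nt.GL

/-- The preimage of a line has dimension at most that of the kernel plus one. -/
theorem LAc_comap {n : ℕ} (f : (Fin n → ℚ) →ₗ[ℚ] ℂ) (z : ℂ) :
    Module.finrank ℚ ((Submodule.span ℚ {z}).comap f) ≤
      Module.finrank ℚ (LinearMap.ker f) + 1 := by
  set V := (Submodule.span ℚ {z}).comap f with hV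
  have h1 := LinearMap.finrank_range_add_finrank_ker (f.domRestrict V)
  have h2 : Module.finrank ℚ (LinearMap.range (f.domRestrict V)) ≤ 1 := by
    have h3 : LinearMap.range (f.domRestrict V) ≤ Submodule.span ℚ {z} := by
      rintro _ ⟨x, rfl⟩
      exact x.2
    exact (Submodule.finrank_mono h3).trans ((finrank_span_le_card ({z} : Set ℂ)).trans (by simp))
  have h4 : Module.finrank ℚ (LinearMap.ker (f.domRestrict V)) ≤
      Module.finrank ℚ (LinearMap.ker f) := by
    rw [← Submodule.finrank_map_subtype_eq V (LinearMap.ker (f.domRestrict V))]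
    apply Submodule.finrank_mono
    rintro _ ⟨x, hx, rfl⟩
    simpa using hx
  omega

theorem pr_LAc (h : GL.S_RankBox) : S_LAc := by
  intro r N κ₀ n₀ S w q t hκ hRob hq ht hn
  set u : Fin N → ℂ := fun i => ∑ k, (q k : ℂ) * w i k with hu
  set L : (Fin N → ℚ) →ₗ[ℚ] ℂ := Fintype.linearCombination ℚ u with hL
  set Tm : (Fin (N - κ₀) → ℚ) →ₗ[ℚ] (Fin N → ℚ) :=
    Fintype.linearCombination ℚ (fun j => (fun i => (t j i : ℚ))) with hTm
  have hinj : Function.Injective Tm :=
    linearIndependent_iff_injective_fintypeLinearCombination.1 ht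
  -- rank of `L`
  have hrank : n₀ ≤ Module.finrank ℚ (LinearMap.range L) := by
    have h1 := hRob (fun k => (q k : ℚ)) (by
      intro h0
      apply hq
      funext k
      have := congrFun h0 k
      simpa using this)
    have hu' : u = fun i => ∑ k, ((q k : ℚ) : ℂ) * w i k := by
      funext i
      simp [hu]
    rw [hL, Fintype.range_linearCombination, hu']
    exact h1
  have hker : Module.finrank ℚ (LinearMap.ker L) + n₀ ≤ N := by
    have h1 := LinearMap.finrank_range_add_finrank_ker L
    rw [Module.finrank_fintype_fun_eq_card, Fintype.card_fin] at h1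
    omega
  have hker' : Module.finrank ℚ (LinearMap.ker (L.comp Tm)) ≤
      Module.finrank ℚ (LinearMap.ker L) := by
    rw [(Submodule.equivMapOfInjective Tm hinj (LinearMap.ker (L.comp Tm))).finrank_eq]
    apply Submodule.finrank_mono
    rintro _ ⟨x, hx, rfl⟩
    simpa using hx
  set V := (Submodule.span ℚ {2 * (Real.pi : ℂ) * Complex.I}).comap (L.comp Tm) with hV
  have hVr : Module.finrank ℚ V ≤ N + 1 - n₀ := by
    have h1 := LAc_comap (L.comp Tm) (2 * (Real.pi : ℂ) * Complex.I)
    rw [← hV] at h1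
    omega
  refine le_trans (Set.ncard_le_ncard ?_ ?_) (h (N - κ₀) S (N + 1 - n₀) V hVr)
  · rintro σ ⟨h1, h2⟩
    refine ⟨h1, ?_⟩
    obtain ⟨m, hm⟩ := Complex.exp_eq_one_iff.1 h2
    have hval : (L.comp Tm) (fun i => (σ i : ℚ)) = (m : ℂ) * (2 * (Real.pi : ℂ) * Complex.I) := by
      rw [← hm, LinearMap.comp_apply, hL, hTm, Fintype.linearCombination_apply,
        Fintype.linearCombination_apply]
      have h3 : ∀ i, ((∑ j, (σ j : ℚ) • (fun i => (t j i : ℚ))) : Fin N → ℚ) i • u i =
          ∑ j, ∑ k, (σ j : ℂ) * ((q k : ℂ) * ((t j i : ℂ) * w i k)) := by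
        intro i
        rw [Finset.sum_apply, Algebra.smul_def, map_sum, Finset.sum_mul]
        refine Finset.sum_congr rfl fun j _ => ?_
        rw [hu, Finset.mul_sum]
        refine Finset.sum_congr rfl fun k _ => ?_
        simp only [Pi.smul_apply, smul_eq_mul, map_mul, eq_ratCast, Rat.cast_intCast]
        ring
      rw [Finset.sum_congr rfl fun i _ => h3 i, Finset.sum_comm]
      refine Finset.sum_congr rfl fun j _ => ?_
      rw [Finset.sum_comm, Finset.mul_sum]
      refine Finset.sum_congr rfl fun k _ => ?_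
      rw [Finset.mul_sum, Finset.mul_sum]
    change (L.comp Tm) (fun i => (σ i : ℚ)) ∈ Submodule.span ℚ {2 * (Real.pi : ℂ) * Complex.I}
    rw [hval, Submodule.mem_span_singleton]
    refine ⟨(m : ℚ), ?_⟩
    rw [Algebra.smul_def]
    simp
  · exact (Set.finite_Icc (fun _ => -(S : ℤ)) (fun _ => (S : ℤ))).subset fun s hs =>
      ⟨fun i => (abs_le.1 (hs.1 i)).1, fun i => (abs_le.1 (hs.1 i)).2⟩

end Pool.Agent.Work.MP_327059_nt.FR
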