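import Mathlib
import Pool.Agent.Work.MP_327059_nt.FR.Stmts2
import Pool.Agent.Work.MP_327059_nt.AA.Asm

/-!
# Item L5 (`S_LiV`): Liouville bound for vectors of algebraic numbers
-/

set_option autoImplicit false

namespace Pool.Agent.Work.MP_327059_nt.FR

open Pool.Agent.Work.MP_327059_nt

theorem LiV_isVal {m M : ℕ} (b : Fin M → ℂ) (g : Fin m → Fin M) (w : Fin m → ℤ)
    (s : Finset (Fin m)) :
    AA.IsVal b 1 (∑ j ∈ s, |(w j : ℝ)|) (∑ j ∈ s, (w j : ℂ) * b (g j)) := by
  classical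
  induction s using Finset.induction_on with
  | empty =>
    have h := AA.IsVal.int (x := b) 0
    have h' := AA.IsVal.mono (D' := 1) (H' := 0) (Nat.zero_le 1) (by simp) h
    simpa using h'
  | insert a s ha ih =>
    rw [Finset.sum_insert ha, Finset.sum_insert ha]
    refine AA.IsVal.add ?_ ih
    have h := AA.IsVal.mul (AA.IsVal.int (x := b) (w a)) (AA.IsVal.var (x := b) (g a))
    simpa using h

theorem pr_LiV : S_LiV := by
  intro r m φ hφ hli
  obtain ⟨C, hC, hL⟩ := AA.pr_Liou AA.full_NL (m * r)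
    (fun q => φ (finProdFinEquiv.symm q).1 (finProdFinEquiv.symm q).2) (fun q => hφ _ _)
  obtain ⟨c, hc⟩ := exists_nat_ge (C * (2 + Real.log (m + 1)) / Real.log 2 + C)
  refine ⟨c, fun w hw W hW hwW => ?_⟩
  have hW0 : (0 : ℝ) < W := by linarith
  have hm1 : (1 : ℝ) ≤ (m : ℝ) + 1 := by
    have : (0 : ℝ) ≤ m := Nat.cast_nonneg m
    linarith
  have hξ : ∃ k, ∑ j, (w j : ℂ) * φ j k ≠ 0 := by
    by_contra hcon
    push Not at hcon
    have h1 : ∑ j, ((w j : ℚ)) • φ j = 0 := by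
      funext k
      rw [Finset.sum_apply, Pi.zero_apply, ← hcon k]
      refine Finset.sum_congr rfl (fun j _ => ?_)
      rw [Pi.smul_apply, Algebra.smul_def]
      simp
    have h2 := Fintype.linearIndependent_iff.1 hli (fun j => (w j : ℚ)) h1
    apply hw
    funext j
    have := h2 j
    exact_mod_cast this
  obtain ⟨k, hk⟩ := hξ
  refine ⟨k, ?_⟩
  have hH : (1 : ℝ) ≤ ((m : ℝ) + 1) * W := by nlinarith
  have hsum : (∑ j, |(w j : ℝ)|) ≤ ((m : ℝ) + 1) * W := by
    calc (∑ j, |(w j : ℝ)|) ≤ ∑ _j : Fin m, W := Finset.sum_le_sum (fun j _ => hwW j)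
      _ = (m : ℝ) * W := by simp
      _ ≤ ((m : ℝ) + 1) * W := by nlinarith
  have hval := LiV_isVal (fun q => φ (finProdFinEquiv.symm q).1 (finProdFinEquiv.symm q).2)
    (fun j : Fin m => finProdFinEquiv (j, k)) w Finset.univ
  simp only [Equiv.symm_apply_apply] at hval
  have h1 := hL 1 (((m : ℝ) + 1) * W) _ hH (AA.IsVal.mono le_rfl hsum hval) hk
  have hlog : Real.log (((m : ℝ) + 1) * W) = Real.log (m + 1) + Real.log W :=
    Real.log_mul (by positivity) (by positivity)
  have hlog2 : 0 < Real.log 2 := Real.log_pos (by norm_num)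
  have hlogW : Real.log 2 ≤ Real.log W := Real.log_le_log (by norm_num) hW
  have hlogm : 0 ≤ Real.log ((m : ℝ) + 1) := Real.log_nonneg hm1
  have hA : 0 ≤ C * (2 + Real.log (m + 1)) := by positivity
  have h2 : C * (((1 : ℕ) : ℝ) + 1 + Real.log (((m : ℝ) + 1) * W)) ≤ c * Real.log W := by
    rw [hlog]
    have h3 : C * (2 + Real.log (m + 1)) ≤ C * (2 + Real.log (m + 1)) / Real.log 2 * Real.log W := by
      rw [div_mul_eq_mul_div, le_div_iff₀ hlog2]
      exact mul_le_mul_of_nonneg_left hlogW hA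
    have h4 : (C * (2 + Real.log (m + 1)) / Real.log 2 + C) * Real.log W ≤ c * Real.log W :=
      mul_le_mul_of_nonneg_right hc (by linarith)
    push_cast
    nlinarith
  have h5 : Real.exp (C * (((1 : ℕ) : ℝ) + 1 + Real.log (((m : ℝ) + 1) * W))) ≤ W ^ c := by
    calc _ ≤ Real.exp (c * Real.log W) := Real.exp_le_exp.2 h2
      _ = W ^ c := by
        rw [← Real.log_pow, Real.exp_log (by positivity)]
  have h6 : 1 ≤ ‖∑ j, (w j : ℂ) * φ j k‖ * W ^ c :=
    h1.trans (mul_le_mul_of_nonneg_left h5 (norm_nonneg _))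
  rw [inv_le_iff_one_le_mul₀ (by positivity)]
  linarith

end Pool.Agent.Work.MP_327059_nt.FR
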