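import Mathlib
import Pool.Agent.Work.MP_327059_nt.FR.Stmts

/-!
# Item MStep: the dichotomy for mixed translations
-/

set_option autoImplicit false

namespace Pool.Agent.Work.MP_327059_nt.FR

open MvPolynomial Pool.Agent.Work.MP_327059_nt.GL

/-- Composition of translations. -/
noncomputable def MStep_op {M : ℕ} (κ : Fin M → Bool) (c c' : Fin M → ℂ) : Fin M → ℂ :=
  fun k => if κ k then c k * c' k else c k + c' k

/-- Inverse translation. -/
noncomputable def MStep_ng {M : ℕ} (κ : Fin M → Bool) (c : Fin M → ℂ) : Fin M → ℂ :=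
  fun k => if κ k then (c k)⁻¹ else -(c k)

theorem MStep_tr_one {M : ℕ} (κ : Fin M → Bool) (c : Fin M → ℂ)
    (hc : ∀ k, c k = if κ k then 1 else 0) (P : MvPolynomial (Fin M) ℂ) :
    mtr κ c P = P := by
  have h : mtr κ c = AlgHom.id ℂ (MvPolynomial (Fin M) ℂ) := by
    refine MvPolynomial.algHom_ext fun i => ?_
    unfold mtr
    rw [aeval_X, AlgHom.id_apply, hc i]
    by_cases hi : κ i = true
    · simp [hi]
    · simp [hi]
  rw [h, AlgHom.id_apply]

theorem MStep_degreeOf_dvd {σ : Type} [DecidableEq σ] {P Q : MvPolynomial σ ℂ} (hP : P ≠ 0)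
    (h : Q ∣ P) (i : σ) : Q.degreeOf i ≤ P.degreeOf i := by
  obtain ⟨R, rfl⟩ := h
  rw [degreeOf_mul_eq (left_ne_zero_of_mul hP) (right_ne_zero_of_mul hP)]
  exact Nat.le_add_right _ _

theorem MStep_degreeOf_assoc {σ : Type} {P Q : MvPolynomial σ ℂ} (h : Associated P Q) (i : σ) :
    P.degreeOf i = Q.degreeOf i := by
  classical
  by_cases hP : P = 0
  · have : Q = 0 := by
      rw [hP] at h
      exact (associated_zero_iff_eq_zero Q).mp h.symm
    rw [hP, this]
  · have hQ : Q ≠ 0 := fun hQ => hP ((associated_zero_iff_eq_zero P).mp (hQ ▸ h))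
    exact le_antisymm (MStep_degreeOf_dvd hQ h.dvd i) (MStep_degreeOf_dvd hP h.symm.dvd i)

/-- The number of factors involving a given variable. -/
theorem MStep_card {σ : Type} (i : σ) (s : Multiset (MvPolynomial σ ℂ))
    (h0 : (0 : MvPolynomial σ ℂ) ∉ s) :
    Multiset.card (s.filter (fun p => p.degreeOf i ≠ 0)) ≤ s.prod.degreeOf i := by
  classical
  induction s using Multiset.induction_on with
  | empty => simp
  | cons a s ih =>
    have ha : a ≠ 0 := fun h => h0 (by simp [h])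
    have hs : (0 : MvPolynomial σ ℂ) ∉ s := fun h => h0 (Multiset.mem_cons_of_mem h)
    have hsp : s.prod ≠ 0 := Multiset.prod_ne_zero hs
    rw [Multiset.prod_cons, degreeOf_mul_eq ha hsp]
    have := ih hs
    by_cases hd : a.degreeOf i ≠ 0
    · rw [Multiset.filter_cons_of_pos (p := fun p : MvPolynomial σ ℂ => p.degreeOf i ≠ 0) s hd,
        Multiset.card_cons]
      omega
    · rw [Multiset.filter_cons_of_neg (p := fun p : MvPolynomial σ ℂ => p.degreeOf i ≠ 0) s hd]
      omega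

/-- If the exponent of `X k` is constant and positive then `X k` divides the polynomial. -/
theorem MStep_dvd {M : ℕ} (P : MvPolynomial (Fin M) ℂ) (k : Fin M)
    (h : ∀ d ∈ P.support, ∀ d' ∈ P.support, d k = d' k) (hd : ∃ d ∈ P.support, d k ≠ 0) :
    X k ∣ P := by
  classical
  obtain ⟨d, hd, hd0⟩ := hd
  rw [P.as_sum]
  refine Finset.dvd_sum fun d' hd' => ?_
  rw [X_dvd_monomial]
  right
  rw [← h d hd d' hd']
  exact hd0

theorem MStep_exists {M : ℕ} (P : MvPolynomial (Fin M) ℂ) (k : Fin M) (h0 : P.degreeOf k ≠ 0) :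
    ∃ d ∈ P.support, d k ≠ 0 := by
  classical
  by_contra hc
  push Not at hc
  apply h0
  rw [degreeOf_eq_sup]
  exact Nat.le_zero.mp (Finset.sup_le fun d hd => (hc d hd).le)

theorem MStep_pderiv {M : ℕ} (P : MvPolynomial (Fin M) ℂ) (k : Fin M) (h0 : P.degreeOf k ≠ 0) :
    ∃ z, eval z (pderiv k P) ≠ 0 := by
  classical
  obtain ⟨d, hd, hd0⟩ := MStep_exists P k h0
  by_contra hc
  push Not at hc
  have h1 : pderiv k P = 0 := by
    refine MvPolynomial.funext fun z => ?_
    rw [hc z, map_zero]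
  have h2 := coeff_pderiv (i := k) P (d - Finsupp.single k 1)
  have h3 : d - Finsupp.single k 1 + Finsupp.single k 1 = d := by
    refine tsub_add_cancel_of_le ?_
    rw [Finsupp.single_le_iff]
    exact Nat.one_le_iff_ne_zero.mpr hd0
  rw [h1, coeff_zero, h3] at h2
  have h4 : ((((d - Finsupp.single k 1 : Fin M →₀ ℕ) k : ℕ) : ℂ) + 1) ≠ 0 :=
    Nat.cast_add_one_ne_zero _
  exact (mem_support_iff.mp hd) ((mul_eq_zero.mp h2.symm).resolve_right h4)

theorem MStep_pt_succ {M N : ℕ} (κ : Fin (M + 1) → Bool) (t : Fin N → Fin (M + 1) → ℂ)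
    (s : Fin N → ℕ) :
    (mpt κ t s) ∘ Fin.succ = mpt (fun k => κ k.succ) (fun i k => t i k.succ) s := by
  funext j
  rfl

theorem MStep_mpt_ne {M N : ℕ} (κ : Fin M → Bool) (t : Fin N → Fin M → ℂ)
    (ht : ∀ i k, κ k = true → t i k ≠ 0) (s : Fin N → ℕ) (k : Fin M) (hk : κ k = true) :
    mpt κ t s k ≠ 0 := by
  unfold mpt
  rw [if_pos hk]
  exact Finset.prod_ne_zero_iff.mpr fun i _ => pow_ne_zero _ (ht i k hk)

/-- The difference of two points. -/
theorem MStep_diff_mul {M N : ℕ} (κ : Fin M → Bool) (t : Fin N → Fin M → ℂ)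
    (ht : ∀ i k, κ k = true → t i k ≠ 0) (s0 s : Fin N → ℕ) (k : Fin M) (hk : κ k = true) :
    MStep_op κ (MStep_ng κ (mpt κ t s0)) (mpt κ t s) k = ∏ i, t i k ^ ((s i : ℤ) - s0 i) := by
  unfold MStep_op MStep_ng mpt
  rw [if_pos hk, if_pos hk, if_pos hk, if_pos hk, ← Finset.prod_inv_distrib,
    ← Finset.prod_mul_distrib]
  refine Finset.prod_congr rfl fun i _ => ?_
  rw [zpow_sub₀ (ht i k hk), zpow_natCast, zpow_natCast, div_eq_mul_inv, mul_comm]

theorem MStep_diff_add {M N : ℕ} (κ : Fin M → Bool) (t : Fin N → Fin M → ℂ)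
    (s0 s : Fin N → ℕ) (k : Fin M) (hk : ¬ κ k = true) :
    MStep_op κ (MStep_ng κ (mpt κ t s0)) (mpt κ t s) k =
      ∑ i, (((s i : ℤ) - s0 i : ℤ) : ℂ) * t i k := by
  unfold MStep_op MStep_ng mpt
  rw [if_neg hk, if_neg hk, if_neg hk, if_neg hk]
  push_cast
  simp only [sub_mul, Finset.sum_sub_distrib]
  ring

theorem MStep_fin {N S : ℕ} (p : (Fin N → ℤ) → Prop) :
    ({s : Fin N → ℤ | (∀ i, |s i| ≤ (S : ℤ)) ∧ p s}).Finite := by
  refine Set.Finite.subset (Set.Finite.pi' (t := fun _ => Set.Icc (-(S : ℤ)) S)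
    (fun _ => Set.finite_Icc _ _)) ?_
  intro s hs i
  have := hs.1 i
  rw [abs_le] at this
  exact this

/-- Counting differences. -/
theorem MStep_count {N S : ℕ} (p : (Fin N → ℤ) → Prop) (F : Finset (Fin N → ℕ))
    (s0 : Fin N → ℕ) (hs0 : ∀ i, s0 i ≤ S) (hF : ∀ s ∈ F, ∀ i, s i ≤ S)
    (hp : ∀ s ∈ F, p (fun i => (s i : ℤ) - s0 i)) :
    F.card ≤ Set.ncard {s : Fin N → ℤ | (∀ i, |s i| ≤ (S : ℤ)) ∧ p s} := by
  rw [← Set.ncard_coe_finset F]
  refine Set.ncard_le_ncard_of_injOn (fun s => fun i => (s i : ℤ) - s0 i) ?_ ?_ (MStep_fin p)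
  · intro s hs
    have hs : s ∈ F := hs
    refine ⟨fun i => ?_, hp s hs⟩
    have h3 := hF s hs i
    have h4 := hs0 i
    show |(s i : ℤ) - s0 i| ≤ (S : ℤ)
    rw [abs_le]
    constructor <;> omega
  · intro s _ s' _ hss'
    funext i
    have := congrFun hss' i
    simp only at this
    omega

/-- The conclusion from a factor with many associated translates. -/
theorem MStep_end {M N S B : ℕ} (h2 : S_MTr) (κ : Fin (M + 1) → Bool)
    (t : Fin N → Fin (M + 1) → ℂ) (ht : ∀ i k, κ k = true → t i k ≠ 0)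
    (f : MvPolynomial (Fin (M + 1)) ℂ) (hf : Irreducible f) (hf0 : f.degreeOf 0 ≠ 0)
    (hfX : κ 0 = true → ¬ X 0 ∣ f) (hfB : ∀ i, f.degreeOf i ≤ B)
    (F : Finset (Fin N → ℕ)) (hF : ∀ s ∈ F, ∀ i, s i ≤ S) (s0 : Fin N → ℕ)
    (hs0 : ∀ i, s0 i ≤ S)
    (hinv : ∀ s ∈ F, ∃ a : ℂ,
      mtr κ (MStep_op κ (MStep_ng κ (mpt κ t s0)) (mpt κ t s)) f = C a * f)
    (hcount : (S + 1) ^ N ≤ B * B * F.card) :
    (∃ w : Fin (M + 1) → ℤ, w ≠ 0 ∧ (∀ k, κ k = false → w k = 0) ∧ (∀ k, |w k| ≤ (B : ℤ)) ∧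
      (S + 1) ^ N ≤ B * B * mcnt S κ t w) ∨
    (∃ c : Fin (M + 1) → ℂ, c ≠ 0 ∧ (∀ k, κ k = true → c k = 0) ∧
      (S + 1) ^ N ≤ B * B * acnt S κ t c) := by
  classical
  have hcne : ∀ s k, κ k = true →
      MStep_op κ (MStep_ng κ (mpt κ t s0)) (mpt κ t s) k ≠ 0 := by
    intro s k hk
    rw [MStep_diff_mul κ t ht s0 s k hk]
    exact Finset.prod_ne_zero_iff.mpr fun i _ => zpow_ne_zero _ (ht i k hk)
  by_cases hA : ∃ d ∈ f.support, ∃ d' ∈ f.support, ∃ k, κ k = true ∧ d k ≠ d' k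
  · left
    obtain ⟨d, hd, d', hd', k0, hk0, hdd'⟩ := hA
    refine ⟨fun k => if κ k then (d k : ℤ) - d' k else 0, ?_, ?_, ?_, ?_⟩
    · intro h
      have := congrFun h k0
      simp only [Pi.zero_apply, if_pos hk0] at this
      apply hdd'
      omega
    · intro k hk
      simp [hk]
    · intro k
      have h3 := (monomial_le_degreeOf k hd).trans (hfB k)
      have h4 := (monomial_le_degreeOf k hd').trans (hfB k)
      show |if κ k then (d k : ℤ) - d' k else 0| ≤ (B : ℤ)
      split_ifs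
      · rw [abs_le]
        constructor <;> omega
      · simp
    · refine hcount.trans (Nat.mul_le_mul_left _ ?_)
      unfold mcnt
      refine MStep_count (fun s : Fin N → ℤ => ∏ i, ∏ k, (if κ k then
        t i k ^ (s i * (if κ k then (d k : ℤ) - d' k else 0)) else 1) = 1) F s0 hs0 hF ?_
      intro s hs
      obtain ⟨a, ha⟩ := hinv s hs
      have h5 := (h2 (M + 1) κ _ (hcne s)).2.2.2.2.1 f a ha d hd d' hd'
      show ∏ i, ∏ k, (if κ k then
        t i k ^ (((s i : ℤ) - s0 i) * (if κ k then (d k : ℤ) - d' k else 0)) else 1) = 1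
      rw [Finset.prod_comm]
      set c := MStep_op κ (MStep_ng κ (mpt κ t s0)) (mpt κ t s) with hc
      have h7 : ∀ k : Fin (M + 1), ∏ i, (if κ k then
          t i k ^ (((s i : ℤ) - s0 i) * (if κ k then (d k : ℤ) - d' k else 0)) else 1) =
          (if κ k then c k ^ (d k) else 1) / (if κ k then c k ^ (d' k) else 1) := by
        intro k
        by_cases hk : κ k = true
        · simp only [if_pos hk]
          have h8 : c k ≠ 0 := hcne s k hk
          rw [← zpow_natCast, ← zpow_natCast, ← zpow_sub₀ h8, hc,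
            MStep_diff_mul κ t ht s0 s k hk, ← Finset.prod_zpow]
          refine Finset.prod_congr rfl fun i _ => ?_
          rw [zpow_mul]
        · simp only [if_neg hk]
          simp
      rw [Finset.prod_congr rfl fun k _ => h7 k, Finset.prod_div_distrib, h5, div_self]
      refine Finset.prod_ne_zero_iff.mpr fun k _ => ?_
      split_ifs with hk
      · exact pow_ne_zero _ (hcne s k hk)
      · exact one_ne_zero
  · right
    push Not at hA
    -- the common exponent is zero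
    have hz : ∀ d ∈ f.support, ∀ k, κ k = true → d k = 0 := by
      intro d hd k hk
      by_contra hdk
      have hX : X k ∣ f := MStep_dvd f k (fun d1 hd1 d2 hd2 => hA d1 hd1 d2 hd2 k hk) ⟨d, hd, hdk⟩
      have hass : Associated (X k) f :=
        (MvPolynomial.X_prime (R := ℂ) (i := k)).irreducible.associated_of_dvd hf hX
      have h1 := MStep_degreeOf_assoc hass 0
      rw [← h1, degreeOf_X] at hf0
      have hk0 : (0 : Fin (M + 1)) = k := by
        by_contra hne
        rw [if_neg hne] at hf0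
        exact hf0 rfl
      rw [← hk0] at hX hk
      exact hfX hk hX
    obtain ⟨z, hzp⟩ := MStep_pderiv f 0 hf0
    have hκ0 : ¬ κ 0 = true := by
      intro h
      obtain ⟨d, hd, hd0⟩ := MStep_exists f 0 hf0
      exact hd0 (hz d hd 0 h)
    refine ⟨fun k => if κ k then 0 else eval z (pderiv k f), ?_, ?_, ?_⟩
    · intro h
      have := congrFun h 0
      simp only [Pi.zero_apply, if_neg hκ0] at this
      exact hzp this
    · intro k hk
      simp [hk]
    · refine hcount.trans (Nat.mul_le_mul_left _ ?_)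
      unfold acnt
      refine MStep_count (fun s : Fin N → ℤ => ∑ i, ∑ k, (if κ k then 0 else
        (s i : ℂ) * ((if κ k then 0 else eval z (pderiv k f)) * t i k)) = 0) F s0 hs0 hF ?_
      intro s hs
      obtain ⟨a, ha⟩ := hinv s hs
      have h5 := (h2 (M + 1) κ _ (hcne s)).2.2.2.2.2 f a ha hz z
      show ∑ i, ∑ k, (if κ k then 0 else
        (((s i : ℤ) - s0 i : ℤ) : ℂ) * ((if κ k then 0 else eval z (pderiv k f)) * t i k)) = 0
      rw [Finset.sum_comm]
      refine Eq.trans ?_ h5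
      refine Finset.sum_congr rfl fun k _ => ?_
      by_cases hk : κ k = true
      · simp [hk]
      · simp only [if_neg hk]
        rw [MStep_diff_add κ t s0 s k hk, Finset.sum_mul]
        refine Finset.sum_congr rfl fun i _ => ?_
        ring

theorem pr_MStep (h1 : GL.S_ZRes) (h2 : S_MTr) : S_MStep := by
  classical
  intro M N S S' B κ t P ht hP hB hdeg hvan
  -- remove the factor `X_0`
  obtain ⟨P1, hP1, hdvd1, hXP1, hvan1⟩ : ∃ P1 : MvPolynomial (Fin (M + 1)) ℂ, P1 ≠ 0 ∧ P1 ∣ P ∧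
      (κ 0 = true → ¬ X 0 ∣ P1) ∧
      (∀ s : Fin N → ℕ, (∀ i, s i ≤ S + S') → eval (mpt κ t s) P1 = 0) := by
    by_cases hκ : κ 0 = true
    · obtain ⟨e, P1, hXP1, hPe⟩ := WfDvdMonoid.max_power_factor hP
        (MvPolynomial.X_prime (R := ℂ) (i := (0 : Fin (M + 1)))).irreducible
      refine ⟨P1, ?_, ⟨X 0 ^ e, by rw [hPe]; ring⟩, fun _ => hXP1, ?_⟩
      · rintro rfl
        exact hP (by rw [hPe, mul_zero])
      · intro s hs
        have h := hvan s hs
        rw [hPe, map_mul, map_pow, eval_X] at h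
        exact (mul_eq_zero.mp h).resolve_left (pow_ne_zero _ (MStep_mpt_ne κ t ht s 0 hκ))
    · exact ⟨P, hP, dvd_refl P, fun h => absurd h hκ, hvan⟩
  have hdeg1 : ∀ i, P1.degreeOf i ≤ B := fun i => (MStep_degreeOf_dvd hP hdvd1 i).trans (hdeg i)
  -- translates
  have hcc : ∀ s k, κ k = true → mpt κ t s k ≠ 0 := fun s k hk => MStep_mpt_ne κ t ht s k hk
  have hcci : ∀ s k, κ k = true → MStep_ng κ (mpt κ t s) k ≠ 0 := by
    intro s k hk
    unfold MStep_ng
    rw [if_pos hk]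
    exact inv_ne_zero (hcc s k hk)
  have htrev : ∀ s s' : Fin N → ℕ, ∀ Q : MvPolynomial (Fin (M + 1)) ℂ,
      eval (mpt κ t s') (mtr κ (mpt κ t s) Q) = eval (mpt κ t (s + s')) Q := by
    intro s s' Q
    rw [(h2 (M + 1) κ (mpt κ t s) (hcc s)).1]
    congr 2
    funext k
    unfold mpt
    by_cases hk : κ k = true
    · simp only [if_pos hk, Pi.add_apply, pow_add, Finset.prod_mul_distrib]
    · simp only [if_neg hk, Pi.add_apply, Nat.cast_add, add_mul, Finset.sum_add_distrib]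
      ring
  have htrdeg : ∀ s i (Q : MvPolynomial (Fin (M + 1)) ℂ),
      (mtr κ (mpt κ t s) Q).degreeOf i = Q.degreeOf i := fun s i Q =>
    (h2 (M + 1) κ (mpt κ t s) (hcc s)).2.1 Q i
  -- inverse translates
  have hinv : ∀ s (Q : MvPolynomial (Fin (M + 1)) ℂ),
      mtr κ (MStep_ng κ (mpt κ t s)) (mtr κ (mpt κ t s) Q) = Q := by
    intro s Q
    rw [(h2 (M + 1) κ (MStep_ng κ (mpt κ t s)) (hcci s)).2.2.1]
    refine MStep_tr_one κ _ (fun k => ?_) Q
    unfold MStep_ng
    by_cases hk : κ k = true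
    · simp only [if_pos hk]
      exact inv_mul_cancel₀ (hcc s k hk)
    · simp only [if_neg hk]
      ring
  have hinv' : ∀ s (Q : MvPolynomial (Fin (M + 1)) ℂ),
      mtr κ (mpt κ t s) (mtr κ (MStep_ng κ (mpt κ t s)) Q) = Q := by
    intro s Q
    rw [(h2 (M + 1) κ (mpt κ t s) (hcc s)).2.2.1]
    refine MStep_tr_one κ _ (fun k => ?_) Q
    unfold MStep_ng
    by_cases hk : κ k = true
    · simp only [if_pos hk]
      exact mul_inv_cancel₀ (hcc s k hk)
    · simp only [if_neg hk]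
      ring
  have htr0 : ∀ s, mtr κ (mpt κ t s) P1 ≠ 0 := by
    intro s h
    apply hP1
    rw [← hinv s P1, h, map_zero]
  by_cases hR : ∃ s : Fin N → ℕ, (∀ i, s i ≤ S) ∧
      ∃ R : MvPolynomial (Fin M) ℂ, R ≠ 0 ∧ (∀ i, R.degreeOf i ≤ 2 * B * B) ∧
      ∃ a b : MvPolynomial (Fin (M + 1)) ℂ,
        rename Fin.succ R = a * P1 + b * mtr κ (mpt κ t s) P1
  · right
    right
    obtain ⟨s, hs, R, hR0, hRdeg, a, b, hab⟩ := hR
    refine ⟨R, hR0, hRdeg, fun s' hs' => ?_⟩
    rw [← MStep_pt_succ, ← eval_rename, hab, map_add, map_mul, map_mul, htrev,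
      hvan1 s' (fun i => (hs' i).trans (Nat.le_add_left _ _)),
      hvan1 (s + s') (fun i => Nat.add_le_add (hs i) (hs' i))]
    simp
  · rw [← or_assoc]
    left
    push Not at hR
    -- representatives of the irreducible factors involving `X_0`
    let Fs : Finset (MvPolynomial (Fin (M + 1)) ℂ) :=
      ((UniqueFactorizationMonoid.factors P1).filter (fun p => p.degreeOf 0 ≠ 0)).toFinset
    have hFs : Fs.card ≤ B := by
      refine (Multiset.toFinset_card_le _).trans ?_
      refine (MStep_card 0 _ ?_).trans ?_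
      · intro h
        exact (UniqueFactorizationMonoid.irreducible_of_factor _ h).ne_zero rfl
      · rw [MStep_degreeOf_assoc (UniqueFactorizationMonoid.factors_prod hP1) 0]
        exact hdeg1 0
    have hFsmem : ∀ f ∈ Fs, Irreducible f ∧ f ∣ P1 ∧ f.degreeOf 0 ≠ 0 := by
      intro f hf
      have hf' := Multiset.mem_filter.mp (Multiset.mem_toFinset.mp hf)
      exact ⟨UniqueFactorizationMonoid.irreducible_of_factor _ hf'.1,
        UniqueFactorizationMonoid.dvd_of_mem_factors hf'.1, hf'.2⟩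
    have hrep : ∀ f : MvPolynomial (Fin (M + 1)) ℂ, Irreducible f → f ∣ P1 → f.degreeOf 0 ≠ 0 →
        ∃ g ∈ Fs, Associated f g := by
      intro f hf hfd hf0
      obtain ⟨g, hg, hfg⟩ := UniqueFactorizationMonoid.exists_mem_factors_of_dvd hP1 hf hfd
      refine ⟨g, ?_, hfg⟩
      refine Multiset.mem_toFinset.mpr (Multiset.mem_filter.mpr ⟨hg, ?_⟩)
      rwa [← MStep_degreeOf_assoc hfg 0]
    have hpair : ∀ s : Fin N → ℕ, (∀ i, s i ≤ S) →
        ∃ q ∈ Fs ×ˢ Fs, Associated (mtr κ (mpt κ t s) q.1) q.2 := by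
      intro s hs
      rcases h1 M B P1 (mtr κ (mpt κ t s) P1) hP1 (htr0 s) hdeg1
        (fun i => by rw [htrdeg]; exact hdeg1 i) with
          ⟨f, hf, hfP, hfQ, hf0⟩ | ⟨R, hR0, hRd, a, b, hab⟩
      · obtain ⟨g2, hg2, hfg2⟩ := hrep f hf hfP hf0
        have hi := h2 (M + 1) κ (MStep_ng κ (mpt κ t s)) (hcci s)
        obtain ⟨g1, hg1, hfg1⟩ := hrep (mtr κ (MStep_ng κ (mpt κ t s)) f)
          ((hi.2.2.2.1 f).mpr hf)
          (by
            have := map_dvd (mtr κ (MStep_ng κ (mpt κ t s))) hfQ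
            rwa [hinv] at this)
          (by rw [hi.2.1]; exact hf0)
        refine ⟨(g1, g2), Finset.mem_product.mpr ⟨hg1, hg2⟩, ?_⟩
        have h3 := hfg1.symm.map (mtr κ (mpt κ t s))
        rw [hinv'] at h3
        exact h3.trans hfg2
      · exact absurd hab (hR s hs R hR0 hRd a b)
    -- pigeonhole
    let Bx : Finset (Fin N → ℕ) := Fintype.piFinset (fun _ => Finset.range (S + 1))
    have hBx : Bx.card = (S + 1) ^ N := by
      simp [Bx]
    have hBxm : ∀ s, s ∈ Bx ↔ ∀ i, s i ≤ S := by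
      intro s
      simp [Bx]
    let φ : (Fin N → ℕ) → MvPolynomial (Fin (M + 1)) ℂ × MvPolynomial (Fin (M + 1)) ℂ :=
      fun s => if h : ∀ i, s i ≤ S then (hpair s h).choose else (0, 0)
    have hφ : ∀ s ∈ Bx, φ s ∈ Fs ×ˢ Fs ∧ Associated (mtr κ (mpt κ t s) (φ s).1) (φ s).2 := by
      intro s hs
      have hs' := (hBxm s).mp hs
      simp only [φ, dif_pos hs']
      exact (hpair s hs').choose_spec
    have hBxne : (0 : Fin N → ℕ) ∈ Bx := (hBxm 0).mpr fun i => Nat.zero_le _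
    have hFFne : (Fs ×ˢ Fs).Nonempty := ⟨_, (hφ 0 hBxne).1⟩
    obtain ⟨q, hq, hqmax⟩ := Finset.exists_max_image (Fs ×ˢ Fs)
      (fun q => (Bx.filter (fun s => φ s = q)).card) hFFne
    have hcount : (S + 1) ^ N ≤ B * B * (Bx.filter (fun s => φ s = q)).card := by
      rw [← hBx, Finset.card_eq_sum_card_fiberwise (fun s hs => (hφ s hs).1)]
      refine (Finset.sum_le_card_nsmul _ _ _ hqmax).trans ?_
      rw [smul_eq_mul, Finset.card_product]
      exact Nat.mul_le_mul_right _ (Nat.mul_le_mul hFs hFs)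
    set F := Bx.filter (fun s => φ s = q) with hF
    have hFne : F.Nonempty := by
      rw [← Finset.card_pos]
      by_contra h
      have h0 : F.card = 0 := by omega
      rw [h0, mul_zero] at hcount
      exact absurd hcount (not_le.mpr (pow_pos (Nat.succ_pos _) _))
    obtain ⟨s0, hs0⟩ := hFne
    have hFassoc : ∀ s ∈ F, (∀ i, s i ≤ S) ∧ Associated (mtr κ (mpt κ t s) q.1) q.2 := by
      intro s hs
      obtain ⟨hs1, hs2⟩ := Finset.mem_filter.mp hs
      have := (hφ s hs1).2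
      rw [hs2] at this
      exact ⟨(hBxm s).mp hs1, this⟩
    have hq1 : q.1 ∈ Fs := (Finset.mem_product.mp hq).1
    obtain ⟨hqirr, hqdvd, hq0⟩ := hFsmem q.1 hq1
    refine MStep_end h2 κ t ht q.1 hqirr hq0 (fun hκ h => hXP1 hκ (h.trans hqdvd))
      (fun i => (MStep_degreeOf_dvd hP1 hqdvd i).trans (hdeg1 i)) F
      (fun s hs => (hFassoc s hs).1) s0 (hFassoc s0 hs0).1 (fun s hs => ?_) hcount
    have h3 : Associated (mtr κ (mpt κ t s) q.1) (mtr κ (mpt κ t s0) q.1) :=
      (hFassoc s hs).2.trans (hFassoc s0 hs0).2.symm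
    obtain ⟨u, hu⟩ := h3.symm
    obtain ⟨a, -, hau⟩ := isUnit_iff_eq_C_of_isReduced.mp u.isUnit
    rw [hau] at hu
    refine ⟨a, ?_⟩
    -- translate back
    have h4 := congrArg (mtr κ (MStep_ng κ (mpt κ t s0))) hu
    rw [map_mul, hinv, (h2 (M + 1) κ (MStep_ng κ (mpt κ t s0)) (hcci s0)).2.2.1,
      ← MvPolynomial.algebraMap_eq, AlgHom.commutes, MvPolynomial.algebraMap_eq] at h4
    unfold MStep_op
    rw [← h4]
    ring

end Pool.Agent.Work.MP_327059_nt.FR
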