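import Mathlib
import Pool.Agent.Work.MP_327059_nt.FR.Stmts

/-!
# FR, item MTr: the mixed translation operator
-/

set_option autoImplicit false

namespace Pool.Agent.Work.MP_327059_nt.FR

open MvPolynomial

theorem MTr_X {M : ℕ} (κ : Fin M → Bool) (c : Fin M → ℂ) (k : Fin M) :
    mtr κ c (X k) = if κ k then C (c k) * X k else X k + C (c k) := by
  unfold mtr
  rw [aeval_X]

theorem MTr_C {M : ℕ} (κ : Fin M → Bool) (c : Fin M → ℂ) (a : ℂ) : mtr κ c (C a) = C a := by
  unfold mtr
  exact algHom_C _ _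

theorem MTr_eval {M : ℕ} (κ : Fin M → Bool) (c : Fin M → ℂ) (z : Fin M → ℂ)
    (P : MvPolynomial (Fin M) ℂ) :
    eval z (mtr κ c P) = eval (fun k => if κ k then c k * z k else z k + c k) P := by
  have h : (aeval z : MvPolynomial (Fin M) ℂ →ₐ[ℂ] ℂ).comp (mtr κ c) =
      aeval (fun k => if κ k then c k * z k else z k + c k) := by
    apply MvPolynomial.algHom_ext
    intro k
    rw [AlgHom.comp_apply, MTr_X, aeval_X]
    by_cases hk : κ k = true
    · rw [if_pos hk, if_pos hk, map_mul, aeval_X, aeval_C]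
      rfl
    · rw [if_neg hk, if_neg hk, map_add, aeval_X, aeval_C]
      rfl
  exact congrArg (fun φ : MvPolynomial (Fin M) ℂ →ₐ[ℂ] ℂ => φ P) h

theorem MTr_comp {M : ℕ} (κ : Fin M → Bool) (c c' : Fin M → ℂ) (P : MvPolynomial (Fin M) ℂ) :
    mtr κ c (mtr κ c' P) = mtr κ (fun k => if κ k then c k * c' k else c k + c' k) P := by
  have h : (mtr κ c).comp (mtr κ c') =
      mtr κ (fun k => if κ k then c k * c' k else c k + c' k) := by
    apply MvPolynomial.algHom_ext
    intro k
    rw [AlgHom.comp_apply, MTr_X, MTr_X]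
    by_cases hk : κ k = true
    · rw [if_pos hk, if_pos hk, if_pos hk, map_mul, MTr_X, MTr_C, if_pos hk, C_mul]
      ring
    · rw [if_neg hk, if_neg hk, if_neg hk, map_add, MTr_X, MTr_C, if_neg hk, C_add]
      ring
  exact congrArg (fun φ : MvPolynomial (Fin M) ℂ →ₐ[ℂ] MvPolynomial (Fin M) ℂ => φ P) h

theorem MTr_one {M : ℕ} (κ : Fin M → Bool) (c : Fin M → ℂ) (h1 : ∀ k, κ k = true → c k = 1)
    (h0 : ∀ k, κ k = false → c k = 0) (P : MvPolynomial (Fin M) ℂ) : mtr κ c P = P := by
  have h : mtr κ c = AlgHom.id ℂ _ := by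
    apply MvPolynomial.algHom_ext
    intro k
    rw [MTr_X]
    by_cases hk : κ k = true
    · rw [if_pos hk, h1 k hk, C_1, one_mul]
      rfl
    · rw [if_neg hk, h0 k (by simpa using hk), C_0, add_zero]
      rfl
  rw [h]
  rfl

/-- The inverse parameters. -/
noncomputable def MTr_i {M : ℕ} (κ : Fin M → Bool) (c : Fin M → ℂ) : Fin M → ℂ :=
  fun k => if κ k then (c k)⁻¹ else -(c k)

theorem MTr_inv1 {M : ℕ} (κ : Fin M → Bool) (c : Fin M → ℂ) (hc : ∀ k, κ k = true → c k ≠ 0)
    (P : MvPolynomial (Fin M) ℂ) : mtr κ (MTr_i κ c) (mtr κ c P) = P := by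
  rw [MTr_comp]
  apply MTr_one
  · intro k hk
    simp only [MTr_i, hk, if_true]
    exact inv_mul_cancel₀ (hc k hk)
  · intro k hk
    simp [MTr_i, hk]

theorem MTr_inv2 {M : ℕ} (κ : Fin M → Bool) (c : Fin M → ℂ) (hc : ∀ k, κ k = true → c k ≠ 0)
    (P : MvPolynomial (Fin M) ℂ) : mtr κ c (mtr κ (MTr_i κ c) P) = P := by
  rw [MTr_comp]
  apply MTr_one
  · intro k hk
    simp only [MTr_i, hk, if_true]
    exact mul_inv_cancel₀ (hc k hk)
  · intro k hk
    simp [MTr_i, hk]

/-- The coefficients of the factors. -/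
noncomputable def MTr_g {M : ℕ} (κ : Fin M → Bool) (c : Fin M → ℂ) (k : Fin M) (n j : ℕ) : ℂ :=
  if κ k then (if j = n then c k ^ n else 0) else c k ^ (n - j) * (n.choose j : ℂ)

theorem MTr_fac {M : ℕ} (κ : Fin M → Bool) (c : Fin M → ℂ) (k : Fin M) (n : ℕ) :
    (mtr κ c (X k)) ^ n =
      ∑ j ∈ Finset.range (n + 1), C (MTr_g κ c k n j) * (X k : MvPolynomial (Fin M) ℂ) ^ j := by
  rw [MTr_X]
  by_cases hk : κ k = true
  · rw [if_pos hk, Finset.sum_eq_single_of_mem n (Finset.self_mem_range_succ n)]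
    · simp only [MTr_g, hk, if_true]
      rw [mul_pow, C_pow]
    · intro j _ hj
      simp only [MTr_g, hk, if_true, if_neg hj]
      rw [C_0, zero_mul]
  · rw [if_neg hk, add_pow]
    apply Finset.sum_congr rfl
    intro j _
    simp only [MTr_g, if_neg hk]
    rw [C_mul, C_pow]
    have : (C ((n.choose j : ℕ) : ℂ) : MvPolynomial (Fin M) ℂ) = ((n.choose j : ℕ) : _) :=
      map_natCast C _
    rw [this]
    ring

theorem MTr_mono {M : ℕ} (κ : Fin M → Bool) (c : Fin M → ℂ) (d e : Fin M →₀ ℕ) (r : ℂ) :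
    coeff e (mtr κ c (monomial d r)) = r * ∏ k, MTr_g κ c k (d k) (e k) := by
  classical
  have h1 : mtr κ c (monomial d r) = C r * ∏ k, (mtr κ c (X k)) ^ d k := by
    rw [monomial_eq, map_mul, MTr_C, Finsupp.prod_fintype _ _ (fun i => pow_zero _), map_prod]
    simp only [map_pow]
  rw [h1, coeff_C_mul]
  congr 1
  simp only [MTr_fac]
  rw [Finset.prod_univ_sum, coeff_sum]
  have h2 : ∀ f : Fin M → ℕ, (∏ k, C (MTr_g κ c k (d k) (f k)) *
      (X k : MvPolynomial (Fin M) ℂ) ^ f k) =
      monomial (Finsupp.equivFunOnFinite.symm f) (∏ k, MTr_g κ c k (d k) (f k)) := by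
    intro f
    rw [monomial_eq, Finsupp.prod_fintype _ _ (fun i => pow_zero _), Finset.prod_mul_distrib,
      map_prod]
    rfl
  simp only [h2, coeff_monomial]
  by_cases he : ∀ k, e k ≤ d k
  · rw [Finset.sum_eq_single (fun k => e k)]
    · rw [if_pos]
      ext k
      rfl
    · intro f _ hf
      rw [if_neg]
      intro h
      apply hf
      rw [← h]
      rfl
    · intro h
      exfalso
      apply h
      rw [Fintype.mem_piFinset]
      intro k
      rw [Finset.mem_range]
      exact Nat.lt_succ_of_le (he k)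
  · push Not at he
    obtain ⟨k, hk⟩ := he
    have hz : MTr_g κ c k (d k) (e k) = 0 := by
      unfold MTr_g
      by_cases h : κ k = true
      · rw [if_pos h, if_neg (ne_of_gt hk)]
      · rw [if_neg h, Nat.choose_eq_zero_of_lt hk, Nat.cast_zero, mul_zero]
    rw [Finset.prod_eq_zero (Finset.mem_univ k) hz]
    apply Finset.sum_eq_zero
    intro f hf
    rw [if_neg]
    intro h
    rw [Fintype.mem_piFinset] at hf
    have h3 := hf k
    rw [Finset.mem_range] at h3
    have h4 : f k = e k := by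
      rw [← h]
      rfl
    omega

theorem MTr_g_ne {M : ℕ} {κ : Fin M → Bool} {c : Fin M → ℂ} {k : Fin M} {n j : ℕ}
    (h : MTr_g κ c k n j ≠ 0) : j ≤ n ∧ (κ k = true → j = n) := by
  unfold MTr_g at h
  by_cases hk : κ k = true
  · rw [if_pos hk] at h
    by_cases hj : j = n
    · exact ⟨hj.le, fun _ => hj⟩
    · rw [if_neg hj] at h
      exact absurd rfl h
  · rw [if_neg hk] at h
    refine ⟨?_, fun h' => absurd h' hk⟩
    by_contra hlt
    push Not at hlt
    rw [Nat.choose_eq_zero_of_lt hlt, Nat.cast_zero, mul_zero] at h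
    exact absurd rfl h

theorem MTr_g_self {M : ℕ} (κ : Fin M → Bool) (c : Fin M → ℂ) (k : Fin M) (n : ℕ) :
    MTr_g κ c k n n = if κ k then c k ^ n else 1 := by
  unfold MTr_g
  by_cases hk : κ k = true
  · rw [if_pos hk, if_pos hk, if_pos rfl]
  · rw [if_neg hk, if_neg hk, Nat.sub_self, pow_zero, Nat.choose_self, Nat.cast_one, one_mul]

theorem MTr_coeff {M : ℕ} (κ : Fin M → Bool) (c : Fin M → ℂ) (P : MvPolynomial (Fin M) ℂ)
    (e : Fin M →₀ ℕ) :
    coeff e (mtr κ c P) = ∑ d ∈ P.support, coeff d P * ∏ k, MTr_g κ c k (d k) (e k) := by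
  have h1 : mtr κ c P = ∑ d ∈ P.support, mtr κ c (monomial d (coeff d P)) := by
    conv_lhs => rw [P.as_sum]
    rw [map_sum]
  rw [h1, coeff_sum]
  exact Finset.sum_congr rfl fun d _ => MTr_mono κ c d e _

theorem MTr_deg_le {M : ℕ} (κ : Fin M → Bool) (c : Fin M → ℂ) (P : MvPolynomial (Fin M) ℂ)
    (i : Fin M) : (mtr κ c P).degreeOf i ≤ P.degreeOf i := by
  classical
  rw [degreeOf_eq_sup, degreeOf_eq_sup]
  refine Finset.sup_le fun e he => ?_
  rw [mem_support_iff, MTr_coeff] at he
  obtain ⟨d, hd, hne⟩ := Finset.exists_ne_zero_of_sum_ne_zero he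
  have h1 : MTr_g κ c i (d i) (e i) ≠ 0 := by
    intro h0
    apply hne
    rw [Finset.prod_eq_zero (Finset.mem_univ i) h0, mul_zero]
  exact (MTr_g_ne h1).1.trans (Finset.le_sup (f := fun m : Fin M →₀ ℕ => m i) hd)

theorem MTr_scal {M : ℕ} (κ : Fin M → Bool) (c : Fin M → ℂ) (P : MvPolynomial (Fin M) ℂ) (a : ℂ)
    (h : mtr κ c P = C a * P) (d : Fin M →₀ ℕ) (hd : d ∈ P.support) :
    ∏ k, (if κ k then c k ^ (d k) else 1) = a := by
  classical
  obtain ⟨e, he, hmax⟩ := Finset.exists_max_image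
    (P.support.filter fun d' => ∀ k, κ k = true → d' k = d k)
    (fun d' => ∑ k, d' k) ⟨d, Finset.mem_filter.2 ⟨hd, fun _ _ => rfl⟩⟩
  rw [Finset.mem_filter] at he
  have h1 : coeff e (mtr κ c P) = coeff e P * ∏ k, MTr_g κ c k (e k) (e k) := by
    rw [MTr_coeff]
    refine Finset.sum_eq_single_of_mem e he.1 fun d' hd' hne => ?_
    by_contra h0
    apply hne
    have h2 : ∀ k, MTr_g κ c k (d' k) (e k) ≠ 0 := by
      intro k hk
      apply h0
      rw [Finset.prod_eq_zero (Finset.mem_univ k) hk, mul_zero]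
    have h3 : d' ∈ P.support.filter fun d' => ∀ k, κ k = true → d' k = d k :=
      Finset.mem_filter.2 ⟨hd', fun k hk => ((MTr_g_ne (h2 k)).2 hk).symm.trans (he.2 k hk)⟩
    have h4 := hmax d' h3
    have h5 : ∑ k, e k = ∑ k, d' k :=
      le_antisymm (Finset.sum_le_sum fun k _ => (MTr_g_ne (h2 k)).1) h4
    have h6 := (Finset.sum_eq_sum_iff_of_le (fun k _ => (MTr_g_ne (h2 k)).1)).1 h5
    ext k
    exact (h6 k (Finset.mem_univ k)).symm
  rw [h, coeff_C_mul, mul_comm] at h1
  have h2 := mul_left_cancel₀ (mem_support_iff.1 he.1) h1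
  rw [h2]
  apply Finset.prod_congr rfl
  intro k _
  rw [MTr_g_self]
  by_cases hk : κ k = true
  · rw [if_pos hk, if_pos hk, he.2 k hk]
  · rw [if_neg hk, if_neg hk]

theorem MTr_per (q : Polynomial ℂ) (a : ℂ) (h : ∀ x, q.eval (x + 1) = a * q.eval x) :
    Polynomial.derivative q = 0 := by
  by_cases hq : q = 0
  · rw [hq, Polynomial.derivative_zero]
  have h1 : q.comp (Polynomial.X + Polynomial.C 1) = Polynomial.C a * q := by
    apply Polynomial.funext
    intro x
    rw [Polynomial.eval_comp, Polynomial.eval_mul, Polynomial.eval_add, Polynomial.eval_X,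
      Polynomial.eval_C, Polynomial.eval_C, h]
  have h2 := congrArg Polynomial.leadingCoeff h1
  rw [Polynomial.leadingCoeff_comp (by rw [Polynomial.natDegree_X_add_C]; exact one_ne_zero),
    Polynomial.leadingCoeff_X_add_C, one_pow, mul_one, Polynomial.leadingCoeff_mul,
    Polynomial.leadingCoeff_C] at h2
  have hlc : q.leadingCoeff ≠ 0 := Polynomial.leadingCoeff_ne_zero.2 hq
  have ha : a = 1 := by
    apply mul_right_cancel₀ hlc
    rw [← h2, one_mul]
  have h3 : ∀ n : ℕ, q.eval (n : ℂ) = q.eval 0 := by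
    intro n
    induction n with
    | zero => rw [Nat.cast_zero]
    | succ n ih => rw [Nat.cast_succ, h, ha, one_mul, ih]
  have h4 : q = Polynomial.C (q.eval 0) := by
    apply Polynomial.eq_of_infinite_eval_eq
    apply Set.Infinite.mono _ (Set.infinite_range_of_injective (Nat.cast_injective (R := ℂ)))
    rintro _ ⟨n, rfl⟩
    rw [Set.mem_setOf_eq, h3, Polynomial.eval_C]
  rw [h4, Polynomial.derivative_C]

theorem MTr_chain {M : ℕ} (f : Fin M → Polynomial ℂ) (P : MvPolynomial (Fin M) ℂ) :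
    Polynomial.derivative (aeval f P) =
      ∑ k, aeval f (pderiv k P) * Polynomial.derivative (f k) := by
  classical
  induction P using MvPolynomial.induction_on with
  | C a =>
    rw [aeval_C]
    simp
  | add p q hp hq =>
    rw [map_add, Polynomial.derivative_add, hp, hq, ← Finset.sum_add_distrib]
    apply Finset.sum_congr rfl
    intro k _
    rw [map_add, map_add]
    ring
  | mul_X p i hp =>
    rw [map_mul, aeval_X, Polynomial.derivative_mul, hp]
    have h1 : ∀ k, aeval f (pderiv k (p * X i)) * Polynomial.derivative (f k) =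
        aeval f (pderiv k p) * Polynomial.derivative (f k) * f i +
          (if k = i then aeval f p * Polynomial.derivative (f k) else 0) := by
      intro k
      rw [pderiv_mul, map_add, map_mul, map_mul, aeval_X]
      by_cases hk : k = i
      · subst hk
        rw [pderiv_X_self, map_one, if_pos rfl]
        ring
      · rw [pderiv_X_of_ne (Ne.symm hk), map_zero, if_neg hk]
        ring
    rw [Finset.sum_congr rfl fun k _ => h1 k, Finset.sum_add_distrib, Finset.sum_mul]
    simp

theorem MTr_indep {M : ℕ} (κ : Fin M → Bool) (P : MvPolynomial (Fin M) ℂ)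
    (hP : ∀ d ∈ P.support, ∀ k, κ k = true → d k = 0) (z z' : Fin M → ℂ)
    (hz : ∀ k, κ k = false → z k = z' k) : eval z P = eval z' P := by
  rw [eval_eq', eval_eq']
  apply Finset.sum_congr rfl
  intro d hd
  congr 1
  apply Finset.prod_congr rfl
  intro k _
  by_cases hk : κ k = true
  · rw [hP d hd k hk, pow_zero, pow_zero]
  · rw [hz k (by simpa using hk)]

theorem MTr_six {M : ℕ} (κ : Fin M → Bool) (c : Fin M → ℂ) (P : MvPolynomial (Fin M) ℂ) (a : ℂ)
    (h : mtr κ c P = C a * P) (hP : ∀ d ∈ P.support, ∀ k, κ k = true → d k = 0)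
    (z : Fin M → ℂ) : ∑ k, (if κ k then 0 else c k * eval z (pderiv k P)) = 0 := by
  classical
  let f : Fin M → Polynomial ℂ := fun k =>
    if κ k then Polynomial.C (z k) else Polynomial.C (z k) + Polynomial.C (c k) * Polynomial.X
  have hf : ∀ (x : ℂ) (Q : MvPolynomial (Fin M) ℂ),
      (aeval f Q).eval x = eval (fun k => if κ k then z k else z k + c k * x) Q := by
    intro x Q
    have h1 : ((Polynomial.aeval x : Polynomial ℂ →ₐ[ℂ] ℂ).comp (aeval f) :
        MvPolynomial (Fin M) ℂ →ₐ[ℂ] ℂ) = aeval (fun k => if κ k then z k else z k + c k * x) := by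
      apply MvPolynomial.algHom_ext
      intro k
      rw [AlgHom.comp_apply, aeval_X, aeval_X]
      by_cases hk : κ k = true
      · simp [f, hk]
      · simp [f, hk]
    have h2 := congrArg (fun φ : MvPolynomial (Fin M) ℂ →ₐ[ℂ] ℂ => φ Q) h1
    simpa [Polynomial.coe_aeval_eq_eval] using h2
  have hq : ∀ x : ℂ, (aeval f P).eval (x + 1) = a * (aeval f P).eval x := by
    intro x
    rw [hf, hf]
    have h1 := MTr_eval κ c (fun k => if κ k then z k else z k + c k * x) P
    rw [h, eval_mul, eval_C] at h1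
    rw [h1]
    apply MTr_indep κ P hP
    intro k hk
    simp only [hk, Bool.false_eq_true, if_false]
    ring
  have h3 := MTr_per _ a hq
  rw [MTr_chain] at h3
  have h4 := congrArg (Polynomial.eval 0) h3
  rw [Polynomial.eval_zero, Polynomial.eval_finset_sum] at h4
  refine Eq.trans ?_ h4
  apply Finset.sum_congr rfl
  intro k _
  rw [Polynomial.eval_mul, hf]
  have h5 : (fun k => if κ k then z k else z k + c k * 0) = z := by
    funext k
    simp
  rw [h5]
  by_cases hk : κ k = true
  · simp [f, hk]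
  · simp [f, hk]
    ring

theorem pr_MTr : S_MTr := by
  intro M κ c hc
  refine ⟨MTr_eval κ c, ?_, fun c' P => MTr_comp κ c c' P, ?_, ?_, ?_⟩
  · intro P i
    apply le_antisymm (MTr_deg_le κ c P i)
    conv_lhs => rw [← MTr_inv1 κ c hc P]
    exact MTr_deg_le _ _ _ i
  · intro P
    let e : MvPolynomial (Fin M) ℂ ≃ₐ[ℂ] MvPolynomial (Fin M) ℂ :=
      AlgEquiv.ofAlgHom (mtr κ c) (mtr κ (MTr_i κ c))
        (AlgHom.ext fun P => MTr_inv2 κ c hc P)
        (AlgHom.ext fun P => MTr_inv1 κ c hc P)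
    exact MulEquiv.irreducible_iff e
  · intro P a h d hd d' hd'
    rw [MTr_scal κ c P a h d hd, MTr_scal κ c P a h d' hd']
  · intro P a h hP z
    exact MTr_six κ c P a h hP z

end Pool.Agent.Work.MP_327059_nt.FR
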