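import Mathlib
import Pool.Agent.Work.MP_327059_nt.FR.Stmts

/-!
# PROJECT FR, item MZE: the mixed zero estimate
-/

set_option autoImplicit false

namespace Pool.Agent.Work.MP_327059_nt.FR

open MvPolynomial Pool.Agent.Work.MP_327059_nt.GL

theorem MZE_mcnt {N M : ℕ} (S : ℕ) (κ : Fin (M + 1) → Bool) (t : Fin N → Fin (M + 1) → ℂ)
    (w : Fin M → ℤ) :
    mcnt S κ t (Fin.cons 0 w : Fin (M + 1) → ℤ) =
      mcnt S (fun k => κ k.succ) (fun i k => t i k.succ) w := by
  unfold mcnt
  congr 1
  ext s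
  simp only [Set.mem_ofPred_eq]
  have h : ∀ i, ∏ k, (if κ k then t i k ^ (s i * (Fin.cons 0 w : Fin (M + 1) → ℤ) k) else 1) =
      ∏ k : Fin M, (if κ k.succ then t i k.succ ^ (s i * w k) else 1) := by
    intro i
    rw [Fin.prod_univ_succ]
    simp
  simp only [h]

theorem MZE_acnt {N M : ℕ} (S : ℕ) (κ : Fin (M + 1) → Bool) (t : Fin N → Fin (M + 1) → ℂ)
    (c : Fin M → ℂ) :
    acnt S κ t (Fin.cons 0 c : Fin (M + 1) → ℂ) =
      acnt S (fun k => κ k.succ) (fun i k => t i k.succ) c := by
  unfold acnt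
  congr 1
  ext s
  simp only [Set.mem_ofPred_eq]
  have h : ∀ i, ∑ k, (if κ k then 0 else
        (s i : ℂ) * ((Fin.cons 0 c : Fin (M + 1) → ℂ) k * t i k)) =
      ∑ k : Fin M, (if κ k.succ then 0 else (s i : ℂ) * (c k * t i k.succ)) := by
    intro i
    rw [Fin.sum_univ_succ]
    simp
  simp only [h]

theorem pr_MZE (h : S_MStep) : S_MZE := by
  intro M
  induction M with
  | zero =>
    refine ⟨1, ?_⟩
    intro N S B κ t P _ hP _ _ hz
    exfalso
    have h0 := hz (fun _ => 0) (fun _ => Nat.zero_le _)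
    rw [MvPolynomial.eq_C_of_isEmpty P, eval_C] at h0
    apply hP
    rw [MvPolynomial.eq_C_of_isEmpty P, h0, C_0]
  | succ M ih =>
    obtain ⟨c, hc⟩ := ih
    refine ⟨2 * c + 2, ?_⟩
    intro N S B κ t P ht hP hB hdeg hz
    have hS : S + 2 ^ M * S ≤ 2 ^ (M + 1) * S := by
      have e1 : 1 ≤ 2 ^ M := Nat.one_le_two_pow
      have e2 : 1 * S ≤ 2 ^ M * S := Nat.mul_le_mul_right _ e1
      have e3 : 2 ^ (M + 1) * S = 2 * (2 ^ M * S) := by ring
      rw [e3]
      omega
    have hBB : B * B ≤ (2 * B) ^ (2 * c + 2) := by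
      calc B * B ≤ (2 * B) * (2 * B) := Nat.mul_le_mul (by omega) (by omega)
        _ = (2 * B) ^ 2 := (sq _).symm
        _ ≤ (2 * B) ^ (2 * c + 2) := Nat.pow_le_pow_right (by omega) (by omega)
    have hB1 : B ≤ (2 * B) ^ (2 * c + 2) := le_trans (Nat.le_mul_self B) hBB
    have hpow : (2 * (2 * B * B)) ^ c ≤ (2 * B) ^ (2 * c + 2) := by
      have e1 : 2 * (2 * B * B) = (2 * B) ^ 2 := by ring
      rw [e1, ← pow_mul]
      exact Nat.pow_le_pow_right (by omega) (by omega)
    rcases h M N S (2 ^ M * S) B κ t P ht hP hB hdeg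
      (fun s hs => hz s (fun i => (hs i).trans hS)) with
      ⟨w, hw, hwκ, hwB, hcnt⟩ | ⟨c', hc', hcκ, hcnt⟩ | ⟨R, hR, hRdeg, hRz⟩
    · left
      refine ⟨w, hw, hwκ, fun j => (hwB j).trans ?_, hcnt.trans (Nat.mul_le_mul_right _ hBB)⟩
      exact_mod_cast hB1
    · right
      exact ⟨c', hc', hcκ, hcnt.trans (Nat.mul_le_mul_right _ hBB)⟩
    · have hB' : 1 ≤ 2 * B * B := by nlinarith
      rcases hc N S (2 * B * B) (fun k => κ k.succ) (fun i k => t i k.succ) R
        (fun i k hk => ht i k.succ hk) hR hB' hRdeg hRz with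
        ⟨w, hw, hwκ, hwB, hcnt⟩ | ⟨c', hc', hcκ, hcnt⟩
      · left
        refine ⟨Fin.cons 0 w, ?_, ?_, ?_, ?_⟩
        · intro h
          refine hw (funext fun j => ?_)
          have := congrFun h j.succ
          simpa using this
        · intro j
          refine Fin.cases ?_ (fun j => ?_) j
          · intro _
            simp
          · intro hj
            rw [Fin.cons_succ]
            exact hwκ j hj
        · intro j
          refine Fin.cases ?_ (fun j => ?_) j
          · simp
          · rw [Fin.cons_succ]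
            refine (hwB j).trans ?_
            exact_mod_cast hpow
        · rw [MZE_mcnt]
          exact hcnt.trans (Nat.mul_le_mul_right _ hpow)
      · right
        refine ⟨Fin.cons 0 c', ?_, ?_, ?_⟩
        · intro h
          refine hc' (funext fun j => ?_)
          have := congrFun h j.succ
          simpa using this
        · intro j
          refine Fin.cases ?_ (fun j => ?_) j
          · intro _
            simp
          · intro hj
            rw [Fin.cons_succ]
            exact hcκ j hj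
        · rw [MZE_acnt]
          exact hcnt.trans (Nat.mul_le_mul_right _ hpow)

/-- The type of the coordinates, multiplicative (left) or additive (right). -/
def MZE_k (m r : ℕ) : Fin (m + r) → Bool := fun k => (finSumFinEquiv.symm k).isLeft

/-- The coordinates of the points. -/
noncomputable def MZE_t {N r m : ℕ} (w : Fin N → Fin r → ℂ) (y : Fin N → Fin m → ℂ) :
    Fin N → Fin (m + r) → ℂ := fun i k => Sum.elim (y i) (w i) (finSumFinEquiv.symm k)

theorem MZE_prod {m r : ℕ} (f : Fin m ⊕ Fin r → ℂ) :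
    ∏ k : Fin (m + r), f (finSumFinEquiv.symm k) = (∏ j, f (Sum.inl j)) * ∏ k, f (Sum.inr k) := by
  rw [Equiv.prod_comp (finSumFinEquiv (m := m) (n := r)).symm f, Fintype.prod_sum_type]

theorem MZE_sum {m r : ℕ} (f : Fin m ⊕ Fin r → ℂ) :
    ∑ k : Fin (m + r), f (finSumFinEquiv.symm k) = (∑ j, f (Sum.inl j)) + ∑ k, f (Sum.inr k) := by
  rw [Equiv.sum_comp (finSumFinEquiv (m := m) (n := r)).symm f, Fintype.sum_sum_type]

theorem MZE_pt {N r m : ℕ} (w : Fin N → Fin r → ℂ) (y : Fin N → Fin m → ℂ) (s : Fin N → ℕ) :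
    (mpt (MZE_k m r) (MZE_t w y) s) ∘ finSumFinEquiv = rpt w y s := by
  funext k
  rcases k with j | k
  · simp [mpt, MZE_k, MZE_t, rpt]
  · simp [mpt, MZE_k, MZE_t, rpt]

theorem MZE_cY {N r m : ℕ} (S : ℕ) (w : Fin N → Fin r → ℂ) (y : Fin N → Fin m → ℂ)
    (W : Fin (m + r) → ℤ) :
    mcnt S (MZE_k m r) (MZE_t w y) W = cntY S y (fun j => W (finSumFinEquiv (Sum.inl j))) := by
  unfold mcnt cntY
  congr 1
  ext s
  simp only [Set.mem_ofPred_eq]
  have h : ∀ i, ∏ k, (if MZE_k m r k then MZE_t w y i k ^ (s i * W k) else 1) =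
      ∏ j, y i j ^ (s i * W (finSumFinEquiv (Sum.inl j))) := by
    intro i
    have e := MZE_prod (m := m) (r := r)
      (fun q => if q.isLeft then (Sum.elim (y i) (w i) q) ^ (s i * W (finSumFinEquiv q)) else 1)
    simp only [Equiv.apply_symm_apply] at e
    unfold MZE_k MZE_t
    rw [e]
    simp
  simp only [h]

theorem MZE_cL {N r m : ℕ} (S : ℕ) (w : Fin N → Fin r → ℂ) (y : Fin N → Fin m → ℂ)
    (c : Fin (m + r) → ℂ) :
    acnt S (MZE_k m r) (MZE_t w y) c =
      cntL S (fun i => ∑ k, c (finSumFinEquiv (Sum.inr k)) * w i k) := by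
  unfold acnt cntL
  congr 1
  ext s
  simp only [Set.mem_ofPred_eq]
  have h : ∀ i, ∑ k, (if MZE_k m r k then 0 else (s i : ℂ) * (c k * MZE_t w y i k)) =
      (s i : ℂ) * ∑ k, c (finSumFinEquiv (Sum.inr k)) * w i k := by
    intro i
    have e := MZE_sum (m := m) (r := r)
      (fun q => if q.isLeft then 0 else
        (s i : ℂ) * (c (finSumFinEquiv q) * Sum.elim (y i) (w i) q))
    simp only [Equiv.apply_symm_apply] at e
    unfold MZE_k MZE_t
    rw [e, Finset.mul_sum]
    simp
  simp only [h]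

theorem pr_ZEr (h : S_MZE) : S_ZEr := by
  intro m r
  obtain ⟨c, hc⟩ := h (m + r)
  refine ⟨c, ?_⟩
  intro N S B w y P hy hP hB hdeg hz
  have hinj : Function.Injective (finSumFinEquiv (m := m) (n := r)) := finSumFinEquiv.injective
  have hP' : rename (finSumFinEquiv (m := m) (n := r)) P ≠ 0 := by
    intro h0
    exact hP (rename_injective _ hinj (by rw [h0, map_zero]))
  have hdeg' : ∀ k, (rename (finSumFinEquiv (m := m) (n := r)) P).degreeOf k ≤ B := by
    intro k
    have e := degreeOf_rename_of_injective (p := P) hinj (finSumFinEquiv.symm k)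
    rw [Equiv.apply_symm_apply] at e
    rw [e]
    exact hdeg _
  have ht : ∀ i k, MZE_k m r k = true → MZE_t w y i k ≠ 0 := by
    intro i k hk
    unfold MZE_k at hk
    unfold MZE_t
    rcases hq : finSumFinEquiv.symm k with j | j
    · rw [Sum.elim_inl]
      exact hy i j
    · rw [hq] at hk
      simp at hk
  have hz' : ∀ s : Fin N → ℕ, (∀ i, s i ≤ 2 ^ (m + r) * S) →
      eval (mpt (MZE_k m r) (MZE_t w y) s) (rename (finSumFinEquiv (m := m) (n := r)) P) = 0 := by
    intro s hs
    rw [eval_rename, MZE_pt]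
    exact hz s hs
  rcases hc N S B (MZE_k m r) (MZE_t w y) _ ht hP' hB hdeg' hz' with
    ⟨W, hW, hWκ, hWB, hcnt⟩ | ⟨c', hc', hcκ, hcnt⟩
  · left
    refine ⟨fun j => W (finSumFinEquiv (Sum.inl j)), ?_, fun j => hWB _, ?_⟩
    · intro h0
      apply hW
      funext k
      obtain ⟨q, rfl⟩ := (finSumFinEquiv (m := m) (n := r)).surjective k
      rcases q with j | j
      · exact congrFun h0 j
      · apply hWκ
        unfold MZE_k
        rw [Equiv.symm_apply_apply]
        rfl
    · rw [← MZE_cY S w y W]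
      exact hcnt
  · right
    refine ⟨fun k => c' (finSumFinEquiv (Sum.inr k)), ?_, ?_⟩
    · intro h0
      apply hc'
      funext k
      obtain ⟨q, rfl⟩ := (finSumFinEquiv (m := m) (n := r)).surjective k
      rcases q with j | j
      · apply hcκ
        unfold MZE_k
        rw [Equiv.symm_apply_apply]
        rfl
      · exact congrFun h0 j
    · rw [← MZE_cL S w y c']
      exact hcnt

end Pool.Agent.Work.MP_327059_nt.FR
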