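import Mathlib
import Pool.Agent.Work.MP_327059_nt.FR.Stmts2

/-!
# Item NoRL: additive relations close to the true point are impossible
-/

set_option autoImplicit false

namespace Pool.Agent.Work.MP_327059_nt.FR

open MvPolynomial Pool.Agent.Work.MP_327059_nt.GL

/-- The linear form. -/
noncomputable def NoRL_L {N r : ℕ} (ψ : Fin r → ℂ) (w : Fin N → Fin r → ℂ)
    (s : Fin N → ℤ) : ℂ :=
  ∑ k, ψ k * ∑ i, (s i : ℂ) * w i k

theorem NoRL_sub {N r : ℕ} (ψ : Fin r → ℂ) (w w' : Fin N → Fin r → ℂ) (s : Fin N → ℤ) :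
    NoRL_L ψ w s - NoRL_L ψ w' s = ∑ k, ψ k * ∑ i, (s i : ℂ) * (w i k - w' i k) := by
  unfold NoRL_L
  rw [← Finset.sum_sub_distrib]
  refine Finset.sum_congr rfl fun k _ => ?_
  rw [← mul_sub, ← Finset.sum_sub_distrib]
  congr 1
  exact Finset.sum_congr rfl fun i _ => by ring

theorem NoRL_bd {N r : ℕ} (ψ : Fin r → ℂ) (w w' : Fin N → Fin r → ℂ) (s : Fin N → ℤ)
    (T ε : ℝ) (hψ : ∀ k, ‖ψ k‖ ≤ 1) (hs : ∀ i, |(s i : ℝ)| ≤ T)
    (hw : ∀ i k, ‖w' i k - w i k‖ ≤ ε) (hT : 0 ≤ T) :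
    ‖NoRL_L ψ w s - NoRL_L ψ w' s‖ ≤ r * (N * (T * ε)) := by
  rw [NoRL_sub]
  refine (norm_sum_le _ _).trans ?_
  have hin : ∀ k, ‖∑ i, (s i : ℂ) * (w i k - w' i k)‖ ≤ N * (T * ε) := by
    intro k
    refine (norm_sum_le _ _).trans ?_
    calc ∑ i, ‖(s i : ℂ) * (w i k - w' i k)‖ ≤ ∑ _i : Fin N, (T * ε) := by
          refine Finset.sum_le_sum fun i _ => ?_
          rw [norm_mul]
          refine mul_le_mul ?_ ?_ (norm_nonneg _) hT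
          · rw [Complex.norm_intCast]
            exact hs i
          · rw [norm_sub_rev]
            exact hw i k
      _ = N * (T * ε) := by simp
  calc ∑ k, ‖ψ k * ∑ i, (s i : ℂ) * (w i k - w' i k)‖ ≤ ∑ _k : Fin r, ((N : ℝ) * (T * ε)) := by
        refine Finset.sum_le_sum fun k _ => ?_
        rw [norm_mul]
        calc ‖ψ k‖ * ‖∑ i, (s i : ℂ) * (w i k - w' i k)‖ ≤ 1 * (N * (T * ε)) :=
              mul_le_mul (hψ k) (hin k) (norm_nonneg _) zero_le_one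
          _ = N * (T * ε) := one_mul _
    _ = r * (N * (T * ε)) := by simp

/-- numerical inequality 1 -/
theorem NoRL_num1 (r N T : ℕ) (hT : r * N + 2 ≤ T) :
    (r : ℝ) * (N * (T * Real.exp (-((T : ℝ) ^ (3 * r + 6))))) ≤
      Real.exp (-((T : ℝ) ^ (3 * r + 5))) := by
  have h1 : (2 : ℝ) ≤ T := by exact_mod_cast (by omega : 2 ≤ T)
  have h2 : (r : ℝ) * N ≤ T := by exact_mod_cast (by omega : r * N ≤ T)
  have h3 : (T : ℝ) ≤ Real.exp T := by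
    have := Real.add_one_le_exp (T : ℝ)
    linarith
  have h4 : (T : ℝ) * T ≤ Real.exp (2 * T) := by
    have e : Real.exp (2 * (T : ℝ)) = Real.exp T * Real.exp T := by
      rw [← Real.exp_add]; congr 1; ring
    rw [e]
    exact mul_le_mul h3 h3 (by linarith) (Real.exp_pos _).le
  have h5 : 2 * (T : ℝ) + -((T : ℝ) ^ (3 * r + 6)) ≤ -((T : ℝ) ^ (3 * r + 5)) := by
    have e1 : (T : ℝ) ^ (3 * r + 6) = T * (T : ℝ) ^ (3 * r + 5) := by ring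
    have e2 : (T : ℝ) ^ (3 * r + 5) = T * (T * (T : ℝ) ^ (3 * r + 3)) := by ring
    have e3 : (1 : ℝ) ≤ (T : ℝ) ^ (3 * r + 3) := one_le_pow₀ (by linarith)
    have e4 : 2 * (T : ℝ) ≤ (T : ℝ) ^ (3 * r + 5) := by
      rw [e2]
      have f1 : (2 : ℝ) ≤ T * (T : ℝ) ^ (3 * r + 3) := by nlinarith
      nlinarith
    rw [e1]
    nlinarith
  calc (r : ℝ) * (N * (T * Real.exp (-((T : ℝ) ^ (3 * r + 6)))))
      = (r * N) * T * Real.exp (-((T : ℝ) ^ (3 * r + 6))) := by ring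
    _ ≤ Real.exp (2 * T) * Real.exp (-((T : ℝ) ^ (3 * r + 6))) := by
        refine mul_le_mul_of_nonneg_right ?_ (Real.exp_pos _).le
        exact le_trans (mul_le_mul_of_nonneg_right h2 (by linarith)) h4
    _ = Real.exp (2 * T + -((T : ℝ) ^ (3 * r + 6))) := by rw [← Real.exp_add]
    _ ≤ Real.exp (-((T : ℝ) ^ (3 * r + 5))) := Real.exp_le_exp.2 h5

/-- numerical inequality 2 -/
theorem NoRL_num2 (q c T N ρ : ℕ) (hN : ρ + 1 + q * c = N) (hT : 2 ^ c * 2 ^ N ≤ T) :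
    (2 * T ^ q) ^ c * (2 * T + 1) ^ ρ < (T + 1) ^ N := by
  have hW : (2 * T ^ q) ^ c = 2 ^ c * T ^ (q * c) := by rw [mul_pow, ← pow_mul]
  have e3 : (2 * T + 1) ^ ρ ≤ 2 ^ N * (T + 1) ^ ρ := by
    calc (2 * T + 1) ^ ρ ≤ (2 * (T + 1)) ^ ρ := Nat.pow_le_pow_left (by omega) _
      _ = 2 ^ ρ * (T + 1) ^ ρ := mul_pow _ _ _
      _ ≤ 2 ^ N * (T + 1) ^ ρ :=
        Nat.mul_le_mul_right _ (Nat.pow_le_pow_right (by norm_num) (by omega))
  have e4 : T ^ (q * c) ≤ (T + 1) ^ (q * c) := Nat.pow_le_pow_left (by omega) _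
  calc (2 * T ^ q) ^ c * (2 * T + 1) ^ ρ
      ≤ (2 ^ c * T ^ (q * c)) * (2 ^ N * (T + 1) ^ ρ) := by
        rw [hW]
        exact Nat.mul_le_mul_left _ e3
    _ = (2 ^ c * 2 ^ N) * (T ^ (q * c) * (T + 1) ^ ρ) := by ring
    _ ≤ T * ((T + 1) ^ (q * c) * (T + 1) ^ ρ) :=
        Nat.mul_le_mul hT (Nat.mul_le_mul_right _ e4)
    _ < (T + 1) * ((T + 1) ^ (q * c) * (T + 1) ^ ρ) :=
        Nat.mul_lt_mul_of_pos_right (by omega) (Nat.pos_of_ne_zero (by positivity))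
    _ = (T + 1) ^ (ρ + 1 + q * c) := by ring
    _ = (T + 1) ^ N := by rw [hN]

theorem NoRL_max {r : ℕ} (c' : Fin r → ℂ) (hc : c' ≠ 0) :
    ∃ k0, c' k0 ≠ 0 ∧ ∀ k, ‖c' k‖ ≤ ‖c' k0‖ := by
  obtain ⟨k1, hk1⟩ := Function.ne_iff.1 hc
  obtain ⟨k0, _, hmax⟩ := Finset.exists_max_image (Finset.univ : Finset (Fin r))
    (fun k => ‖c' k‖) ⟨k1, Finset.mem_univ _⟩
  refine ⟨k0, ?_, fun k => hmax k (Finset.mem_univ _)⟩
  intro h0
  have h1 := hmax k1 (Finset.mem_univ _)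
  rw [h0, norm_zero] at h1
  exact hk1 (norm_le_zero_iff.1 h1)

theorem pr_NoRL (h1 : S_LA) (h2 : GL.S_ManyInd) : S_NoRL := by
  classical
  intro r q c hr
  obtain ⟨n₀, hn₀⟩ := h1 r (q * c) hr
  refine ⟨n₀, ?_⟩
  intro N w hLg hRob
  obtain ⟨hκN, TL, hTL⟩ := hn₀ N w hLg hRob
  refine ⟨TL + (r * N + 2) + 2 ^ c * 2 ^ N, ?_⟩
  intro T hT w' hw c' hc'
  by_contra hcon
  rw [not_lt] at hcon
  obtain ⟨D, hD⟩ : ∃ D : ℕ, D = 2 ^ c * 2 ^ N := ⟨_, rfl⟩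
  rw [← hD] at hT
  have hT1 : TL ≤ T := by omega
  have hT2 : r * N + 2 ≤ T := by omega
  have hT3 : 2 ^ c * 2 ^ N ≤ T := by rw [← hD]; omega
  obtain ⟨k0, hk0, hmax⟩ := NoRL_max c' hc'
  have hk0' : 0 < ‖c' k0‖ := norm_pos_iff.2 hk0
  obtain ⟨ψ, hψ⟩ : ∃ ψ : Fin r → ℂ, ψ = fun k => c' k / c' k0 := ⟨_, rfl⟩
  have hψ1 : ∀ k, ‖ψ k‖ ≤ 1 := by
    intro k
    rw [hψ]
    show ‖c' k / c' k0‖ ≤ 1
    rw [norm_div, div_le_one hk0']
    exact hmax k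
  have hψ0 : ψ k0 = 1 := by
    rw [hψ]
    exact div_self hk0
  have hsr : ∀ s : Fin N → ℤ, (∀ i, |s i| ≤ (T : ℤ)) → ∀ i, |(s i : ℝ)| ≤ (T : ℝ) := by
    intro s hs i
    have e : ((|s i| : ℤ) : ℝ) ≤ ((T : ℤ) : ℝ) := by exact_mod_cast hs i
    rw [Int.cast_abs] at e
    exact_mod_cast e
  have hnum1 := NoRL_num1 r N T hT2
  -- small values
  have hsmall : ∀ s : Fin N → ℤ, (∀ i, |s i| ≤ (T : ℤ)) →
      ∑ i, (s i : ℂ) * (∑ k, c' k * w' i k) = 0 →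
      ‖NoRL_L ψ w s‖ ≤ Real.exp (-((T : ℝ) ^ (3 * r + 5))) := by
    intro s hs hs0
    have e1 : NoRL_L ψ w' s = 0 := by
      have e2 : NoRL_L ψ w' s = (∑ i, (s i : ℂ) * (∑ k, c' k * w' i k)) / c' k0 := by
        unfold NoRL_L
        rw [hψ, Finset.sum_div]
        simp only [Finset.mul_sum, Finset.sum_div]
        rw [Finset.sum_comm]
        refine Finset.sum_congr rfl fun i _ => Finset.sum_congr rfl fun k _ => ?_
        ring
      rw [e2, hs0, zero_div]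
    have e3 := NoRL_bd ψ w w' s T (Real.exp (-((T : ℝ) ^ (3 * r + 6)))) hψ1 (hsr s hs) hw
      (Nat.cast_nonneg T)
    rw [e1, sub_zero] at e3
    exact e3.trans hnum1
  have hfinal : ∀ M : ℕ, M = N - q * c → ∀ t : Fin M → Fin N → ℤ,
      LinearIndependent ℚ (fun j => (fun i => (t j i : ℚ))) →
      (∀ j i, |t j i| ≤ (T : ℤ)) →
      (∀ j, ‖NoRL_L ψ w (t j)‖ ≤ Real.exp (-((T : ℝ) ^ (3 * r + 5)))) → False := by
    rintro M rfl t ht htb hts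
    exact hTL T hT1 ψ ⟨k0, by rw [hψ0, norm_one]⟩ t ht htb hts
  rcases Nat.eq_zero_or_pos (N - q * c) with h0 | h0
  · exact hfinal 0 h0.symm (fun j => j.elim0) (linearIndependent_empty_type)
      (fun j => j.elim0) (fun j => j.elim0)
  · obtain ⟨ρ, hρ⟩ : ∃ ρ : ℕ, N - q * c = ρ + 1 := ⟨N - q * c - 1, by omega⟩
    have hbig : (2 * T + 1) ^ ρ <
        Set.ncard {s : Fin N → ℤ | (∀ i, |s i| ≤ (T : ℤ)) ∧
          s ∈ {s : Fin N → ℤ | ∑ i, (s i : ℂ) * (∑ k, c' k * w' i k) = 0}} := by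
      by_contra hle
      rw [not_lt] at hle
      have e1 := NoRL_num2 q c T N ρ (by omega) hT3
      have e2 : (2 * T ^ q) ^ c * cntL T (fun i => ∑ k, c' k * w' i k) ≤
          (2 * T ^ q) ^ c * (2 * T + 1) ^ ρ := Nat.mul_le_mul_left _ hle
      omega
    obtain ⟨t, htL, htb, hti⟩ := h2 N T ρ _ hbig
    exact hfinal (ρ + 1) hρ.symm t hti htb (fun j => hsmall (t j) (htb j) (htL j))

end Pool.Agent.Work.MP_327059_nt.FR
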