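import Mathlib
import Pool.Agent.Work.MP_327059_nt.FR.Stmts2
import Pool.Agent.Work.MP_327059_nt.Bd.B11

/-!
# Item NoRY: multiplicative relations close to the true point are impossible
-/

set_option autoImplicit false

namespace Pool.Agent.Work.MP_327059_nt.FR

open MvPolynomial Pool.Agent.Work.MP_327059_nt.GL

/-- The linear form. -/
noncomputable def NoRY_L {N r m : ℕ} (φ : Fin m → Fin r → ℂ) (w : Fin N → Fin r → ℂ)
    (W : Fin m → ℤ) (s : Fin N → ℤ) : ℂ :=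
  ∑ k, (∑ j, (W j : ℂ) * φ j k) * ∑ i, (s i : ℂ) * w i k

theorem NoRY_exp {N r m : ℕ} (φ : Fin m → Fin r → ℂ) (w : Fin N → Fin r → ℂ) (W : Fin m → ℤ)
    (s : Fin N → ℤ) :
    ∏ p : Fin N × Fin m, ey φ w p.1 p.2 ^ (s p.1 * W p.2) = Complex.exp (NoRY_L φ w W s) := by
  have h1 : NoRY_L φ w W s =
      ∑ p : Fin N × Fin m, ((s p.1 * W p.2 : ℤ) : ℂ) * (∑ k, φ p.2 k * w p.1 k) := by
    unfold NoRY_L
    rw [Fintype.sum_prod_type]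
    simp only [Finset.mul_sum, Finset.sum_mul]
    rw [Finset.sum_comm]
    refine Finset.sum_congr rfl fun i _ => ?_
    rw [Finset.sum_comm]
    refine Finset.sum_congr rfl fun j _ => Finset.sum_congr rfl fun k _ => ?_
    push_cast
    ring
  rw [h1, Complex.exp_sum]
  refine Finset.prod_congr rfl (fun p _ => ?_)
  rw [Complex.exp_int_mul]
  rfl

theorem NoRY_sub {N r m : ℕ} (φ : Fin m → Fin r → ℂ) (w : Fin N → Fin r → ℂ) (W : Fin m → ℤ)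
    (s s' : Fin N → ℤ) :
    NoRY_L φ w W (fun i => s i - s' i) = NoRY_L φ w W s - NoRY_L φ w W s' := by
  unfold NoRY_L
  rw [← Finset.sum_sub_distrib]
  refine Finset.sum_congr rfl fun k _ => ?_
  rw [← mul_sub, ← Finset.sum_sub_distrib]
  congr 1
  refine Finset.sum_congr rfl fun i _ => ?_
  push_cast
  ring

theorem NoRY_bd {N r m : ℕ} (φ : Fin m → Fin r → ℂ) (w : Fin N → Fin r → ℂ) (W : Fin m → ℤ)
    (s : Fin N → ℤ) (W0 T : ℝ) (hW : ∀ j, |(W j : ℝ)| ≤ W0) (hs : ∀ i, |(s i : ℝ)| ≤ T)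
    (hW0 : 0 ≤ W0) :
    ‖NoRY_L φ w W s‖ ≤ W0 * T * ∑ k, (∑ j, ‖φ j k‖) * ∑ i, ‖w i k‖ := by
  unfold NoRY_L
  refine (norm_sum_le _ _).trans ?_
  rw [Finset.mul_sum]
  refine Finset.sum_le_sum fun k _ => ?_
  rw [norm_mul]
  calc ‖∑ j, (W j : ℂ) * φ j k‖ * ‖∑ i, (s i : ℂ) * w i k‖
      ≤ (W0 * ∑ j, ‖φ j k‖) * (T * ∑ i, ‖w i k‖) := by
        refine mul_le_mul (NoRelY_norm (fun j => φ j k) W W0 hW)
          (NoRelY_norm (fun i => w i k) s T hs) (norm_nonneg _) ?_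
        exact mul_nonneg hW0 (Finset.sum_nonneg fun _ _ => norm_nonneg _)
    _ = W0 * T * ((∑ j, ‖φ j k‖) * ∑ i, ‖w i k‖) := by ring

theorem NoRY_near {N r m : ℕ} (φ : Fin m → Fin r → ℂ) (w : Fin N → Fin r → ℂ) (B : ℝ)
    (hB1 : 1 ≤ B)
    (hB : ∀ (ε : ℝ) (E : ℕ) (a' : Fin N × Fin m → ℂ) (e : Fin N × Fin m → ℤ), 0 ≤ ε →
      (∀ i, ‖a' i - ey φ w i.1 i.2‖ ≤ ε) →
      (∀ i, |e i| ≤ (E : ℤ)) → B * E * ε ≤ 1 → B * ε ≤ 1 → ∏ i, a' i ^ e i = 1 →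
      ‖∏ i : Fin N × Fin m, ey φ w i.1 i.2 ^ e i - 1‖ ≤ B * E * ε)
    (h6 : S_NearLog) (T W0 : ℕ) (hT : 1 ≤ T) (hW : 1 ≤ W0) (ε : ℝ) (hε : 0 ≤ ε)
    (hs : 2 * (B * ((T * W0 : ℕ) : ℝ) * ε) ≤ 1) (y' : Fin N → Fin m → ℂ)
    (hy : ∀ i j, ‖y' i j - ey φ w i j‖ ≤ ε) (W : Fin m → ℤ)
    (hw : ∀ j, |W j| ≤ (W0 : ℤ)) (t : Fin N → ℤ) (ht : ∀ i, |t i| ≤ (T : ℤ))
    (h1 : ∏ i, ∏ j, y' i j ^ (t i * W j) = 1) :
    ∃ k : ℤ, ‖NoRY_L φ w W t - 2 * Real.pi * Complex.I * k‖ ≤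
      2 * (B * ((T * W0 : ℕ) : ℝ) * ε) := by
  have hTW : (1 : ℝ) ≤ ((T * W0 : ℕ) : ℝ) := by
    exact_mod_cast Nat.mul_pos hT hW
  have h2 := hB ε (T * W0) (fun p => y' p.1 p.2) (fun p => t p.1 * W p.2) hε
    (fun p => hy p.1 p.2)
    (fun p => by
      rw [abs_mul]
      push_cast
      exact mul_le_mul (ht p.1) (hw p.2) (abs_nonneg _) (by positivity))
    (by
      have : 0 ≤ B * ((T * W0 : ℕ) : ℝ) * ε := by positivity
      linarith)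
    (by
      have h3 : B * ε ≤ B * ((T * W0 : ℕ) : ℝ) * ε := by
        have : B * ε * 1 ≤ B * ε * ((T * W0 : ℕ) : ℝ) :=
          mul_le_mul_of_nonneg_left hTW (by positivity)
        nlinarith
      have : 0 ≤ B * ((T * W0 : ℕ) : ℝ) * ε := by positivity
      linarith)
    (by rw [Fintype.prod_prod_type]; exact h1)
  have h4 : ‖Complex.exp (NoRY_L φ w W t) - 1‖ ≤ B * ((T * W0 : ℕ) : ℝ) * ε := by
    rw [← NoRY_exp]
    exact h2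
  obtain ⟨k, hk⟩ := h6 (NoRY_L φ w W t) (by linarith)
  exact ⟨k, by linarith⟩

/-- pigeonhole -/
theorem NoRY_pig {N : ℕ} (A : Finset (Fin N → ℤ)) (k : (Fin N → ℤ) → ℤ) (K : ℕ)
    (hk : ∀ s ∈ A, |k s| ≤ (K : ℤ)) (hA : A.Nonempty) :
    ∃ s0 ∈ A, A.card ≤ (2 * K + 1) * (A.filter (fun s => k s = k s0)).card := by
  classical
  have hmap : ∀ s ∈ A, k s ∈ A.image k := fun s hs => Finset.mem_image_of_mem k hs
  have hc : (A.image k).card ≤ 2 * K + 1 := by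
    have h1 : A.image k ⊆ Finset.Icc (-(K : ℤ)) K := by
      intro x hx
      obtain ⟨s, hs, rfl⟩ := Finset.mem_image.mp hx
      rw [Finset.mem_Icc]
      exact abs_le.mp (hk s hs)
    refine (Finset.card_le_card h1).trans ?_
    rw [Int.card_Icc]
    omega
  obtain ⟨x, hx, hmax⟩ := Finset.exists_max_image (A.image k)
    (fun x => (A.filter (fun s => k s = x)).card) (hA.image k)
  obtain ⟨s0, hs0, rfl⟩ := Finset.mem_image.mp hx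
  refine ⟨s0, hs0, ?_⟩
  calc A.card = ∑ x ∈ A.image k, (A.filter (fun s => k s = x)).card :=
        Finset.card_eq_sum_card_fiberwise hmap
    _ ≤ (A.image k).card • (A.filter (fun s => k s = k s0)).card :=
        Finset.sum_le_card_nsmul _ _ _ hmax
    _ ≤ (2 * K + 1) * (A.filter (fun s => k s = k s0)).card := by
        rw [smul_eq_mul]
        exact Nat.mul_le_mul_right _ hc

theorem NoRY_fin {N S : ℕ} (p : (Fin N → ℤ) → Prop) :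
    ({s : Fin N → ℤ | (∀ i, |s i| ≤ (S : ℤ)) ∧ p s}).Finite := by
  refine Set.Finite.subset (Set.Finite.pi' (t := fun _ => Set.Icc (-(S : ℤ)) S)
    (fun _ => Set.finite_Icc _ _)) ?_
  intro s hs i
  have := hs.1 i
  rw [abs_le] at this
  exact this

/-- counting differences -/
theorem NoRY_cnt {N T K : ℕ} (p : (Fin N → ℤ) → Prop) (k : (Fin N → ℤ) → ℤ)
    (Λ : Set (Fin N → ℤ))
    (hk : ∀ s : Fin N → ℤ, (∀ i, |s i| ≤ (T : ℤ)) → p s → |k s| ≤ (K : ℤ))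
    (hΛ : ∀ s s' : Fin N → ℤ, (∀ i, |s i| ≤ (T : ℤ)) → p s → (∀ i, |s' i| ≤ (T : ℤ)) → p s' →
      k s = k s' → (fun i => s i - s' i) ∈ Λ)
    (hne : 0 < Set.ncard {s : Fin N → ℤ | (∀ i, |s i| ≤ (T : ℤ)) ∧ p s}) :
    Set.ncard {s : Fin N → ℤ | (∀ i, |s i| ≤ (T : ℤ)) ∧ p s} ≤ (2 * K + 1) *
      Set.ncard {s : Fin N → ℤ | (∀ i, |s i| ≤ ((2 * T : ℕ) : ℤ)) ∧ s ∈ Λ} := by
  classical
  have hfin := NoRY_fin (N := N) (S := T) p
  have hAc : Set.ncard {s : Fin N → ℤ | (∀ i, |s i| ≤ (T : ℤ)) ∧ p s} = hfin.toFinset.card :=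
    Set.ncard_eq_toFinset_card _ hfin
  have hmem : ∀ s, s ∈ hfin.toFinset ↔ (∀ i, |s i| ≤ (T : ℤ)) ∧ p s := fun s => by
    rw [Set.Finite.mem_toFinset]; rfl
  rw [hAc] at hne ⊢
  obtain ⟨s0, hs0, hcard⟩ := NoRY_pig hfin.toFinset k K
    (fun s hs => hk s ((hmem s).1 hs).1 ((hmem s).1 hs).2) (Finset.card_pos.1 hne)
  refine hcard.trans (Nat.mul_le_mul_left _ ?_)
  rw [← Set.ncard_coe_finset]
  have hs0' := (hmem s0).1 hs0
  refine Set.ncard_le_ncard_of_injOn (fun s => fun i => s i - s0 i) ?_ ?_ (NoRY_fin _)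
  · intro s hs
    have hs1 := Finset.mem_filter.1 (Finset.mem_coe.1 hs)
    have hs2 := (hmem s).1 hs1.1
    refine ⟨fun i => ?_, hΛ s s0 hs2.1 hs2.2 hs0'.1 hs0'.2 hs1.2⟩
    have h3 := abs_le.1 (hs2.1 i)
    have h4 := abs_le.1 (hs0'.1 i)
    show |s i - s0 i| ≤ ((2 * T : ℕ) : ℤ)
    rw [abs_le]
    push_cast
    constructor <;> omega
  · intro s _ s' _ hss'
    funext i
    have := congrFun hss' i
    simp only at this
    omega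

/-- numerical inequality 1 -/
theorem NoRY_num1 (q c r T : ℕ) (B : ℝ) (hB : 1 ≤ B) (hBT : B ≤ T) (h : 2 ^ (c + 1) ≤ T)
    (h' : q * c + 3 ≤ T) :
    2 * (B * ((T * (2 * T ^ q) ^ c : ℕ) : ℝ) * Real.exp (-((T : ℝ) ^ (3 * r + 6)))) ≤ 1 := by
  have hT : (1 : ℝ) ≤ T := hB.trans hBT
  refine le_trans ?_ (NoRelY_num1 q c T B hB hBT h h')
  have h1 : (T : ℝ) ^ 3 ≤ (T : ℝ) ^ (3 * r + 6) := pow_le_pow_right₀ hT (by omega)
  have h2 : Real.exp (-((T : ℝ) ^ (3 * r + 6))) ≤ Real.exp (-(T : ℝ) ^ 3) :=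
    Real.exp_le_exp.2 (by linarith)
  have h3 : 0 ≤ B * ((T * (2 * T ^ q) ^ c : ℕ) : ℝ) := by positivity
  have := mul_le_mul_of_nonneg_left h2 h3
  linarith

/-- numerical inequality 2 -/
theorem NoRY_num2 (q c r T cb : ℕ) (B : ℝ) (hB : 1 ≤ B) (hBT : B ≤ T)
    (h : 2 ^ (c + 1) ≤ T) (hN : 2 ^ (3 * r + 5) + ((q * c + 1) * (cb + 1) + 3) ≤ T) :
    (2 * (((2 * T ^ q) ^ c : ℕ) : ℝ)) ^ cb *
      (2 * (2 * (B * ((T * (2 * T ^ q) ^ c : ℕ) : ℝ) * Real.exp (-((T : ℝ) ^ (3 * r + 6)))))) ≤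
      Real.exp (-(((2 * T : ℕ) : ℝ) ^ (3 * r + 5))) := by
  have hT : (1 : ℝ) ≤ T := hB.trans hBT
  have h1 := NoRelY_2W q c T h
  obtain ⟨U, hU⟩ : ∃ U : ℝ, U = 2 * (((2 * T ^ q) ^ c : ℕ) : ℝ) := ⟨_, rfl⟩
  have hU0 : 0 ≤ U := by rw [hU]; positivity
  obtain ⟨M, hM⟩ : ∃ M : ℕ, M = (q * c + 1) * (cb + 1) + 3 := ⟨_, rfl⟩
  have h2 := NoRelY_powexp T M
  have hN' : ((2 : ℝ) ^ (3 * r + 5) + M) ≤ T := by rw [hM]; exact_mod_cast hN
  have h2T : (2 : ℝ) ≤ T := by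
    have e1 : 2 ≤ T := by
      have : 2 ^ 1 ≤ 2 ^ (c + 1) := Nat.pow_le_pow_right (by norm_num) (by omega)
      omega
    exact_mod_cast e1
  have hp : (1 : ℝ) ≤ (T : ℝ) ^ (3 * r + 4) := one_le_pow₀ hT
  have h4 : (M : ℝ) * T + -((T : ℝ) ^ (3 * r + 6)) ≤ -(((2 * T : ℕ) : ℝ) ^ (3 * r + 5)) := by
    have e1 : (((2 * T : ℕ) : ℝ) ^ (3 * r + 5)) = 2 ^ (3 * r + 5) * (T : ℝ) ^ (3 * r + 5) := by
      push_cast
      rw [mul_pow]
    have e2 : (T : ℝ) ^ (3 * r + 6) = T * (T : ℝ) ^ (3 * r + 5) := by ring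
    have e3 : (T : ℝ) ^ (3 * r + 5) = T * (T : ℝ) ^ (3 * r + 4) := by ring
    have e4 : (T : ℝ) ≤ (T : ℝ) ^ (3 * r + 5) := by
      rw [e3]
      nlinarith
    have e5 : (M : ℝ) * T ≤ M * (T : ℝ) ^ (3 * r + 5) :=
      mul_le_mul_of_nonneg_left e4 (Nat.cast_nonneg M)
    have e6 : ((2 : ℝ) ^ (3 * r + 5) + M) * (T : ℝ) ^ (3 * r + 5) ≤ T * (T : ℝ) ^ (3 * r + 5) :=
      mul_le_mul_of_nonneg_right hN' (by positivity)
    rw [e1, e2]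
    nlinarith
  calc (2 * (((2 * T ^ q) ^ c : ℕ) : ℝ)) ^ cb *
      (2 * (2 * (B * ((T * (2 * T ^ q) ^ c : ℕ) : ℝ) * Real.exp (-((T : ℝ) ^ (3 * r + 6))))))
      = U ^ (cb + 1) * (2 * B * T) * Real.exp (-((T : ℝ) ^ (3 * r + 6))) := by
        rw [hU]; push_cast; ring
    _ ≤ ((T : ℝ) ^ (q * c + 1)) ^ (cb + 1) * (T * T * T) *
          Real.exp (-((T : ℝ) ^ (3 * r + 6))) := by
        apply mul_le_mul_of_nonneg_right _ (Real.exp_pos _).le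
        apply mul_le_mul _ _ (by positivity) (by positivity)
        · exact pow_le_pow_left₀ hU0 (by rw [hU]; exact h1) _
        · apply mul_le_mul_of_nonneg_right _ (by linarith)
          exact mul_le_mul h2T hBT (by linarith) (by positivity)
    _ = (T : ℝ) ^ M * Real.exp (-((T : ℝ) ^ (3 * r + 6))) := by
        rw [hM, ← pow_mul, pow_add]; ring
    _ ≤ Real.exp ((M : ℝ) * T) * Real.exp (-((T : ℝ) ^ (3 * r + 6))) :=
        mul_le_mul_of_nonneg_right h2 (Real.exp_pos _).le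
    _ = Real.exp ((M : ℝ) * T + -((T : ℝ) ^ (3 * r + 6))) := by rw [← Real.exp_add]
    _ ≤ Real.exp (-(((2 * T : ℕ) : ℝ) ^ (3 * r + 5))) := Real.exp_le_exp.2 h4

/-- numerical inequality 3 -/
theorem NoRY_num3 (q c T K N ρ : ℕ) (hK : 1 ≤ K) (hN : ρ + 1 + (2 * (q * c) + 2) = N)
    (hT1 : 1 ≤ T) (hT : 4 ^ c * (3 * K) * 4 ^ N ≤ T) :
    (2 * T ^ q) ^ c * ((2 * (T * (2 * T ^ q) ^ c * K) + 1) * (2 * (2 * T) + 1) ^ ρ) <
      (T + 1) ^ N := by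
  have hW : (2 * T ^ q) ^ c = 2 ^ c * T ^ (q * c) := NoRelY_W q c T
  have hWp : 1 ≤ (2 * T ^ q) ^ c := Nat.one_le_pow _ _ (by
    have := Nat.one_le_pow q T hT1
    omega)
  have e1 : 1 ≤ T * (2 * T ^ q) ^ c * K := Nat.mul_pos (Nat.mul_pos hT1 hWp) hK
  have e2 : 2 * (T * (2 * T ^ q) ^ c * K) + 1 ≤ 3 * (T * (2 * T ^ q) ^ c * K) := by omega
  have e3 : (2 * (2 * T) + 1) ^ ρ ≤ 4 ^ N * (T + 1) ^ ρ := by
    calc (2 * (2 * T) + 1) ^ ρ ≤ (4 * (T + 1)) ^ ρ := Nat.pow_le_pow_left (by omega) _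
      _ = 4 ^ ρ * (T + 1) ^ ρ := mul_pow _ _ _
      _ ≤ 4 ^ N * (T + 1) ^ ρ :=
        Nat.mul_le_mul_right _ (Nat.pow_le_pow_right (by norm_num) (by omega))
  have e4 : T ^ (2 * (q * c) + 1) ≤ (T + 1) ^ (2 * (q * c) + 1) :=
    Nat.pow_le_pow_left (by omega) _
  calc (2 * T ^ q) ^ c * ((2 * (T * (2 * T ^ q) ^ c * K) + 1) * (2 * (2 * T) + 1) ^ ρ)
      ≤ (2 * T ^ q) ^ c * ((3 * (T * (2 * T ^ q) ^ c * K)) * (4 ^ N * (T + 1) ^ ρ)) :=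
        Nat.mul_le_mul_left _ (Nat.mul_le_mul e2 e3)
    _ = (4 ^ c * (3 * K) * 4 ^ N) * (T ^ (2 * (q * c) + 1) * (T + 1) ^ ρ) := by
        rw [hW]
        have : (4 : ℕ) ^ c = 2 ^ c * 2 ^ c := by
          rw [← mul_pow]
          norm_num
        rw [this]
        ring
    _ ≤ T * ((T + 1) ^ (2 * (q * c) + 1) * (T + 1) ^ ρ) :=
        Nat.mul_le_mul hT (Nat.mul_le_mul_right _ e4)
    _ < (T + 1) * ((T + 1) ^ (2 * (q * c) + 1) * (T + 1) ^ ρ) :=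
        Nat.mul_lt_mul_of_pos_right (by omega) (Nat.pos_of_ne_zero (by positivity))
    _ = (T + 1) ^ (ρ + (2 * (q * c) + 2)) := by ring
    _ ≤ (T + 1) ^ N := Nat.pow_le_pow_right (Nat.succ_pos T) (by omega)

theorem pr_NoRY (h1 : S_LA) (h2 : S_LiV) (h3 : GL.S_ManyInd) (h4 : GL.S_Pert)
    (h5 : GL.S_NearLog) : S_NoRY := by
  classical
  intro r m q c hr
  obtain ⟨n₀, hn₀⟩ := h1 r (2 * (q * c) + 2) hr
  refine ⟨n₀, ?_⟩
  intro φ hφ hφl N w hLg hRob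
  obtain ⟨hκN, TL, hTL⟩ := hn₀ N w hLg hRob
  obtain ⟨cb, hcb⟩ := h2 r m φ hφ hφl
  obtain ⟨B, hB1, hB⟩ := h4 (Fin N × Fin m) (fun p => ey φ w p.1 p.2)
    (fun p => Complex.exp_ne_zero _)
  obtain ⟨Cs, hCs⟩ : ∃ Cs : ℝ, Cs = ∑ k, (∑ j, ‖φ j k‖) * ∑ i, ‖w i k‖ := ⟨_, rfl⟩
  have hCs0 : 0 ≤ Cs := by
    rw [hCs]
    exact Finset.sum_nonneg fun _ _ => mul_nonneg
      (Finset.sum_nonneg fun _ _ => norm_nonneg _) (Finset.sum_nonneg fun _ _ => norm_nonneg _)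
  obtain ⟨K, hK⟩ : ∃ K : ℕ, Cs + 1 ≤ K := ⟨_, Nat.le_ceil _⟩
  have hK1 : 1 ≤ K := by
    have : (1 : ℝ) ≤ K := by linarith
    exact_mod_cast this
  obtain ⟨Bc, hBc⟩ : ∃ Bc : ℕ, B ≤ Bc := ⟨_, Nat.le_ceil _⟩
  refine ⟨TL + 2 ^ (c + 1) + (q * c + 3) + (2 ^ (3 * r + 5) + ((q * c + 1) * (cb + 1) + 3)) +
    Bc + (4 ^ c * (3 * K) * 4 ^ N) + 1, ?_⟩
  intro T hT y' hy W hW0 hW
  by_contra hcon
  rw [not_lt] at hcon
  obtain ⟨hT1, hT2, hT3, hT4, hT5, hT6, hT7⟩ := NoRelY_split _ _ _ _ _ _ _ _ hT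
  have hBT : B ≤ T := hBc.trans (by exact_mod_cast hT5)
  obtain ⟨V, hV⟩ : ∃ V : ℕ, V = (2 * T ^ q) ^ c := ⟨_, rfl⟩
  have hVpos : 1 ≤ V := by
    rw [hV]
    exact Nat.one_le_pow _ _ (by have := Nat.one_le_pow q T hT7; omega)
  have hnum1 := NoRY_num1 q c r T B hB1 hBT hT2 hT3
  have hnum2 := NoRY_num2 q c r T cb B hB1 hBT hT2 hT4
  rw [← hV] at hnum1 hnum2 hcon
  obtain ⟨η, hη⟩ : ∃ η : ℝ, η = 2 * (B * ((T * V : ℕ) : ℝ) *
    Real.exp (-((T : ℝ) ^ (3 * r + 6)))) := ⟨_, rfl⟩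
  rw [← hη] at hnum1 hnum2
  have hWr : ∀ j, |(W j : ℝ)| ≤ (V : ℝ) := by
    intro j
    have e : ((|W j| : ℤ) : ℝ) ≤ ((((2 * T ^ q) ^ c : ℕ) : ℤ) : ℝ) := by exact_mod_cast hW j
    rw [Int.cast_abs] at e
    rw [hV]
    exact_mod_cast e
  -- the integers `k`
  have hkex : ∀ s : Fin N → ℤ, ∃ k : ℤ, (∀ i, |s i| ≤ (T : ℤ)) →
      ∏ i, ∏ j, y' i j ^ (s i * W j) = 1 →
        ‖NoRY_L φ w W s - 2 * Real.pi * Complex.I * k‖ ≤ η := by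
    intro s
    by_cases hs : (∀ i, |s i| ≤ (T : ℤ)) ∧ ∏ i, ∏ j, y' i j ^ (s i * W j) = 1
    · obtain ⟨k, hk⟩ := NoRY_near φ w B hB1 hB h5 T V hT7 hVpos
        (Real.exp (-((T : ℝ) ^ (3 * r + 6)))) (Real.exp_pos _).le (by rw [← hη]; exact hnum1)
        y' hy W (by rw [hV]; exact_mod_cast hW) s hs.1 hs.2
      exact ⟨k, fun _ _ => by rw [hη]; exact hk⟩
    · exact ⟨0, fun a b => absurd ⟨a, b⟩ hs⟩
  choose k hk using hkex
  have hsr : ∀ s : Fin N → ℤ, (∀ i, |s i| ≤ (T : ℤ)) → ∀ i, |(s i : ℝ)| ≤ (T : ℝ) := by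
    intro s hs i
    have e : ((|s i| : ℤ) : ℝ) ≤ ((T : ℤ) : ℝ) := by exact_mod_cast hs i
    rw [Int.cast_abs] at e
    exact_mod_cast e
  have hkb : ∀ s : Fin N → ℤ, (∀ i, |s i| ≤ (T : ℤ)) →
      ∏ i, ∏ j, y' i j ^ (s i * W j) = 1 → |k s| ≤ ((T * V * K : ℕ) : ℤ) := by
    intro s hs hs1
    have e1 := NoRY_bd φ w W s V T hWr (hsr s hs) (Nat.cast_nonneg V)
    rw [← hCs] at e1
    have e2 := NoRelY_kbd _ (k s) _ e1 ((hk s hs hs1).trans hnum1)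
    have e3 : (V : ℝ) * T * Cs + 1 ≤ ((T * V * K : ℕ) : ℝ) := by
      have f1 : (1 : ℝ) ≤ (T : ℝ) * V := by exact_mod_cast Nat.mul_pos hT7 hVpos
      have f2 : (T : ℝ) * V * (Cs + 1) ≤ (T : ℝ) * V * K :=
        mul_le_mul_of_nonneg_left hK (by positivity)
      push_cast
      nlinarith
    have e4 : ((|k s| : ℤ) : ℝ) ≤ (((T * V * K : ℕ) : ℤ) : ℝ) := by
      rw [Int.cast_abs]
      exact_mod_cast e2.trans e3
    exact_mod_cast e4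
  -- differences
  have hcpos : 0 < cntY T y' W := by
    rcases Nat.eq_zero_or_pos (cntY T y' W) with h0 | h0
    · rw [h0, mul_zero] at hcon
      exact absurd hcon (not_le.mpr (pow_pos (Nat.succ_pos _) _))
    · exact h0
  have hcnt := NoRY_cnt (N := N) (T := T) (K := T * V * K)
    (fun s => ∏ i, ∏ j, y' i j ^ (s i * W j) = 1) k
    {s | ‖NoRY_L φ w W s‖ ≤ 2 * η} hkb (by
      intro s s' hs hs1 hs' hs1' hss
      show ‖NoRY_L φ w W (fun i => s i - s' i)‖ ≤ 2 * η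
      rw [NoRY_sub]
      have e1 := hk s hs hs1
      have e2 := hk s' hs' hs1'
      rw [hss] at e1
      calc ‖NoRY_L φ w W s - NoRY_L φ w W s'‖ =
            ‖(NoRY_L φ w W s - 2 * Real.pi * Complex.I * k s') -
              (NoRY_L φ w W s' - 2 * Real.pi * Complex.I * k s')‖ := by
            congr 1
            ring
        _ ≤ η + η := (norm_sub_le _ _).trans (add_le_add e1 e2)
        _ = 2 * η := by ring) hcpos
  -- contradiction with `S_LA`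
  obtain ⟨k1, hk1⟩ := hcb W hW0 (2 * (V : ℝ)) (by
    have : (1 : ℝ) ≤ V := by exact_mod_cast hVpos
    linarith) (fun j => (hWr j).trans (by
      have : (0 : ℝ) ≤ V := Nat.cast_nonneg V
      linarith))
  have hV0 : 0 < (2 * (V : ℝ)) ^ cb := by
    have : (1 : ℝ) ≤ V := by exact_mod_cast hVpos
    positivity
  have hfinal : ∀ M : ℕ, M = N - (2 * (q * c) + 2) → ∀ t : Fin M → Fin N → ℤ,
      LinearIndependent ℚ (fun j => (fun i => (t j i : ℚ))) →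
      (∀ j i, |t j i| ≤ ((2 * T : ℕ) : ℤ)) →
      (∀ j, ‖NoRY_L φ w W (t j)‖ ≤ 2 * η) → False := by
    rintro M rfl t ht htb hts
    refine hTL (2 * T) (by omega)
      (fun k => ((2 * (V : ℝ)) ^ cb : ℝ) * ∑ j, (W j : ℂ) * φ j k) ⟨k1, ?_⟩ t ht htb ?_
    · rw [norm_mul, Complex.norm_real, Real.norm_of_nonneg hV0.le]
      calc (1 : ℝ) = (2 * (V : ℝ)) ^ cb * ((2 * (V : ℝ)) ^ cb)⁻¹ := by
            rw [mul_inv_cancel₀ hV0.ne']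
        _ ≤ _ := mul_le_mul_of_nonneg_left hk1 hV0.le
    · intro j
      have e1 : ∑ k, (((2 * (V : ℝ)) ^ cb : ℝ) * ∑ j, (W j : ℂ) * φ j k) *
          ∑ i, (t j i : ℂ) * w i k = ((2 * (V : ℝ)) ^ cb : ℝ) * NoRY_L φ w W (t j) := by
        unfold NoRY_L
        rw [Finset.mul_sum]
        refine Finset.sum_congr rfl fun k _ => ?_
        ring
      rw [e1, norm_mul, Complex.norm_real, Real.norm_of_nonneg hV0.le]
      exact (mul_le_mul_of_nonneg_left (hts j) hV0.le).trans hnum2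
  rcases Nat.eq_zero_or_pos (N - (2 * (q * c) + 2)) with h0 | h0
  · exact hfinal 0 h0.symm (fun j => j.elim0) (linearIndependent_empty_type)
      (fun j => j.elim0) (fun j => j.elim0)
  · obtain ⟨ρ, hρ⟩ : ∃ ρ : ℕ, N - (2 * (q * c) + 2) = ρ + 1 := ⟨N - (2 * (q * c) + 2) - 1, by omega⟩
    have hbig : (2 * (2 * T) + 1) ^ ρ <
        Set.ncard {s : Fin N → ℤ | (∀ i, |s i| ≤ ((2 * T : ℕ) : ℤ)) ∧
          s ∈ {s | ‖NoRY_L φ w W s‖ ≤ 2 * η}} := by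
      by_contra hle
      rw [not_lt] at hle
      have e1 := NoRY_num3 q c T K N ρ hK1 (by omega) hT7 hT6
      rw [← hV] at e1
      have e2 : V * cntY T y' W ≤ V * ((2 * (T * V * K) + 1) * (2 * (2 * T) + 1) ^ ρ) :=
        Nat.mul_le_mul_left _ (hcnt.trans (Nat.mul_le_mul_left _ hle))
      omega
    obtain ⟨t, htL, htb, hti⟩ := h3 N (2 * T) ρ {s | ‖NoRY_L φ w W s‖ ≤ 2 * η} hbig
    exact hfinal (ρ + 1) hρ.symm t hti htb htL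

end Pool.Agent.Work.MP_327059_nt.FR
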