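import Mathlib
import Pool.Agent.Work.MP_327059_nt.FR.Stmts

/-!
# Item NoZr: no polynomial of degree `≤ T^q` vanishes on the perturbed points
-/

set_option autoImplicit false

namespace Pool.Agent.Work.MP_327059_nt.FR

open MvPolynomial Filter Topology Pool.Agent.Work.MP_327059_nt.GL

theorem NoZr_rob {N r n n' : ℕ} {w : Fin N → Fin r → ℂ} (h : n' ≤ n) (hw : Rob n w) :
    Rob n' w := fun c hc => h.trans (hw c hc)

theorem NoZr_nonzero {N r m : ℕ} (φ : Fin m → Fin r → ℂ) (w : Fin N → Fin r → ℂ) :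
    ∃ T₀ : ℕ, ∀ T : ℕ, T₀ ≤ T → ∀ i j, Real.exp (-((T : ℝ) ^ (3 * r + 6))) < ‖ey φ w i j‖ := by
  have h1 : Tendsto (fun T : ℕ => Real.exp (-((T : ℝ) ^ (3 * r + 6)))) atTop (𝓝 0) := by
    refine Real.tendsto_exp_atBot.comp ?_
    refine tendsto_neg_atTop_atBot.comp ?_
    exact (tendsto_pow_atTop (by omega)).comp tendsto_natCast_atTop_atTop
  have h2 : ∀ᶠ T : ℕ in atTop, ∀ i j,
      Real.exp (-((T : ℝ) ^ (3 * r + 6))) < ‖ey φ w i j‖ := by
    rw [eventually_all]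
    intro i
    rw [eventually_all]
    intro j
    exact h1.eventually_lt_const (norm_pos_iff.2 (Complex.exp_ne_zero _))
  obtain ⟨T₀, hT₀⟩ := eventually_atTop.1 h2
  exact ⟨T₀, hT₀⟩

theorem pr_NoZr (h1 : S_ZEr) (h2 : S_NoRY) (h3 : S_NoRL) : S_NoZr := by
  intro r m q hr
  obtain ⟨c, hc⟩ := h1 m r
  obtain ⟨nY, hY⟩ := h2 r m q c hr
  obtain ⟨nL, hL⟩ := h3 r q c hr
  refine ⟨max nY nL, ?_⟩
  intro φ hφ hφi N w hw hR
  obtain ⟨TY, hTY⟩ := hY φ hφ hφi N w hw (NoZr_rob (le_max_left _ _) hR)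
  obtain ⟨TL, hTL⟩ := hL N w hw (NoZr_rob (le_max_right _ _) hR)
  obtain ⟨TN, hTN⟩ := NoZr_nonzero φ w
  refine ⟨max (max TY TL) (max TN 1), ?_⟩
  intro T hT w' y' hw' hy' P hP hzero
  have t1 : TY ≤ T := ((le_max_left _ _).trans (le_max_left _ _)).trans hT
  have t2 : TL ≤ T := ((le_max_right _ _).trans (le_max_left _ _)).trans hT
  have t3 : TN ≤ T := ((le_max_left _ _).trans (le_max_right _ _)).trans hT
  have t4 : 1 ≤ T := ((le_max_right _ _).trans (le_max_right _ _)).trans hT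
  have hne : ∀ i j, y' i j ≠ 0 := by
    intro i j h0
    have e1 := hy' i j
    rw [h0, zero_sub, norm_neg] at e1
    exact absurd (hTN T t3 i j) (not_lt.2 e1)
  by_contra hP0
  rcases hc N T (T ^ q) w' y' P hne hP0 (Nat.one_le_pow _ _ t4) hP hzero with
    ⟨W, hW0, hW, hcnt⟩ | ⟨c', hc0, hcnt⟩
  · exact absurd (hTY T t1 y' hy' W hW0 hW) (not_lt.2 hcnt)
  · exact absurd (hTL T t2 w' hw' c' hc0) (not_lt.2 hcnt)

end Pool.Agent.Work.MP_327059_nt.FR
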