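import Mathlib
import Pool.Agent.Work.MP_327059_nt.FR.Stmts

/-! Item `Piv` of the project FR (Problem MP_327059_nt): pivots of a subspace. -/

namespace Pool.Agent.Work.MP_327059_nt.FR

theorem Piv_span (m : ℕ) (V : Submodule ℂ (Fin m → ℂ)) :
    Submodule.span ℂ (Set.range (fun i : Fin m =>
      ((LinearMap.proj i).comp V.subtype : Module.Dual ℂ V))) = ⊤ := by
  rw [← Subspace.dualCoannihilator_dualAnnihilator_eq (W := Submodule.span ℂ (Set.range (fun i : Fin m =>
      ((LinearMap.proj i).comp V.subtype : Module.Dual ℂ V))))]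
  have h : (Submodule.span ℂ (Set.range (fun i : Fin m =>
      ((LinearMap.proj i).comp V.subtype : Module.Dual ℂ V)))).dualCoannihilator = ⊥ := by
    rw [eq_bot_iff]
    intro x hx
    rw [Submodule.mem_dualCoannihilator] at hx
    rw [Submodule.mem_bot]
    ext i
    exact hx _ (Submodule.subset_span ⟨i, rfl⟩)
  rw [h]
  exact Submodule.dualAnnihilator_bot

theorem pr_Piv : S_Piv := by
  classical
  intro m V
  obtain ⟨κ, a, ha, hs, hl⟩ := exists_linearIndependent' ℂ (fun i : Fin m =>
      ((LinearMap.proj i).comp V.subtype : Module.Dual ℂ V))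
  have : Finite κ := Finite.of_injective a ha
  have : Fintype κ := Fintype.ofFinite κ
  rw [Piv_span] at hs
  let B : Module.Basis κ ℂ (Module.Dual ℂ V) := Module.Basis.mk hl (by rw [hs])
  have hB : ∀ k, B k = ((LinearMap.proj (a k)).comp V.subtype : Module.Dual ℂ V) := by
    intro k
    simp [B]
  let d : κ → V := fun k => (Module.evalEquiv ℂ V).symm (B.dualBasis k)
  have hd : ∀ k k', (d k : Fin m → ℂ) (a k') = if k = k' then 1 else 0 := by
    intro k k'
    have h1 : (Module.evalEquiv ℂ V (d k)) (B k') = (B.dualBasis k) (B k') := by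
      simp [d]
    rw [hB] at h1
    have h2 : (Module.evalEquiv ℂ V (d k)) ((LinearMap.proj (a k')).comp V.subtype) =
        (d k : Fin m → ℂ) (a k') := by
      simp [Module.evalEquiv]
    rw [← h2, h1, ← hB, Module.Basis.dualBasis_apply_self]
    by_cases h : k = k'
    · simp [h]
    · have h' : k' ≠ k := fun h' => h h'.symm
      simp [h, h']
  have hJ : ∀ j : (Finset.univ.image a : Finset (Fin m)), ∃ k, a k = j := by
    intro j
    obtain ⟨k, _, hk⟩ := Finset.mem_image.1 j.2
    exact ⟨k, hk⟩
  choose e he using hJ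
  refine ⟨Finset.univ.image a, fun j => (d (e j) : Fin m → ℂ), ?_, ?_, ?_⟩
  · rw [Finset.card_image_of_injective _ ha, Finset.card_univ, ← Module.finrank_eq_card_basis B]
    exact Subspace.dual_finrank_eq
  · intro j
    exact (d (e j)).2
  · intro j j'
    show (d (e j) : Fin m → ℂ) (j' : Fin m) = if j = j' then 1 else 0
    rw [← he j', hd]
    by_cases h : j = j'
    · simp [h]
    · have : e j ≠ e j' := by
        intro h'
        apply h
        apply Subtype.ext
        rw [← he j, ← he j', h']
      simp [h, this]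

end Pool.Agent.Work.MP_327059_nt.FR
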