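import Mathlib
import Pool.Agent.Work.MP_327059_nt.FR.Stmts
import Pool.Agent.Work.MP_327059_nt.Bd.B11

/-!
# PROJECT FR: the auxiliary function in `r` variables
-/

set_option autoImplicit false

namespace Pool.Agent.Work.MP_327059_nt.FR

open MvPolynomial Pool.Agent.Work.MP_327059_nt.GL

theorem Psir_arith (r E τ q T : ℕ) (hE : r * (τ + 1) + 1 ≤ E)
    (hr : 1 ≤ r) (hq : 2 * r * (τ + 3) ≤ q) (hT : 4 ≤ T) :
    4 * (T ^ ((q + 1) * (τ + 1) + 2)) ^ ((2 * τ + 4) * r + 1) ≤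
      T ^ (q + 1) * (T ^ (q * E)) ^ (2 * τ + 4) := by
  rw [← pow_mul, ← pow_mul, ← pow_add]
  calc 4 * T ^ (((q + 1) * (τ + 1) + 2) * ((2 * τ + 4) * r + 1))
      ≤ T * T ^ (((q + 1) * (τ + 1) + 2) * ((2 * τ + 4) * r + 1)) :=
        Nat.mul_le_mul_right _ hT
    _ = T ^ (((q + 1) * (τ + 1) + 2) * ((2 * τ + 4) * r + 1) + 1) := by
        rw [pow_succ]; ring
    _ ≤ T ^ (q + 1 + q * E * (2 * τ + 4)) := by
        refine Nat.pow_le_pow_right (by omega) ?_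
        have h1 : q * (r * (τ + 1) + 1) * (2 * τ + 4) ≤ q * E * (2 * τ + 4) :=
          Nat.mul_le_mul_right _ (Nat.mul_le_mul_left _ hE)
        have h2 : 2 * r * (τ + 3) * (τ + 2) ≤ q * (τ + 2) := Nat.mul_le_mul_right _ hq
        have h3 : 2 * 1 * (τ + 3) ≤ 2 * r * (τ + 3) :=
          Nat.mul_le_mul_right _ (Nat.mul_le_mul_left _ hr)
        nlinarith [h1, h2, h3, hq]

theorem pr_Psir (h1 : S_PLg) (h2 : GL.S_Tay) : S_Psir := by
  intro r m e τ q he hr hE hq φ R0 hR0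
  set β : ℝ := ∑ j, ∑ k, ‖φ j k‖ with hβ
  have hβ0 : 0 ≤ β := Finset.sum_nonneg fun j _ => Finset.sum_nonneg fun k _ => norm_nonneg _
  obtain ⟨T₀, hT₀⟩ := exists_nat_ge
    (4 * ((4 + (((2 * τ + 4) * r : ℕ) : ℝ) * 4 ^ ((2 * τ + 4) * r)) +
      (((q + 1) * (τ + 1) + 2 : ℕ) : ℝ) * (((2 * τ + 4) * r : ℕ) : ℝ) +
      ((q * e + q * m : ℕ) : ℝ) * (((2 * τ + 4) * r : ℕ) : ℝ) + 1 +
      (2 * R0 + 2 * R0 * β) * (((2 * τ + 4) * r : ℕ) : ℝ)))
  refine ⟨T₀ + 4, fun T hT => ?_⟩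
  have hT4 : 4 ≤ T := by omega
  have hT1 : 1 ≤ T := by omega
  have hTr : (1 : ℝ) ≤ T := by exact_mod_cast hT1
  have hTT : (T₀ : ℝ) ≤ T := by exact_mod_cast (by omega : T₀ ≤ T)
  have hR1 : 1 ≤ R0 * T := one_le_mul_of_one_le_of_one_le hR0 hTr
  have hbw : ∀ (x : Ixr r m (T ^ (q * e)) (T ^ q)) (k : Fin r),
      ‖bwr φ x k‖ ≤ ((T ^ q : ℕ) : ℝ) * β := by
    intro x k
    unfold bwr
    rw [hβ, Finset.mul_sum]
    refine (norm_sum_le _ _).trans (Finset.sum_le_sum fun j _ => ?_)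
    rw [norm_mul, Complex.norm_natCast]
    have e1 : ‖φ j k‖ ≤ ∑ k', ‖φ j k'‖ :=
      Finset.single_le_sum (f := fun k' => ‖φ j k'‖) (fun k' _ => norm_nonneg _)
        (Finset.mem_univ k)
    have e2 : ((x.2 j : ℕ) : ℝ) ≤ ((T ^ q : ℕ) : ℝ) := by exact_mod_cast (x.2 j).2.le
    exact mul_le_mul e2 e1 (norm_nonneg _) (Nat.cast_nonneg _)
  choose c hc1 hc2 using fun (x : Ixr r m (T ^ (q * e)) (T ^ q)) (k : Fin r) =>
    h2 (x.1 k : ℕ) (T ^ (q * e)) (bwr φ x k) (R0 * T)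
      (((T ^ q : ℕ) : ℝ) * β) hR1 (x.1 k).2.le (hbw x k)
  have hcard : Fintype.card (Fin (2 * τ + 4) → Ixr r m (T ^ (q * e)) (T ^ q)) =
      (T ^ (q * (e * r + m))) ^ (2 * τ + 4) := by
    simp only [Ixr, Fintype.card_fun, Fintype.card_prod, Fintype.card_fin]
    congr 1
    rw [← pow_mul, ← pow_mul, ← pow_add]
    congr 1
    ring
  have hι : Fintype.card (Fin (2 * τ + 4) × Fin r) = (2 * τ + 4) * r := by
    simp [Fintype.card_prod, Fintype.card_fin]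
  have hA1 : (1 : ℝ) ≤ (2 * (R0 * T)) ^ (T ^ (q * e)) *
      Real.exp (2 * (R0 * T) * (((T ^ q : ℕ) : ℝ) * β)) := by
    refine one_le_mul_of_one_le_of_one_le (one_le_pow₀ (by linarith)) (Real.one_le_exp ?_)
    have : 0 ≤ R0 * T := by linarith
    positivity
  have hK1 : 1 ≤ T ^ ((q + 1) * (τ + 1) + 2) := Nat.one_le_pow _ _ hT1
  obtain ⟨p, hp0, hp, hz⟩ := h1 (Fin (2 * τ + 4) → Ixr r m (T ^ (q * e)) (T ^ q))
    (Fin (2 * τ + 4) × Fin r) (T ^ ((q + 1) * (τ + 1) + 2)) (T ^ (q + 1))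
    (fun x i => c (x i.1) i.2) (R0 * T) _ (by linarith) hA1 hK1
    (fun x i k => hc2 (x i.1) i.2 k) (by
      rw [hcard, hι]
      exact Psir_arith r (e * r + m) τ q T hE hr hq hT4)
  refine ⟨p, hp0, hp, fun z hz' => ?_⟩
  have h3 := hz (fun i => z i.1 i.2) (fun i => hz' i.1 i.2)
  have h4 : ∀ x : Fin (2 * τ + 4) → Ixr r m (T ^ (q * e)) (T ^ q),
      ∏ i : Fin (2 * τ + 4) × Fin r, ∑' k, c (x i.1) i.2 k * z i.1 i.2 ^ k =
        ∏ g, fr φ (x g) (z g) := by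
    intro x
    rw [Fintype.prod_prod_type]
    refine Finset.prod_congr rfl fun g _ => ?_
    unfold fr
    rw [Complex.exp_sum, ← Finset.prod_mul_distrib]
    exact Finset.prod_congr rfl fun k _ => (hc1 (x g) k (z g k)).tsum_eq
  simp only [h4] at h3
  refine h3.trans ?_
  rw [hcard, hι]
  have hu : q + 2 ≤ (q + 1) * (τ + 1) + 2 := by nlinarith [Nat.zero_le (q * τ), Nat.zero_le τ]
  refine le_trans ?_ (Psi_est ((2 * τ + 4) * r) ((q + 1) * (τ + 1) + 2) q m e R0 β hR0 hβ0 he hu T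
    hT1 (hT₀.trans hTT))
  refine div_le_div_of_nonneg_right ?_ (by positivity)
  refine mul_le_mul_of_nonneg_left ?_ (by positivity)
  refine mul_le_mul_of_nonneg_right ?_ ?_
  · refine mul_le_mul_of_nonneg_right ?_ (by positivity)
    have h5 : (T ^ (q * (e * r + m))) ^ (2 * τ + 4) ≤
        (T ^ (q * e) * (T ^ q) ^ m) ^ ((2 * τ + 4) * r) := by
      rw [← pow_mul, ← pow_mul, ← pow_add, ← pow_mul]
      refine Nat.pow_le_pow_right (by omega) ?_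
      have h6 : q * m ≤ q * m * r := Nat.le_mul_of_pos_right _ hr
      nlinarith [Nat.mul_le_mul_right (2 * τ + 4) h6]
    exact_mod_cast h5
  · have : 0 ≤ 2 * (R0 * T) := by linarith
    positivity

end Pool.Agent.Work.MP_327059_nt.FR
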