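import Mathlib
import Pool.Agent.Work.MP_327059_nt.FR.Stmts

/-!
# T1: large transcendence degree in several variables
-/

set_option autoImplicit false

namespace Pool.Agent.Work.MP_327059_nt.FR

open MvPolynomial Pool.Agent.Work.MP_327059_nt.GL

lemma TIr_totalDegree_le_rename {σ τ : Type} {f : σ → τ} (hf : Function.Injective f)
    (P : MvPolynomial σ ℤ) : P.totalDegree ≤ (rename f P).totalDegree := by
  classical
  apply Finset.sup_le
  intro d hd
  have h1 : Finsupp.mapDomain f d ∈ (rename f P).support := by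
    rw [support_rename_of_injective hf]
    exact Finset.mem_image_of_mem _ hd
  have h2 := le_totalDegree h1
  rw [Finsupp.sum_mapDomain_index_inj hf] at h2
  exact h2

lemma TIr_len_rename {σ τ : Type} {f : σ → τ} (hf : Function.Injective f)
    (P : MvPolynomial σ ℤ) : len (rename f P) = len P := by
  classical
  unfold len
  rw [support_rename_of_injective hf,
    Finset.sum_image (fun x _ y _ h => Finsupp.mapDomain_injective hf h)]
  refine Finset.sum_congr rfl (fun d _ => ?_)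
  rw [coeff_rename_mapDomain f hf]

lemma TIr_ren0 {N r m A W G : ℕ} (hA : A ≤ 1) (p : (Fin G → Ixr r m A W) → ℤ)
    (s : Fin G → Fin N → ℕ) :
    ∃ P' : MvPolynomial (Fin N × Fin m) ℤ, rename Sum.inr P' = PSr p s := by
  refine ⟨∑ x : Fin G → Ixr r m A W, C (p x) * ∏ g : Fin G,
      ∏ i, ∏ j, X (i, j) ^ (((x g).2 j : ℕ) * s g i), ?_⟩
  unfold PSr
  rw [map_sum]
  refine Finset.sum_congr rfl (fun x _ => ?_)
  rw [map_mul, map_prod, rename_C]
  congr 1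
  refine Finset.prod_congr rfl (fun g _ => ?_)
  have h0 : ∀ k, (((x g).1 k : ℕ)) = 0 := by
    intro k
    have := ((x g).1 k).isLt
    omega
  rw [Finset.prod_eq_one (s := Finset.univ) (f := fun k : Fin r =>
    (∑ i, C ((s g i : ℕ) : ℤ) * X (Sum.inl (i, k)) :
      MvPolynomial ((Fin N × Fin r) ⊕ (Fin N × Fin m)) ℤ) ^ ((x g).1 k : ℕ))
    (fun k _ => by rw [h0 k, pow_zero]), one_mul, map_prod]
  refine Finset.prod_congr rfl (fun i _ => ?_)
  rw [map_prod]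
  refine Finset.prod_congr rfl (fun j _ => ?_)
  rw [map_pow, rename_X]

lemma TIr_pow_le_exp (a : ℝ) (ha : 0 ≤ a) (k : ℕ) : a ^ k ≤ Real.exp (a * k) := by
  have h1 : a ≤ Real.exp a := by have := Real.add_one_le_exp a; linarith
  calc a ^ k ≤ (Real.exp a) ^ k := pow_le_pow_left₀ ha h1 k
    _ = Real.exp (a * k) := by rw [← Real.exp_nat_mul]; ring_nf

/-- the exponent vector -/
noncomputable def TIr_D {r m A W : ℕ} (x : Ixr r m A W) : Fin m ⊕ Fin r →₀ ℕ :=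
  Finsupp.equivFunOnFinite.symm (Sum.elim (fun j => ((x.2 j : ℕ))) (fun k => ((x.1 k : ℕ))))

lemma TIr_D_inl {r m A W : ℕ} (x : Ixr r m A W) (j : Fin m) : TIr_D x (Sum.inl j) = x.2 j := by
  simp [TIr_D]

lemma TIr_D_inr {r m A W : ℕ} (x : Ixr r m A W) (k : Fin r) : TIr_D x (Sum.inr k) = x.1 k := by
  simp [TIr_D]

lemma TIr_D_inj {r m A W : ℕ} : Function.Injective (TIr_D : Ixr r m A W → _) := by
  intro x y h
  apply Prod.ext
  · funext k
    apply Fin.ext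
    rw [← TIr_D_inr x, ← TIr_D_inr y, h]
  · funext j
    apply Fin.ext
    rw [← TIr_D_inl x, ← TIr_D_inl y, h]

lemma TIr_noQ {r m A W B : ℕ} (hA : A ≤ B) (hW : W ≤ B) (ρ : Ixr r m A W → ℂ) (hr : ρ ≠ 0)
    (K : Set (Fin m ⊕ Fin r → ℂ))
    (hK : ∀ v ∈ K, ∑ x, ρ x * evr x v = 0) :
    ∃ Q : MvPolynomial (Fin m ⊕ Fin r) ℂ, Q ≠ 0 ∧ (∀ i, Q.degreeOf i ≤ B) ∧
      ∀ v ∈ K, eval v Q = 0 := by
  classical
  have hco : ∀ d, coeff d (∑ x : Ixr r m A W, monomial (TIr_D x) (ρ x)) =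
      ∑ x : Ixr r m A W, if TIr_D x = d then ρ x else 0 := by
    intro d
    rw [coeff_sum]
    simp [coeff_monomial]
  refine ⟨∑ x : Ixr r m A W, monomial (TIr_D x) (ρ x), ?_, ?_, ?_⟩
  · obtain ⟨x0, hx0⟩ := Function.ne_iff.1 hr
    intro h0
    apply hx0
    have h1 := congrArg (coeff (TIr_D x0)) h0
    rw [hco] at h1
    have h2 : (∑ x : Ixr r m A W, if TIr_D x = TIr_D x0 then ρ x else 0) = ρ x0 := by
      rw [Finset.sum_eq_single x0]
      · simp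
      · intro y _ hy
        rw [if_neg (fun h => hy (TIr_D_inj h))]
      · simp
    rw [h2] at h1
    simpa using h1
  · intro i
    rw [degreeOf_le_iff]
    intro d hd
    rw [mem_support_iff, hco] at hd
    obtain ⟨x, _, hx⟩ := Finset.exists_ne_zero_of_sum_ne_zero hd
    have hdx : TIr_D x = d := by
      by_contra hne
      exact hx (if_neg hne)
    rw [← hdx]
    rcases i with j | k
    · rw [TIr_D_inl]; have := (x.2 j).isLt; omega
    · rw [TIr_D_inr]; have := (x.1 k).isLt; omega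
  · intro v hv
    rw [map_sum, ← hK v hv]
    refine Finset.sum_congr rfl (fun x _ => ?_)
    rw [eval_monomial, Finsupp.prod_fintype _ _ (by simp), Fintype.prod_sum_type]
    simp only [TIr_D_inl, TIr_D_inr]
    unfold evr
    ring

theorem TIr_core (h1 : GL.S_Crit) (h3 : S_Valr) (h4 : GL.S_Tensor) (r m τ G q e : ℕ)
    (hq : 3 * r + 4 ≤ q) (he : e ≤ 1) (N : ℕ) (hn : 1 ≤ N) (φ : Fin m → Fin r → ℂ)
    (w : Fin N → Fin r → ℂ)
    (hPsi : ∀ R0 : ℝ, 1 ≤ R0 → ∃ T₀ : ℕ, ∀ T : ℕ, T₀ ≤ T →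
      ∃ p : (Fin G → Ixr r m (T ^ (q * e)) (T ^ q)) → ℤ,
        p ≠ 0 ∧ (∀ x, |p x| ≤ (2 : ℤ) ^ (T ^ (q + 1))) ∧
        ∀ z : Fin G → Fin r → ℂ, (∀ g k, ‖z g k‖ ≤ R0 * T) →
          ‖∑ x, (p x : ℂ) * ∏ g, fr φ (x g) (z g)‖ ≤
            Real.exp (-((T : ℝ) ^ ((q + 1) * (τ + 1) + 2) / 4)))
    (hNZ : ∃ T₀ : ℕ, ∀ T : ℕ, T₀ ≤ T →
      ∀ (w' : Fin N → Fin r → ℂ) (y' : Fin N → Fin m → ℂ),
      (∀ i k, ‖w' i k - w i k‖ ≤ Real.exp (-((T : ℝ) ^ (3 * r + 6)))) →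
      (∀ i j, ‖y' i j - ey φ w i j‖ ≤ Real.exp (-((T : ℝ) ^ (3 * r + 6)))) →
      ∀ P : MvPolynomial (Fin m ⊕ Fin r) ℂ, (∀ i, P.degreeOf i ≤ T ^ q) →
        (∀ s : Fin N → ℕ, (∀ i, s i ≤ 2 ^ (m + r) * T) → eval (rpt w' y' s) P = 0) → P = 0)
    (σ : Type) [Fintype σ] (θ : σ → ℂ) (ι : σ → (Fin N × Fin r) ⊕ (Fin N × Fin m))
    (hι : Function.Injective ι) (hθ : θ = cdr w (ey φ w) ∘ ι)
    (hren : ∀ (T : ℕ) (p : (Fin G → Ixr r m (T ^ (q * e)) (T ^ q)) → ℤ)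
      (s : Fin G → Fin N → ℕ), ∃ P' : MvPolynomial σ ℤ, rename ι P' = PSr p s)
    (hTr : TrLe τ θ) : False := by
  obtain ⟨C, hC1, hCrit⟩ := h1 σ τ θ hTr
  set R0 : ℝ := 1 + 2 ^ (m + r) * ∑ i, ∑ k, ‖w i k‖ with hR0
  have hsl : 0 ≤ ∑ i, ∑ k, ‖w i k‖ :=
    Finset.sum_nonneg (fun _ _ => Finset.sum_nonneg (fun _ _ => norm_nonneg _))
  have hR01 : 1 ≤ R0 := by
    have : 0 ≤ (2 : ℝ) ^ (m + r) * ∑ i, ∑ k, ‖w i k‖ := by positivity
    linarith
  obtain ⟨T1, hT1⟩ := hPsi R0 hR01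
  obtain ⟨T2, hT2⟩ := hNZ
  set C2 : ℕ := G * (r + 2 ^ (m + r) * N * m) + G * (q * r + q * m) + 1 +
    G * (N * 2 ^ (m + r) * r) with hC2
  have hC2pos : 1 ≤ C2 := by omega
  set K : ℝ := 4 * C * (C2 : ℝ) ^ (τ + 1) with hK
  set T : ℕ := max (max T1 T2) (⌈K⌉₊ + 1) with hT
  have hTT1 : T1 ≤ T := le_trans (le_max_left _ _) (le_max_left _ _)
  have hTT2 : T2 ≤ T := le_trans (le_max_right _ _) (le_max_left _ _)
  have hT1' : 1 ≤ T := le_trans (Nat.le_add_left 1 _) (le_max_right _ _)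
  have hTK : K ≤ T := by
    have h5 : ⌈K⌉₊ ≤ T := le_trans (Nat.le_succ _) (le_max_right _ _)
    exact (Nat.le_ceil K).trans (by exact_mod_cast h5)
  clear_value T
  have hTr1 : (1 : ℝ) ≤ T := by exact_mod_cast hT1'
  obtain ⟨p, hp0, hpb, hpz⟩ := hT1 T hTT1
  set X : ℕ := C2 * T ^ (q + 1) with hX
  set V : ℝ := (T : ℝ) ^ ((q + 1) * (τ + 1) + 2) / 4 with hV
  have hX1 : 1 ≤ X := Nat.mul_pos hC2pos (Nat.pos_of_ne_zero (by positivity))
  have hXr : (X : ℝ) = (C2 : ℝ) * (T : ℝ) ^ (q + 1) := by rw [hX]; push_cast; ring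
  have hVX : C * (X : ℝ) ^ (τ + 1) ≤ V := by
    rw [hXr, hV, mul_pow, ← pow_mul, pow_add (T : ℝ) ((q + 1) * (τ + 1)) 2]
    have h6 : 4 * C * (C2 : ℝ) ^ (τ + 1) ≤ (T : ℝ) ^ 2 := by
      calc 4 * C * (C2 : ℝ) ^ (τ + 1) = K := rfl
        _ ≤ T := hTK
        _ ≤ (T : ℝ) ^ 2 := by nlinarith
    have h7 : (0 : ℝ) ≤ (T : ℝ) ^ ((q + 1) * (τ + 1)) := by positivity
    nlinarith [mul_le_mul_of_nonneg_left h6 h7]
  let PP : Set (MvPolynomial σ ℤ) :=
    {P | ∃ s : Fin G → Fin N → ℕ, (∀ g i, s g i ≤ 2 ^ (m + r) * T) ∧ rename ι P = PSr p s}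
  have hAq : T ^ (q * e) ≤ T ^ q := Nat.pow_le_pow_right hT1' (by nlinarith)
  have hSpos : 1 ≤ 2 ^ (m + r) * T := Nat.mul_pos (by positivity) hT1'
  have hTq1 : T ^ q * T = T ^ (q + 1) := by rw [pow_succ]
  have hTq2 : T ^ q ≤ T ^ (q + 1) := Nat.pow_le_pow_right hT1' (by omega)
  have hTq3 : T ≤ T ^ (q + 1) := by
    calc T = T ^ 1 := (pow_one T).symm
      _ ≤ T ^ (q + 1) := Nat.pow_le_pow_right hT1' (by omega)
  have hPP : ∀ P ∈ PP, P.totalDegree ≤ X ∧ len P ≤ Real.exp X ∧ ‖aeval θ P‖ ≤ Real.exp (-V) := by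
    rintro P ⟨s, hs, hPs⟩
    obtain ⟨_, hv2, hv3, hv4⟩ := h3 N r m (T ^ (q * e)) (T ^ q) G p s
    refine ⟨?_, ?_, ?_⟩
    · refine (TIr_totalDegree_le_rename hι P).trans ?_
      rw [hPs]
      refine (hv3 _ hs).trans ?_
      calc G * (r * T ^ (q * e) + T ^ q * (2 ^ (m + r) * T) * N * m)
          ≤ G * (r * T ^ (q + 1) + T ^ q * (2 ^ (m + r) * T) * N * m) := by
            apply Nat.mul_le_mul_left
            apply Nat.add_le_add_right
            exact Nat.mul_le_mul_left _ (hAq.trans hTq2)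
        _ = G * (r + 2 ^ (m + r) * N * m) * T ^ (q + 1) := by rw [← hTq1]; ring
        _ ≤ C2 * T ^ (q + 1) := by
            apply Nat.mul_le_mul_right
            omega
    · rw [← TIr_len_rename hι P, hPs]
      have hpH : ∀ x, |(p x : ℝ)| ≤ (2 : ℝ) ^ (T ^ (q + 1)) := by
        intro x
        have := hpb x
        exact_mod_cast this
      refine (hv4 (2 ^ (m + r) * T) ((2 : ℝ) ^ (T ^ (q + 1))) hSpos hn hs hpH).trans ?_
      have f1 : ((((T ^ (q * e) : ℕ) : ℝ)) ^ r * ((T ^ q : ℕ) : ℝ) ^ m) ^ G ≤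
          Real.exp ((G * (q * r + q * m) : ℕ) * ((T : ℝ) ^ (q + 1))) := by
        have g1 : (((T ^ (q * e) : ℕ) : ℝ)) ^ r * ((T ^ q : ℕ) : ℝ) ^ m ≤
            (T : ℝ) ^ (q * r + q * m) := by
          have : (T ^ (q * e)) ^ r * (T ^ q) ^ m ≤ T ^ (q * r + q * m) := by
            rw [pow_add, pow_mul T q m, pow_mul T q r]
            exact Nat.mul_le_mul_right _ (Nat.pow_le_pow_left hAq r)
          exact_mod_cast this
        calc ((((T ^ (q * e) : ℕ) : ℝ)) ^ r * ((T ^ q : ℕ) : ℝ) ^ m) ^ G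
            ≤ ((T : ℝ) ^ (q * r + q * m)) ^ G := pow_le_pow_left₀ (by positivity) g1 _
          _ = (T : ℝ) ^ (G * (q * r + q * m)) := by rw [← pow_mul]; ring_nf
          _ ≤ Real.exp ((T : ℝ) * (G * (q * r + q * m) : ℕ)) := TIr_pow_le_exp _ (by positivity) _
          _ ≤ _ := by
            apply Real.exp_le_exp.2
            rw [mul_comm]
            apply mul_le_mul_of_nonneg_left _ (by positivity)
            exact_mod_cast hTq3
      have f2 : (2 : ℝ) ^ (T ^ (q + 1)) ≤ Real.exp ((T : ℝ) ^ (q + 1)) := by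
        have g1 : (2 : ℝ) ≤ Real.exp 1 := by have := Real.add_one_le_exp (1 : ℝ); linarith
        calc (2 : ℝ) ^ (T ^ (q + 1)) ≤ (Real.exp 1) ^ (T ^ (q + 1)) :=
              pow_le_pow_left₀ (by norm_num) g1 _
          _ = Real.exp ((T : ℝ) ^ (q + 1)) := by
              rw [← Real.exp_nat_mul]; push_cast; ring_nf
      have f3 : ((N : ℝ) * ((2 ^ (m + r) * T : ℕ) : ℝ)) ^ (r * T ^ (q * e) * G) ≤
          Real.exp ((G * (N * 2 ^ (m + r) * r) : ℕ) * ((T : ℝ) ^ (q + 1))) := by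
        refine (TIr_pow_le_exp _ (by positivity) _).trans ?_
        apply Real.exp_le_exp.2
        have : N * (2 ^ (m + r) * T) * (r * T ^ (q * e) * G) ≤
            G * (N * 2 ^ (m + r) * r) * T ^ (q + 1) := by
          calc N * (2 ^ (m + r) * T) * (r * T ^ (q * e) * G)
              ≤ N * (2 ^ (m + r) * T) * (r * T ^ q * G) := by
                apply Nat.mul_le_mul_left
                exact Nat.mul_le_mul_right _ (Nat.mul_le_mul_left _ hAq)
            _ = G * (N * 2 ^ (m + r) * r) * T ^ (q + 1) := by rw [← hTq1]; ring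
        exact_mod_cast this
      calc ((((T ^ (q * e) : ℕ) : ℝ)) ^ r * ((T ^ q : ℕ) : ℝ) ^ m) ^ G *
            (2 : ℝ) ^ (T ^ (q + 1)) *
            ((N : ℝ) * ((2 ^ (m + r) * T : ℕ) : ℝ)) ^ (r * T ^ (q * e) * G)
          ≤ Real.exp ((G * (q * r + q * m) : ℕ) * ((T : ℝ) ^ (q + 1))) *
            Real.exp ((T : ℝ) ^ (q + 1)) *
            Real.exp ((G * (N * 2 ^ (m + r) * r) : ℕ) * ((T : ℝ) ^ (q + 1))) := by gcongr
        _ = Real.exp (((G * (q * r + q * m) : ℕ) + 1 + (G * (N * 2 ^ (m + r) * r) : ℕ)) *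
              ((T : ℝ) ^ (q + 1))) := by
            rw [← Real.exp_add, ← Real.exp_add]; ring_nf
        _ ≤ Real.exp X := by
            apply Real.exp_le_exp.2
            rw [hXr]
            apply mul_le_mul_of_nonneg_right _ (by positivity)
            have : G * (q * r + q * m) + 1 + G * (N * 2 ^ (m + r) * r) ≤ C2 := by omega
            exact_mod_cast this
    · have g1 : aeval θ P = aeval (cdr w (ey φ w)) (PSr p s) := by
        rw [← hPs, aeval_rename, hθ]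
      rw [g1, hv2]
      refine hpz (fun g k => ∑ i, (s g i : ℂ) * w i k) (fun g k => ?_)
      calc ‖∑ i, (s g i : ℂ) * w i k‖ ≤ ∑ i, ‖(s g i : ℂ) * w i k‖ := norm_sum_le _ _
        _ ≤ ∑ i, ((2 : ℝ) ^ (m + r) * T) * ∑ k', ‖w i k'‖ := by
            refine Finset.sum_le_sum (fun i _ => ?_)
            rw [norm_mul]
            apply mul_le_mul _ _ (norm_nonneg _) (by positivity)
            · rw [Complex.norm_natCast]
              exact_mod_cast hs g i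
            · exact Finset.single_le_sum (f := fun k' => ‖w i k'‖)
                (fun _ _ => norm_nonneg _) (Finset.mem_univ k)
        _ = (2 ^ (m + r) * ∑ i, ∑ k', ‖w i k'‖) * T := by rw [← Finset.mul_sum]; ring
        _ ≤ R0 * T := by
            apply mul_le_mul_of_nonneg_right _ (by positivity)
            linarith
  obtain ⟨θ', hz, hclose⟩ := hCrit X V hX1 hVX PP hPP
  have hexp : Real.exp (-V / (C * (X : ℝ) ^ τ)) ≤ Real.exp (-((T : ℝ) ^ (3 * r + 6))) := by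
    apply Real.exp_le_exp.2
    have hpos : 0 < C * (X : ℝ) ^ τ := by
      have : (0 : ℝ) < X := by exact_mod_cast hX1
      positivity
    rw [neg_div, neg_le_neg_iff, le_div_iff₀ hpos, hXr, hV, mul_pow, ← pow_mul]
    obtain ⟨q', rfl⟩ := Nat.exists_eq_add_of_le hq
    have e1 : (3 * r + 4 + q' + 1) * (τ + 1) + 2 =
        (3 * r + 4 + q' + 1) * τ + ((q' + 1) + (3 * r + 6)) := by ring
    rw [e1, pow_add (T : ℝ) ((3 * r + 4 + q' + 1) * τ), pow_add (T : ℝ) (q' + 1) (3 * r + 6)]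
    have h6 : 4 * (C * (C2 : ℝ) ^ τ) ≤ (T : ℝ) ^ (q' + 1) := by
      calc 4 * (C * (C2 : ℝ) ^ τ) ≤ 4 * (C * (C2 : ℝ) ^ (τ + 1)) := by
            have : (C2 : ℝ) ^ τ ≤ (C2 : ℝ) ^ (τ + 1) :=
              pow_le_pow_right₀ (by exact_mod_cast hC2pos) (by omega)
            have hC0 : 0 ≤ C := by linarith
            nlinarith [mul_le_mul_of_nonneg_left this hC0]
        _ = K := by rw [hK]; ring
        _ ≤ T := hTK
        _ = (T : ℝ) ^ 1 := (pow_one _).symm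
        _ ≤ (T : ℝ) ^ (q' + 1) := pow_le_pow_right₀ hTr1 (by omega)
    have h7 : (0 : ℝ) ≤ (T : ℝ) ^ ((3 * r + 4 + q' + 1) * τ) * (T : ℝ) ^ (3 * r + 6) := by
      positivity
    nlinarith [mul_le_mul_of_nonneg_left h6 h7]
  -- the extended point
  set θ'' : (Fin N × Fin r) ⊕ (Fin N × Fin m) → ℂ :=
    Function.extend ι θ' (cdr w (ey φ w)) with hθ''
  have hclose'' : ∀ k, ‖θ'' k - cdr w (ey φ w) k‖ ≤ Real.exp (-((T : ℝ) ^ (3 * r + 6))) := by
    intro k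
    by_cases hk : ∃ i, ι i = k
    · obtain ⟨i, rfl⟩ := hk
      rw [hθ'', hι.extend_apply]
      have := (hclose i).trans hexp
      rw [hθ] at this
      exact this
    · rw [hθ'', Function.extend_apply' _ _ _ hk, sub_self, norm_zero]
      exact (Real.exp_pos _).le
  have hcomp : θ'' ∘ ι = θ' := by
    funext i
    rw [Function.comp_apply, hθ'', hι.extend_apply]
  let w' : Fin N → Fin r → ℂ := fun i k => θ'' (Sum.inl (i, k))
  let y' : Fin N → Fin m → ℂ := fun i j => θ'' (Sum.inr (i, j))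
  have hel : cdr w' y' = θ'' := by
    funext k
    rcases k with ⟨i, k⟩ | ⟨i, j⟩ <;> rfl
  have hzero : ∀ s : Fin G → Fin N → ℕ, (∀ g i, s g i ≤ 2 ^ (m + r) * T) →
      ∑ x, (p x : ℂ) * ∏ g, evr (x g) (rpt w' y' (s g)) = 0 := by
    intro s hs
    obtain ⟨hv1, _⟩ := h3 N r m (T ^ (q * e)) (T ^ q) G p s
    rw [← hv1 w' y', hel]
    obtain ⟨P', hP'⟩ := hren T p s
    rw [← hP', aeval_rename, hcomp]
    exact hz P' ⟨s, hs, hP'⟩
  have hpC : (fun x => (p x : ℂ)) ≠ 0 := by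
    intro h0
    apply hp0
    funext x
    have := congrFun h0 x
    simpa using this
  obtain ⟨ρ, hr0, hr⟩ := h4 (Ixr r m (T ^ (q * e)) (T ^ q))
    {s : Fin N → ℕ // ∀ i, s i ≤ 2 ^ (m + r) * T}
    G (fun x s => evr x (rpt w' y' s.1)) (fun x => (p x : ℂ)) hpC
    (fun x => hzero (fun g => (x g).1) (fun g i => (x g).2 i))
  obtain ⟨Q, hQ0, hQd, hQz⟩ := TIr_noQ (B := T ^ q) hAq le_rfl ρ hr0
    {v | ∃ s : Fin N → ℕ, (∀ i, s i ≤ 2 ^ (m + r) * T) ∧ v = rpt w' y' s} (by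
      rintro v ⟨s, hs, rfl⟩
      exact hr ⟨s, hs⟩)
  apply hQ0
  apply hT2 T hTT2 w' y' _ _ Q hQd
  · intro s hs
    exact hQz _ ⟨s, hs, rfl⟩
  · intro i k
    have := hclose'' (Sum.inl (i, k))
    simpa [cdr, w'] using this
  · intro i j
    have := hclose'' (Sum.inr (i, j))
    simpa [cdr, y'] using this

lemma TIr_rob_mono {N r : ℕ} {n₀ n₁ : ℕ} (h : n₀ ≤ n₁) {w : Fin N → Fin r → ℂ}
    (hw : Rob n₁ w) : Rob n₀ w := fun c hc => h.trans (hw c hc)

lemma TIr_rob_pos {N r : ℕ} {n₁ : ℕ} (hr : 1 ≤ r) (h : 1 ≤ n₁) {w : Fin N → Fin r → ℂ}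
    (hw : Rob n₁ w) : 1 ≤ N := by
  by_contra hN
  have hN0 : N = 0 := by omega
  subst hN0
  have hc : (fun _ : Fin r => (1 : ℚ)) ≠ 0 := by
    intro h0
    have := congrFun h0 ⟨0, hr⟩
    simp at this
  have h2 := hw _ hc
  rw [Set.range_eq_empty, Submodule.span_empty, finrank_bot] at h2
  omega

theorem pr_TIr (h1 : GL.S_Crit) (h2 : S_Psir) (h3 : S_Valr) (h4 : GL.S_Tensor) (h5 : S_NoZr) :
    S_TIr := by
  intro r m e τ he hr hτ
  obtain ⟨n₀, hn₀⟩ := h5 r m (2 * r * (τ + 3) + 3 * r + 6) hr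
  refine ⟨max 1 n₀, ?_⟩
  intro φ hφ hφl N w hLg hRob
  have hn1 : 1 ≤ N := TIr_rob_pos hr (le_max_left 1 n₀) hRob
  have hNZ := hn₀ φ hφ hφl N w hLg (TIr_rob_mono (le_max_right 1 n₀) hRob)
  have hq : 3 * r + 4 ≤ 2 * r * (τ + 3) + 3 * r + 6 := by
    have : 0 ≤ 2 * r * (τ + 3) := Nat.zero_le _
    omega
  have hq2 : 2 * r * (τ + 3) ≤ 2 * r * (τ + 3) + 3 * r + 6 := by omega
  constructor
  · intro _ hTr
    exact TIr_core h1 h3 h4 r m τ (2 * τ + 4) (2 * r * (τ + 3) + 3 * r + 6) e hq he N hn1 φ w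
      (fun R0 hR0 => h2 r m e τ _ he hr hτ hq2 φ R0 hR0) hNZ
      ((Fin N × Fin r) ⊕ (Fin N × Fin m)) (cdr w (ey φ w)) id
      Function.injective_id rfl (fun T p s => ⟨PSr p s, by rw [rename_id]; rfl⟩) hTr
  · intro he0 hTr
    subst he0
    exact TIr_core h1 h3 h4 r m τ (2 * τ + 4) (2 * r * (τ + 3) + 3 * r + 6) 0 hq (by omega) N hn1
      φ w (fun R0 hR0 => h2 r m 0 τ _ (by omega) hr hτ hq2 φ R0 hR0) hNZ (Fin N × Fin m)
      (fun q : Fin N × Fin m => ey φ w q.1 q.2) Sum.inr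
      Sum.inr_injective rfl (fun T p s => TIr_ren0 (by simp) p s) hTr

end Pool.Agent.Work.MP_327059_nt.FR
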