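import Mathlib
import Pool.Agent.Work.MP_327059_nt.FR.Stmts
import Pool.Agent.Work.MP_327059_nt.Bd.B11

/-!
# Item Valr: values and sizes of the polynomials `P_s`
-/

set_option autoImplicit false

namespace Pool.Agent.Work.MP_327059_nt.FR

open MvPolynomial Pool.Agent.Work.MP_327059_nt.GL

theorem Valr_aev {N r m A W G : ℕ} (p : (Fin G → Ixr r m A W) → ℤ) (s : Fin G → Fin N → ℕ)
    (w' : Fin N → Fin r → ℂ) (y' : Fin N → Fin m → ℂ) :
    aeval (cdr w' y') (PSr p s) =
      ∑ x, (p x : ℂ) * ∏ g, ((∏ k, (∑ i, (s g i : ℂ) * w' i k) ^ ((x g).1 k : ℕ)) *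
        ∏ i, ∏ j, y' i j ^ (((x g).2 j : ℕ) * s g i)) := by
  unfold PSr
  rw [map_sum]
  refine Finset.sum_congr rfl ?_
  intro x _
  rw [map_mul, map_prod]
  congr 1
  · simp
  · refine Finset.prod_congr rfl ?_
    intro g _
    rw [map_mul, map_prod, map_prod]
    congr 1
    · refine Finset.prod_congr rfl ?_
      intro k _
      rw [map_pow, map_sum]
      congr 1
      refine Finset.sum_congr rfl ?_
      intro i _
      simp [cdr]
    · refine Finset.prod_congr rfl ?_
      intro i _
      rw [map_prod]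
      refine Finset.prod_congr rfl ?_
      intro j _
      simp [cdr]

theorem Valr_deg {N r m A W G : ℕ} (p : (Fin G → Ixr r m A W) → ℤ) (s : Fin G → Fin N → ℕ)
    (S : ℕ) (hS : ∀ g i, s g i ≤ S) :
    (PSr p s).totalDegree ≤ G * (r * A + W * S * N * m) := by
  unfold PSr
  refine totalDegree_finsetSum_le ?_
  intro x _
  refine (totalDegree_mul _ _).trans ?_
  rw [totalDegree_C, zero_add]
  refine (totalDegree_finsetProd _ _).trans ?_
  have hr : ∀ g ∈ (Finset.univ : Finset (Fin G)),
      ((∏ k, (∑ i, C ((s g i : ℕ) : ℤ) * X (Sum.inl (i, k)) :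
        MvPolynomial ((Fin N × Fin r) ⊕ (Fin N × Fin m)) ℤ) ^ ((x g).1 k : ℕ)) *
        ∏ i, ∏ j, X (Sum.inr (i, j)) ^ (((x g).2 j : ℕ) * s g i)).totalDegree ≤
        r * A + W * S * N * m := by
    intro g _
    refine (totalDegree_mul _ _).trans ?_
    refine add_le_add ?_ ?_
    · refine (totalDegree_finsetProd _ _).trans ?_
      have h0 : ∀ k ∈ (Finset.univ : Finset (Fin r)),
          ((∑ i, C ((s g i : ℕ) : ℤ) * X (Sum.inl (i, k)) :
            MvPolynomial ((Fin N × Fin r) ⊕ (Fin N × Fin m)) ℤ) ^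
              ((x g).1 k : ℕ)).totalDegree ≤ A := by
        intro k _
        refine (totalDegree_pow _ _).trans ?_
        have h1 : (∑ i, C ((s g i : ℕ) : ℤ) * X (Sum.inl (i, k)) :
            MvPolynomial ((Fin N × Fin r) ⊕ (Fin N × Fin m)) ℤ).totalDegree ≤ 1 := by
          refine totalDegree_finsetSum_le ?_
          intro i _
          refine (totalDegree_mul _ _).trans ?_
          rw [totalDegree_C, zero_add, totalDegree_X]
        calc ((x g).1 k : ℕ) * _ ≤ ((x g).1 k : ℕ) * 1 := Nat.mul_le_mul_left _ h1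
          _ ≤ A := by
            rw [mul_one]
            exact ((x g).1 k).2.le
      refine (Finset.sum_le_card_nsmul _ _ _ h0).trans ?_
      rw [Finset.card_univ, Fintype.card_fin, smul_eq_mul]
    · refine (totalDegree_finsetProd _ _).trans ?_
      have h2 : ∀ i ∈ (Finset.univ : Finset (Fin N)),
          (∏ j, X (Sum.inr (i, j)) ^ (((x g).2 j : ℕ) * s g i) :
            MvPolynomial ((Fin N × Fin r) ⊕ (Fin N × Fin m)) ℤ).totalDegree ≤ W * S * m := by
        intro i _
        refine (totalDegree_finsetProd _ _).trans ?_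
        have h3 : ∀ j ∈ (Finset.univ : Finset (Fin m)),
            (X (Sum.inr (i, j)) ^ (((x g).2 j : ℕ) * s g i) :
              MvPolynomial ((Fin N × Fin r) ⊕ (Fin N × Fin m)) ℤ).totalDegree ≤ W * S := by
          intro j _
          refine (totalDegree_pow _ _).trans ?_
          rw [totalDegree_X, mul_one]
          exact Nat.mul_le_mul ((x g).2 j).2.le (hS g i)
        refine (Finset.sum_le_card_nsmul _ _ _ h3).trans ?_
        rw [Finset.card_univ, Fintype.card_fin, smul_eq_mul, mul_comm]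
      refine (Finset.sum_le_card_nsmul _ _ _ h2).trans ?_
      rw [Finset.card_univ, Fintype.card_fin, smul_eq_mul]
      apply le_of_eq
      ring
  refine (Finset.sum_le_card_nsmul _ _ _ hr).trans ?_
  rw [Finset.card_univ, Fintype.card_fin, smul_eq_mul]

theorem Valr_len {N r m A W G : ℕ} (p : (Fin G → Ixr r m A W) → ℤ) (s : Fin G → Fin N → ℕ)
    (S : ℕ) (H : ℝ) (hS1 : 1 ≤ S) (hn : 1 ≤ N) (hS : ∀ g i, s g i ≤ S)
    (hp : ∀ x, |(p x : ℝ)| ≤ H) :
    len (PSr p s) ≤ ((A : ℝ) ^ r * W ^ m) ^ G * H * ((N : ℝ) * S) ^ (r * A * G) := by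
  have hnS : (1 : ℝ) ≤ (N : ℝ) * S := by
    have h1 : (1 : ℝ) ≤ N := by exact_mod_cast hn
    have h2 : (1 : ℝ) ≤ S := by exact_mod_cast hS1
    nlinarith
  unfold PSr
  refine (Val_len_sum _ _).trans ?_
  have hx : ∀ x ∈ (Finset.univ : Finset (Fin G → Ixr r m A W)),
      len (C (p x) * ∏ g : Fin G,
        ((∏ k, (∑ i, C ((s g i : ℕ) : ℤ) * X (Sum.inl (i, k))) ^ ((x g).1 k : ℕ)) *
          ∏ i, ∏ j, X (Sum.inr (i, j)) ^ (((x g).2 j : ℕ) * s g i)) :
            MvPolynomial ((Fin N × Fin r) ⊕ (Fin N × Fin m)) ℤ) ≤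
              H * ((N : ℝ) * S) ^ (r * A * G) := by
    intro x _
    have hH : 0 ≤ H := (abs_nonneg _).trans (hp x)
    refine (Val_len_mul _ _).trans ?_
    refine mul_le_mul ((Val_len_C _).trans (hp x)) ?_ (Val_len_nonneg _) hH
    refine (Val_len_prod _ _).trans ?_
    have hr : ∀ g ∈ (Finset.univ : Finset (Fin G)),
        len ((∏ k, (∑ i, C ((s g i : ℕ) : ℤ) * X (Sum.inl (i, k))) ^ ((x g).1 k : ℕ)) *
          ∏ i, ∏ j, X (Sum.inr (i, j)) ^ (((x g).2 j : ℕ) * s g i) :
            MvPolynomial ((Fin N × Fin r) ⊕ (Fin N × Fin m)) ℤ) ≤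
              ((N : ℝ) * S) ^ (r * A) := by
      intro g _
      refine (Val_len_mul _ _).trans ?_
      have h1 : len (∏ k, (∑ i, C ((s g i : ℕ) : ℤ) * X (Sum.inl (i, k))) ^ ((x g).1 k : ℕ) :
          MvPolynomial ((Fin N × Fin r) ⊕ (Fin N × Fin m)) ℤ) ≤ ((N : ℝ) * S) ^ (r * A) := by
        refine (Val_len_prod _ _).trans ?_
        have h0 : ∀ k ∈ (Finset.univ : Finset (Fin r)),
            len ((∑ i, C ((s g i : ℕ) : ℤ) * X (Sum.inl (i, k))) ^ ((x g).1 k : ℕ) :
              MvPolynomial ((Fin N × Fin r) ⊕ (Fin N × Fin m)) ℤ) ≤ ((N : ℝ) * S) ^ A := by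
          intro k _
          refine (Val_len_pow _ _).trans ?_
          have h2 : len (∑ i, C ((s g i : ℕ) : ℤ) * X (Sum.inl (i, k)) :
              MvPolynomial ((Fin N × Fin r) ⊕ (Fin N × Fin m)) ℤ) ≤ (N : ℝ) * S := by
            refine (Val_len_sum _ _).trans ?_
            have h3 : ∀ i ∈ (Finset.univ : Finset (Fin N)),
                len (C ((s g i : ℕ) : ℤ) * X (Sum.inl (i, k)) :
                  MvPolynomial ((Fin N × Fin r) ⊕ (Fin N × Fin m)) ℤ) ≤ (S : ℝ) := by
              intro i _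
              refine (Val_len_mul _ _).trans ?_
              have h4 : len (C ((s g i : ℕ) : ℤ) :
                  MvPolynomial ((Fin N × Fin r) ⊕ (Fin N × Fin m)) ℤ) ≤ (S : ℝ) := by
                refine (Val_len_C _).trans ?_
                have h5 : ((s g i : ℕ) : ℝ) ≤ (S : ℝ) := by exact_mod_cast hS g i
                rw [abs_of_nonneg (by positivity)]
                push_cast
                exact h5
              calc _ ≤ (S : ℝ) * 1 :=
                    mul_le_mul h4 (Val_len_X _) (Val_len_nonneg _) (by positivity)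
                _ = S := mul_one _
            refine (Finset.sum_le_card_nsmul _ _ _ h3).trans ?_
            rw [Finset.card_univ, Fintype.card_fin, nsmul_eq_mul]
          refine (pow_le_pow_left₀ (Val_len_nonneg _) h2 _).trans ?_
          exact pow_le_pow_right₀ hnS ((x g).1 k).2.le
        calc _ ≤ ∏ _k : Fin r, ((N : ℝ) * S) ^ A :=
              Finset.prod_le_prod (fun _ _ => Val_len_nonneg _) h0
          _ = ((N : ℝ) * S) ^ (r * A) := by
            rw [Finset.prod_const, Finset.card_univ, Fintype.card_fin, ← pow_mul, mul_comm A r]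
      have h6 : len (∏ i, ∏ j, X (Sum.inr (i, j)) ^ (((x g).2 j : ℕ) * s g i) :
          MvPolynomial ((Fin N × Fin r) ⊕ (Fin N × Fin m)) ℤ) ≤ 1 := by
        refine (Val_len_prod _ _).trans ?_
        refine Finset.prod_le_one (fun _ _ => Val_len_nonneg _) ?_
        intro i _
        refine (Val_len_prod _ _).trans ?_
        refine Finset.prod_le_one (fun _ _ => Val_len_nonneg _) ?_
        intro j _
        refine (Val_len_pow _ _).trans ?_
        exact pow_le_one₀ (Val_len_nonneg _) (Val_len_X _)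
      calc _ ≤ ((N : ℝ) * S) ^ (r * A) * 1 :=
            mul_le_mul h1 h6 (Val_len_nonneg _) (by positivity)
        _ = _ := mul_one _
    calc _ ≤ ∏ _g : Fin G, ((N : ℝ) * S) ^ (r * A) :=
          Finset.prod_le_prod (fun _ _ => Val_len_nonneg _) hr
      _ = ((N : ℝ) * S) ^ (r * A * G) := by
        rw [Finset.prod_const, Finset.card_univ, Fintype.card_fin, ← pow_mul]
  refine (Finset.sum_le_card_nsmul _ _ _ hx).trans ?_
  rw [Finset.card_univ, nsmul_eq_mul]
  apply le_of_eq
  have hc : (Fintype.card (Fin G → Ixr r m A W) : ℝ) = ((A : ℝ) ^ r * W ^ m) ^ G := by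
    simp [Fintype.card_prod]
  rw [hc]
  ring

theorem pr_Valr : S_Valr := by
  intro N r m A W G p s
  refine ⟨?_, ?_, ?_, ?_⟩
  · intro w' y'
    rw [Valr_aev]
    refine Finset.sum_congr rfl ?_
    intro x _
    congr 1
    refine Finset.prod_congr rfl ?_
    intro g _
    unfold evr rpt
    simp only [Sum.elim_inl, Sum.elim_inr]
    congr 1
    rw [Finset.prod_comm]
    refine Finset.prod_congr rfl ?_
    intro j _
    rw [← Finset.prod_pow]
    refine Finset.prod_congr rfl ?_
    intro i _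
    rw [← pow_mul, mul_comm]
  · intro φ w
    rw [Valr_aev]
    refine Finset.sum_congr rfl ?_
    intro x _
    congr 1
    refine Finset.prod_congr rfl ?_
    intro g _
    unfold fr
    congr 1
    have h1 : ∀ i ∈ (Finset.univ : Finset (Fin N)), ∏ j, ey φ w i j ^
        (((x g).2 j : ℕ) * s g i) = Complex.exp (∑ j, ((((x g).2 j : ℕ) : ℂ) * (s g i : ℂ)) *
          (∑ k, φ j k * w i k)) := by
      intro i _
      rw [Complex.exp_sum]
      refine Finset.prod_congr rfl ?_
      intro j _
      unfold ey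
      rw [← Complex.exp_nat_mul]
      push_cast
      ring_nf
    rw [Finset.prod_congr rfl h1, ← Complex.exp_sum]
    congr 1
    unfold bwr
    simp only [Finset.sum_mul, Finset.mul_sum]
    rw [Finset.sum_comm]
    have h2 : ∀ j ∈ (Finset.univ : Finset (Fin m)), ∑ i, ∑ k,
        (((x g).2 j : ℕ) : ℂ) * (s g i : ℂ) * (φ j k * w i k) =
        ∑ k, ∑ i, (((x g).2 j : ℕ) : ℂ) * (s g i : ℂ) * (φ j k * w i k) := fun j _ =>
      Finset.sum_comm
    rw [Finset.sum_congr rfl h2, Finset.sum_comm]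
    refine Finset.sum_congr rfl ?_
    intro k _
    rw [Finset.sum_comm]
    refine Finset.sum_congr rfl ?_
    intro i _
    refine Finset.sum_congr rfl ?_
    intro j _
    ring
  · intro S hS
    exact Valr_deg p s S hS
  · intro S H hS1 hn hS hp
    exact Valr_len p s S H hS1 hn hS hp

end Pool.Agent.Work.MP_327059_nt.FR
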