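import Pool.Agent.Work.MP_327059_nt.FR.Stmts2
import Pool.Agent.Work.MP_327059_nt.FL.Core

/-!
# A4: the ultrapower, transported to the complex numbers
-/

set_option autoImplicit false

namespace Pool.Agent.Work.MP_327059_nt.FR

open Pool.Agent.ED Pool.Agent.Work.MP_327059_nt.FL Pool.Agent.Work.MP_327059_nt.AA

/-- Dependent numbers give a linear relation between the differentials. -/
theorem UPC_rel {m : ℕ} (F : Option (Fin m) → ℂ) (hF : ∀ j, F (some j) ≠ 0)
    (h : ¬ AlgebraicIndependent ℚ F) : ∃ a : Option (Fin m) → ℂ, a ≠ 0 ∧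
      ∀ δ : Derivation ℚ ℂ ℂ,
        a none * δ (F none) + ∑ j, a (some j) * (δ (F (some j)) / F (some j)) = 0 := by
  classical
  obtain ⟨s, hs, hrank⟩ := exists_finset_rank (K := ℚ) F
  have hex : ∃ o, o ∉ s := by
    by_contra hcon
    push Not at hcon
    apply h
    have h1 := hs.comp (fun o : Option (Fin m) => (⟨o, hcon o⟩ : s))
      (fun a b hab => congrArg Subtype.val hab)
    exact h1
  obtain ⟨o, ho⟩ := hex
  have hcard : s.card < Fintype.card (Option (Fin m)) := Finset.card_lt_univ_of_notMem ho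
  set D := Submodule.span ℂ (Set.range fun X : Derivation ℚ ℂ ℂ => fun i => X (F i)) with hD
  have hlt : D < ⊤ := by
    rw [lt_top_iff_ne_top]
    intro htop
    rw [htop, finrank_top, Module.finrank_fintype_fun_eq_card] at hrank
    omega
  obtain ⟨f, hf0, hf⟩ := Submodule.exists_le_ker_of_lt_top D hlt
  have hfs : ∀ u : Option (Fin m) → ℂ, f u = ∑ i, u i * f (Pi.single i 1) := by
    intro u
    have h0 : u = ∑ i, u i • (Pi.single i (1 : ℂ) : Option (Fin m) → ℂ) := by
      funext k
      rw [Finset.sum_apply]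
      simp [Pi.single_apply]
    conv_lhs => rw [h0]
    rw [map_sum]
    exact Finset.sum_congr rfl fun i _ => by rw [map_smul, smul_eq_mul]
  refine ⟨fun o => o.elim (f (Pi.single none 1)) (fun j => f (Pi.single (some j) 1) * F (some j)),
    ?_, ?_⟩
  · intro h0
    apply hf0
    have h1 : ∀ i, f (Pi.single i (1 : ℂ)) = 0 := by
      intro i
      cases i with
      | none => exact congrFun h0 none
      | some j =>
        have := congrFun h0 (some j)
        exact (mul_eq_zero.1 this).resolve_right (hF j)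
    apply LinearMap.ext
    intro u
    rw [hfs]
    simp [h1]
  · intro δ
    have h1 : (fun i => δ (F i)) ∈ LinearMap.ker f := hf (Submodule.subset_span ⟨δ, rfl⟩)
    rw [LinearMap.mem_ker, hfs, Fintype.sum_option] at h1
    rw [← h1]
    simp only [Option.elim]
    congr 1
    · ring
    · refine Finset.sum_congr rfl fun j _ => ?_
      have := hF j
      field_simp

/-- The ultrapower over a countable index set is isomorphic to `ℂ`. -/
theorem UPC_iso {α : Type} [Countable α] (U : Ultrafilter α) : Nonempty (UG U ≃+* ℂ) := by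
  have h1 : Cardinal.mk ℂ ≤ Cardinal.mk (UG U) :=
    Cardinal.mk_le_of_injective (con U).injective
  have h2 : Cardinal.mk (UG U) ≤ Cardinal.mk ℂ := by
    refine (Cardinal.mk_le_of_surjective (cl_surj U)).trans ?_
    have h3 : Cardinal.mk (α → ℂ) = Cardinal.mk ℂ ^ Cardinal.mk α := by
      rw [Cardinal.power_def]
    rw [h3, Cardinal.mk_complex]
    calc Cardinal.continuum ^ Cardinal.mk α ≤ Cardinal.continuum ^ Cardinal.aleph0 :=
          Cardinal.power_le_power_left Cardinal.continuum_ne_zero Cardinal.mk_le_aleph0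
      _ = Cardinal.continuum := Cardinal.continuum_power_aleph0
  have h4 : Cardinal.mk (UG U) = Cardinal.mk ℂ := le_antisymm h2 h1
  refine IsAlgClosed.ringEquiv_of_equiv_of_charZero ?_ (Cardinal.eq.1 h4)
  rw [h4, Cardinal.mk_complex]
  exact Cardinal.aleph0_lt_continuum

theorem UPC_sum {n : ℕ} (U : Ultrafilter (Fin n → ℚ)) (c : Fin n → ℂ) :
    ∑ i, cl U (fun t : Fin n → ℚ => ((t i : ℚ) : ℂ)) * con U (c i) =
      cl U (fun t => ∑ i, ((t i : ℚ) : ℂ) * c i) := by
  have h1 : (fun t : Fin n → ℚ => ∑ i, ((t i : ℚ) : ℂ) * c i) =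
      ∑ i, ((fun t : Fin n → ℚ => ((t i : ℚ) : ℂ)) * (fun _ => c i)) := by
    funext t
    rw [Finset.sum_apply]
    rfl
  rw [h1, map_sum]
  exact Finset.sum_congr rfl fun i _ => by rw [map_mul]; rfl

theorem UPC_lin {n : ℕ} (l : Fin n → ℂ) (L : ℂ →ₗ[ℚ] ℂ) (t : Fin n → ℚ) :
    ∑ i, ((t i : ℚ) : ℂ) * L (l i) = L (Fintype.linearCombination ℚ l t) := by
  rw [Fintype.linearCombination_apply, map_sum]
  exact Finset.sum_congr rfl fun i _ => by rw [map_smul, Rat.smul_def]

/-- Transport of a derivation. -/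
noncomputable def UPC_tr {K : Type} [Field K] [CharZero K] (e : K ≃+* ℂ)
    (D : Derivation ℚ K K) : Derivation ℚ ℂ ℂ :=
  Derivation.mk' (AddMonoidHom.toRatLinearMap
    (((e : K →+* ℂ).toAddMonoidHom.comp (D : K →ₗ[ℚ] K).toAddMonoidHom).comp
      (e.symm : ℂ →+* K).toAddMonoidHom)) (by
    intro a b
    change e (D (e.symm (a * b))) = a * e (D (e.symm b)) + b * e (D (e.symm a))
    rw [map_mul, Derivation.leibniz, map_add, smul_eq_mul, smul_eq_mul, map_mul, map_mul,
      RingEquiv.apply_symm_apply, RingEquiv.apply_symm_apply])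

theorem UPC_tr_apply {K : Type} [Field K] [CharZero K] (e : K ≃+* ℂ)
    (D : Derivation ℚ K K) (z : K) : UPC_tr e D (e z) = e (D z) := by
  change e (D (e.symm (e z))) = _
  rw [RingEquiv.symm_apply_apply]

theorem pr_UPC : S_UPC := by
  classical
  intro n m l b hn hli hcov
  set lam := Fintype.linearCombination ℚ l with hlam
  let Bad : (Fin n → ℚ) → Prop := fun t => ¬ AlgebraicIndependent ℚ (fun o : Option (Fin m) =>
      o.elim (lam t) (fun j => Complex.exp (b j * lam t)))
  let S : Set (Set (Fin n → ℚ)) := {A | ∃ W : Submodule ℚ (Fin n → ℚ), W ≠ ⊤ ∧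
    A = {t | t ∉ W ∧ Bad t}}
  obtain ⟨U, hU⟩ := Ultrafilter.exists_ultrafilter_of_finite_inter_nonempty S (by
    intro T hT
    have hW : ∀ A : T, ∃ W : Submodule ℚ (Fin n → ℚ), W ≠ ⊤ ∧
        (A : Set (Fin n → ℚ)) = {t | t ∉ W ∧ Bad t} := fun A => hT A.2
    choose W hW1 hW2 using hW
    obtain ⟨t, ht1, ht2⟩ := hcov (Finset.univ.image W) (by
      intro V hV
      obtain ⟨A, _, rfl⟩ := Finset.mem_image.1 hV
      exact hW1 A)
    refine ⟨t, fun A hA => ?_⟩
    have h1 := hW2 ⟨A, hA⟩
    change A = _ at h1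
    rw [h1]
    exact ⟨ht1 _ (Finset.mem_image.2 ⟨⟨A, hA⟩, Finset.mem_univ _, rfl⟩), ht2⟩)
  have hev : ∀ W : Submodule ℚ (Fin n → ℚ), W ≠ ⊤ → ∀ᶠ t in (U : Filter (Fin n → ℚ)),
      t ∉ W ∧ Bad t := by
    intro W hW
    exact hU ⟨W, hW, rfl⟩
  have hbot : (⊥ : Submodule ℚ (Fin n → ℚ)) ≠ ⊤ := by
    intro h
    have h1 : (Pi.single ⟨0, hn⟩ 1 : Fin n → ℚ) ∈ (⊥ : Submodule ℚ (Fin n → ℚ)) := by
      rw [h]; trivial
    rw [Submodule.mem_bot] at h1
    have h2 := congrFun h1 ⟨0, hn⟩
    simp at h2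
  -- the relations
  have hrel : ∀ t : Fin n → ℚ, ∃ a : Option (Fin m) → ℂ, (Bad t → a ≠ 0) ∧
      (∀ δ : Derivation ℚ ℂ ℂ, a none * δ (lam t) + ∑ j, a (some j) * ld (b j) δ (lam t) = 0) := by
    intro t
    by_cases ht : Bad t
    · obtain ⟨a, ha, h⟩ := UPC_rel _ (fun j => Complex.exp_ne_zero _) ht
      exact ⟨a, fun _ => ha, fun δ => h δ⟩
    · exact ⟨0, fun h => absurd h ht, fun δ => by simp⟩
  choose a ha1 ha2 using hrel
  let v : Fin n → UG U := fun i => cl U (fun t => ((t i : ℚ) : ℂ))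
  let A : Option (Fin m) → UG U := fun o => cl U (fun t => a t o)
  have F1 : ∀ c : Fin n → ℂ, ∑ i, v i * con U (c i) = 0 → c = 0 := by
    intro c hc
    rw [UPC_sum, cl_eq_zero] at hc
    by_contra hne
    let W : Submodule ℚ (Fin n → ℚ) := LinearMap.ker (Fintype.linearCombination ℚ c)
    have hWmem : ∀ t, t ∈ W ↔ ∑ i, ((t i : ℚ) : ℂ) * c i = 0 := by
      intro t
      rw [LinearMap.mem_ker, Fintype.linearCombination_apply]
      simp only [Rat.smul_def]
    have hWtop : W ≠ ⊤ := by
      intro htop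
      apply hne
      funext i
      have h1 : (Pi.single i 1 : Fin n → ℚ) ∈ W := by rw [htop]; trivial
      rw [hWmem, Finset.sum_eq_single i] at h1
      · simpa using h1
      · intro k _ hk
        rw [Pi.single_eq_of_ne hk]
        simp
      · intro h
        exact absurd (Finset.mem_univ _) h
    obtain ⟨t, ht1, ht2⟩ := (hc.and (hev W hWtop)).exists
    exact ht2.1 ((hWmem t).2 ht1)
  have hA0 : A ≠ 0 := by
    intro h0
    have h1 : ∀ o, ∀ᶠ t in (U : Filter (Fin n → ℚ)), a t o = 0 := by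
      intro o
      rw [← cl_eq_zero]
      exact congrFun h0 o
    have h2 := (Filter.eventually_all.2 h1).and (hev ⊥ hbot)
    obtain ⟨t, ht1, ht2⟩ := h2.exists
    exact ha1 t ht2.2 (funext ht1)
  have hAr : ∀ δ : Derivation ℚ ℂ ℂ, A none * ∑ i, v i * con U (δ (l i)) +
      ∑ j, A (some j) * ∑ i, v i * (con U (δ (Complex.exp (b j * l i))) /
        con U (Complex.exp (b j * l i))) = 0 := by
    intro δ
    have h1 : ∑ i, v i * con U (δ (l i)) = cl U (fun t => δ (lam t)) := by
      rw [UPC_sum]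
      congr 1
      funext t
      exact UPC_lin l (δ : ℂ →ₗ[ℚ] ℂ) t
    have h2 : ∀ j, ∑ i, v i * (con U (δ (Complex.exp (b j * l i))) /
        con U (Complex.exp (b j * l i))) = cl U (fun t => ld (b j) δ (lam t)) := by
      intro j
      have h3 : ∀ i, con U (δ (Complex.exp (b j * l i))) / con U (Complex.exp (b j * l i)) =
          con U (ld (b j) δ (l i)) := by
        intro i
        rw [ld_apply, map_div₀]
      simp only [h3]
      rw [UPC_sum]
      congr 1
      funext t
      exact UPC_lin l (ld (b j) δ) t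
    rw [h1]
    simp only [h2]
    have h4 : A none * cl U (fun t => δ (lam t)) +
        ∑ j, A (some j) * cl U (fun t => ld (b j) δ (lam t)) =
        cl U ((fun t => a t none) * (fun t => δ (lam t)) +
          ∑ j, (fun t => a t (some j)) * (fun t => ld (b j) δ (lam t))) := by
      rw [map_add, map_mul, map_sum]
      congr 1
    rw [h4]
    have h5 : ((fun t => a t none) * (fun t => δ (lam t)) +
          ∑ j, (fun t => a t (some j)) * (fun t => ld (b j) δ (lam t))) = 0 := by
      funext t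
      rw [Pi.add_apply, Finset.sum_apply]
      exact ha2 t δ
    rw [h5, map_zero]
  -- transport
  obtain ⟨e⟩ := UPC_iso U
  refine ⟨(e : UG U →+* ℂ).comp (con U), fun δ => UPC_tr e (xd U δ), fun i => e (v i),
    fun o => e (A o), ?_, ?_, ?_, ?_, ?_⟩
  · intro δ c
    change UPC_tr e (xd U δ) (e (con U c)) = e (con U (δ c))
    rw [UPC_tr_apply, xd_con]
  · intro δ i
    rw [UPC_tr_apply]
    change e (xd U δ (cl U (fun t => ((t i : ℚ) : ℂ)))) = 0
    rw [xd_rat U δ (fun t => t i), map_zero]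
  · intro c hc
    apply F1
    have h1 : e (∑ i, v i * con U (c i)) = 0 := by
      rw [map_sum, ← hc]
      exact Finset.sum_congr rfl fun i _ => by rw [map_mul]; rfl
    exact (map_eq_zero_iff _ e.injective).1 h1
  · intro h0
    apply hA0
    funext o
    have := congrFun h0 o
    exact (map_eq_zero_iff _ e.injective).1 this
  · intro δ
    have h1 := congrArg e (hAr δ)
    rw [map_zero, map_add, map_mul, map_sum, map_sum] at h1
    rw [← h1]
    congr 1
    · congr 1
      exact Finset.sum_congr rfl fun i _ => by rw [map_mul]; rfl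
    · refine Finset.sum_congr rfl fun j _ => ?_
      rw [map_mul, map_sum]
      congr 1
      exact Finset.sum_congr rfl fun i _ => by rw [map_mul, map_div₀]; rfl

end Pool.Agent.Work.MP_327059_nt.FR
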