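import Pool.Agent.Work.MP_327059_nt.GL.Asm
import Pool.Agent.Work.MP_327059_nt.FR.I_MTr
import Pool.Agent.Work.MP_327059_nt.FR.I_MStep
import Pool.Agent.Work.MP_327059_nt.FR.I_MZE
import Pool.Agent.Work.MP_327059_nt.FR.I_PLg
import Pool.Agent.Work.MP_327059_nt.FR.I_Psir
import Pool.Agent.Work.MP_327059_nt.FR.I_Valr
import Pool.Agent.Work.MP_327059_nt.FR.I_LAc
import Pool.Agent.Work.MP_327059_nt.FR.I_LAa
import Pool.Agent.Work.MP_327059_nt.FR.I_LAl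
import Pool.Agent.Work.MP_327059_nt.FR.I_LA
import Pool.Agent.Work.MP_327059_nt.FR.I_LiV
import Pool.Agent.Work.MP_327059_nt.FR.I_NoRY
import Pool.Agent.Work.MP_327059_nt.FR.I_NoRL
import Pool.Agent.Work.MP_327059_nt.FR.I_NoZr
import Pool.Agent.Work.MP_327059_nt.FR.I_TIr
import Pool.Agent.Work.MP_327059_nt.FR.I_Grow
import Pool.Agent.Work.MP_327059_nt.FR.I_Piv
import Pool.Agent.Work.MP_327059_nt.FR.I_Fun
import Pool.Agent.Work.MP_327059_nt.FR.I_Lin2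
import Pool.Agent.Work.MP_327059_nt.FR.UPC
import Pool.Agent.Work.MP_327059_nt.FR.Ax2
import Pool.Agent.Work.MP_327059_nt.FR.Final

/-!
# PROJECT FR: assembly
-/

set_option autoImplicit false

namespace Pool.Agent.Work.MP_327059_nt.FR

open Pool.Agent.Work.MP_327059_nt.GL

theorem y_MTr : S_MTr := pr_MTr

theorem y_MStep : S_MStep := pr_MStep x_ZRes y_MTr

theorem y_MZE : S_MZE := pr_MZE y_MStep

theorem y_ZEr : S_ZEr := pr_ZEr y_MZE

theorem y_PLg : S_PLg := pr_PLg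

theorem y_Psir : S_Psir := pr_Psir y_PLg x_Tay

theorem y_Valr : S_Valr := pr_Valr

theorem y_LAc : S_LAc := pr_LAc x_RankBox

theorem y_LAa : S_LAa := pr_LAa y_PLg x_Tay

theorem y_LAl : S_LAl := pr_LAl

theorem y_LA : S_LA := pr_LA y_LAc y_LAa y_LAl y_MZE

theorem y_LiV : S_LiV := pr_LiV

theorem y_NoRY : S_NoRY := pr_NoRY y_LA y_LiV x_ManyInd x_Pert x_NearLog

theorem y_NoRL : S_NoRL := pr_NoRL y_LA x_ManyInd

theorem y_NoZr : S_NoZr := pr_NoZr y_ZEr y_NoRY y_NoRL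

theorem y_TIr : S_TIr := pr_TIr x_Crit y_Psir y_Valr x_Tensor y_NoZr

theorem y_Grow : S_Grow := pr_Grow

theorem y_Fun : S_Fun := pr_Fun

theorem y_Lin2 : S_Lin2 := pr_Lin2 pr_Piv x_AnnExt x_DoubleAnn

theorem y_Ax2 : S_Ax2 := pr_Ax2 x_AxOut

theorem y_CovB : S_CovB := pr_CovB pr_UPC y_Ax2 y_Lin2 y_Grow y_Fun y_TIr x_TrCount

end Pool.Agent.Work.MP_327059_nt.FR
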