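import Pool.Agent.Work.MP_327059_nt.FR.Stmts2

/-!
# A7: covering by proper subspaces
-/

set_option autoImplicit false

namespace Pool.Agent.Work.MP_327059_nt.FR

open Pool.Agent.Work.MP_327059_nt.GL

theorem CovR_AD_mono {R : ℕ} (t : Fin R → ℂ) (D : ℕ) : AD t D ≤ AD t (D + 1) := by
  refine Submodule.span_mono ?_
  rintro z ⟨e, he, hz⟩
  exact ⟨e, by omega, hz⟩

theorem CovR_AD_mul {R : ℕ} (t : Fin R → ℂ) (D : ℕ) (q : Fin R) {z : ℂ} (hz : z ∈ AD t D) :
    z * t q ∈ AD t (D + 1) := by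
  classical
  unfold AD at hz
  induction hz using Submodule.span_induction with
  | mem z hz =>
    obtain ⟨e, he, rfl⟩ := hz
    refine Submodule.subset_span ⟨fun i => e i + if i = q then 1 else 0, ?_, ?_⟩
    · rw [Finset.sum_add_distrib, Finset.sum_ite_eq' Finset.univ q, if_pos (Finset.mem_univ q)]
      omega
    · simp only [pow_add, Finset.prod_mul_distrib]
      congr 1
      rw [Finset.prod_eq_single q]
      · rw [if_pos rfl, pow_one]
      · intro i _ hi
        rw [if_neg hi, pow_zero]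
      · intro h
        exact absurd (Finset.mem_univ q) h
  | zero => rw [zero_mul]; exact Submodule.zero_mem _
  | add x y _ _ hx hy => rw [add_mul]; exact Submodule.add_mem _ hx hy
  | smul a x _ hx => rw [smul_mul_assoc]; exact Submodule.smul_mem _ _ hx

/-- Independence of the exponents. -/
theorem CovR_LI {m r r' : ℕ} (b : Fin m → ℂ)
    (hb : ∀ (x : ℚ) (y : Fin m → ℚ), (x : ℂ) + ∑ k, b k * (y k : ℂ) = 0 →
      x = 0 ∧ ∀ k, y k = 0)
    (J : Finset (Fin m)) (c : J → Fin m → ℂ)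
    (hc : ∀ j j' : J, c j j' = if j = j' then 1 else 0) (g : Fin r → ℂ) (h : Fin r' → ℂ)
    (hh : LinearIndependent ℚ h) (q : J → Fin r' → Fin m → Fin r → ℚ)
    (hq : ∀ j a k, h a * c j k = ∑ p, (q j a k p : ℂ) * g p) :
    LinearIndependent ℚ (Sum.elim (fun p : Fin r => (Pi.single p 1 : Fin r → ℂ))
      (fun ja : J × Fin r' => fun p => ∑ k, b k * (q ja.1 ja.2 k p : ℂ))) := by
  classical
  rw [Fintype.linearIndependent_iff]
  intro x hx
  have hp : ∀ p, x (Sum.inl p) = 0 ∧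
      ∀ k, ∑ ja : J × Fin r', x (Sum.inr ja) * q ja.1 ja.2 k p = 0 := by
    intro p
    apply hb
    have h1 := congrFun hx p
    rw [Finset.sum_apply, Fintype.sum_sum_type] at h1
    simp only [Sum.elim_inl, Sum.elim_inr, Pi.smul_apply, Pi.zero_apply] at h1
    rw [Finset.sum_eq_single p] at h1
    · rw [Pi.single_eq_same, Rat.smul_def, mul_one] at h1
      rw [← h1]
      congr 1
      push_cast
      simp only [Finset.mul_sum, Rat.smul_def]
      rw [Finset.sum_comm]
      exact Finset.sum_congr rfl fun ja _ => Finset.sum_congr rfl fun k _ => by ring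
    · intro p' _ hp'
      rw [Pi.single_eq_of_ne hp'.symm, smul_zero]
    · intro h2
      exact absurd (Finset.mem_univ p) h2
  rintro (p | ⟨j, a⟩)
  · exact (hp p).1
  · have h1 : ∑ a, x (Sum.inr (j, a)) • h a = 0 := by
      have h2 : ∑ ja : J × Fin r', (x (Sum.inr ja) : ℂ) * (h ja.2 * c ja.1 j) = 0 := by
        simp only [hq, Finset.mul_sum]
        rw [Finset.sum_comm]
        refine Finset.sum_eq_zero fun p _ => ?_
        have h3 := (hp p).2 (j : Fin m)
        have h4 : ((∑ ja : J × Fin r', x (Sum.inr ja) * q ja.1 ja.2 j p : ℚ) : ℂ) = 0 := by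
          rw [h3, Rat.cast_zero]
        push_cast at h4
        have h5 : ∑ ja : J × Fin r', (x (Sum.inr ja) : ℂ) *
            ((q ja.1 ja.2 j p : ℂ) * g p) =
            (∑ ja : J × Fin r', (x (Sum.inr ja) : ℂ) * (q ja.1 ja.2 j p : ℂ)) * g p := by
          rw [Finset.sum_mul]
          exact Finset.sum_congr rfl fun ja _ => by ring
        rw [h5, h4, zero_mul]
      rw [Fintype.sum_prod_type, Finset.sum_eq_single j] at h2
      · rw [← h2]
        refine Finset.sum_congr rfl fun a _ => ?_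
        rw [hc, if_pos rfl, mul_one, Rat.smul_def]
      · intro j' _ hj'
        refine Finset.sum_eq_zero fun a _ => ?_
        rw [hc, if_neg hj', mul_zero, mul_zero]
      · intro h3
        exact absurd (Finset.mem_univ j) h3
    exact (Fintype.linearIndependent_iff.1 hh) (fun a => x (Sum.inr (j, a))) h1 a

/-- Algebraic numbers are algebraic over `ℚ(f)`. -/
theorem CovR_alg {σ : Type} (f : σ → ℂ) {z : ℂ} (hz : IsAlgebraic ℚ z) : AlgOver f z :=
  hz.extendScalars (algebraMap ℚ (IntermediateField.adjoin ℚ (Set.range f))).injective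

theorem CovR_sum {σ ι : Type} [Fintype ι] (f : σ → ℂ) (q : ι → ℚ) (l : ι → ℂ)
    (hl : ∀ i, AlgOver f (l i)) : AlgOver f (∑ i, (q i : ℂ) * l i) := by
  have h1 : ∀ i, (q i : ℂ) * l i ∈
      (algebraicClosure (IntermediateField.adjoin ℚ (Set.range f)) ℂ) := by
    intro i
    exact mul_mem (mem_algebraicClosure_iff.2 (CovR_alg f (isAlgebraic_ratCast ℚ (q i))))
      (mem_algebraicClosure_iff.2 (hl i))
  exact mem_algebraicClosure_iff.1 (sum_mem fun i _ => h1 i)

theorem CovR_TrLe (h7 : S_TrCount) {σ : Type} {k0 τ : ℕ} (f : Fin k0 → ℂ) (θ : σ → ℂ)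
    (hθ : ∀ x, AlgOver f (θ x)) (hk : k0 ≤ τ) : TrLe τ θ := by
  intro s hs
  have h1 := h7 (Fin (τ + 1)) (Fin k0) (fun i => θ (s i)) f hs (fun i => hθ _)
  rw [Fintype.card_fin, Fintype.card_fin] at h1
  omega

theorem CovR_mon {n m : ℕ} (b : Fin m → ℂ) (l : Fin n → ℂ) (ξ : Fin n → Fin m → ℤ) :
    mon (fun i j => Complex.exp (b j * l i)) ξ =
      Complex.exp (∑ i, ∑ k, (ξ i k : ℂ) * (b k * l i)) := by
  unfold mon
  rw [Complex.exp_sum]
  refine Finset.prod_congr rfl fun i _ => ?_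
  rw [Complex.exp_sum]
  refine Finset.prod_congr rfl fun k _ => ?_
  rw [Complex.exp_int_mul]

/-- The exponential of the form `φ_{j,a}` at `w_i`. -/
theorem CovR_exp {n m r r' k0 : ℕ} (b : Fin m → ℂ) (l v : Fin n → ℂ) (f : Fin k0 → ℂ)
    (G : AddSubgroup (Fin n → Fin m → ℤ))
    (hG : ∀ ξ ∈ G, AlgOver f (mon (fun i j => Complex.exp (b j * l i)) ξ))
    (J : Finset (Fin m)) (c : J → Fin m → ℂ)
    (hξ : ∀ (j : J) (μ : ℂ →ₗ[ℚ] ℚ), ∃ N : ℕ, N ≠ 0 ∧ ∃ ξ ∈ G, ∀ i k,
      (ξ i k : ℚ) = N * μ (v i * c j k))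
    (g : Fin r → ℂ) (h : Fin r' → ℂ) (q : J → Fin r' → Fin m → Fin r → ℚ)
    (hq : ∀ j a k, h a * c j k = ∑ p, (q j a k p : ℂ) * g p) (μ : ℂ →ₗ[ℚ] ℚ)
    (j : J) (a : Fin r') :
    AlgOver f (Complex.exp (∑ p, (∑ k, b k * (q j a k p : ℂ)) *
      ∑ i, (μ (g p * v i) : ℂ) * l i)) := by
  classical
  obtain ⟨N, hN, ξ, hξG, hξ'⟩ := hξ j (μ.comp (LinearMap.mulLeft ℚ (h a)))
  have h1 : ∀ i k, ((ξ i k : ℤ) : ℂ) = N * ∑ p, (q j a k p : ℂ) * (μ (g p * v i) : ℂ) := by
    intro i k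
    have h2 : (ξ i k : ℚ) = N * ∑ p, q j a k p * μ (g p * v i) := by
      rw [hξ']
      congr 1
      change μ (h a * (v i * c j k)) = _
      have h3 : h a * (v i * c j k) = ∑ p, q j a k p • (g p * v i) := by
        have h4 : h a * (v i * c j k) = (h a * c j k) * v i := by ring
        rw [h4, hq, Finset.sum_mul]
        exact Finset.sum_congr rfl fun p _ => by rw [Rat.smul_def, mul_assoc]
      rw [h3, map_sum]
      exact Finset.sum_congr rfl fun p _ => by rw [map_smul, smul_eq_mul]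
    have h3 : (((ξ i k : ℤ) : ℚ) : ℂ) = ((N * ∑ p, q j a k p * μ (g p * v i) : ℚ) : ℂ) := by
      rw [h2]
    push_cast at h3
    exact h3
  have h2 : Complex.exp (∑ p, (∑ k, b k * (q j a k p : ℂ)) *
      ∑ i, (μ (g p * v i) : ℂ) * l i) ^ N =
      mon (fun i j => Complex.exp (b j * l i)) ξ := by
    rw [CovR_mon, ← Complex.exp_nat_mul]
    congr 1
    simp only [h1, Finset.mul_sum, Finset.sum_mul]
    rw [Finset.sum_comm]
    refine Finset.sum_congr rfl fun i _ => ?_
    rw [Finset.sum_comm]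
    refine Finset.sum_congr rfl fun k _ => ?_
    exact Finset.sum_congr rfl fun p _ => by ring
  have h3 := hG ξ hξG
  rw [← h2] at h3
  exact IsAlgebraic.of_pow (Nat.pos_of_ne_zero hN) h3

/-- The statement of the contradiction. -/
def CovP (m s r r' n₀ : ℕ) : Prop :=
  ∀ (n : ℕ) (b : Fin m → ℂ) (l v : Fin n → ℂ) (k0 : ℕ) (f : Fin k0 → ℂ)
      (G : AddSubgroup (Fin n → Fin m → ℤ)) (J : Finset (Fin m)) (c : J → Fin m → ℂ)
      (g : Fin r → ℂ) (h : Fin r' → ℂ) (q : J → Fin r' → Fin m → Fin r → ℚ),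
      n₀ ≤ n → (∀ k, IsAlgebraic ℚ (b k)) →
      (∀ (x : ℚ) (y : Fin m → ℚ), (x : ℂ) + ∑ k, b k * (y k : ℂ) = 0 →
        x = 0 ∧ ∀ k, y k = 0) →
      LinearIndependent ℚ v → LinearIndependent ℚ l →
      (∀ t : Fin n → ℚ, IsAlgebraic ℚ (Complex.exp (∑ i, (t i : ℂ) * l i))) →
      (∀ ξ ∈ G, AlgOver f (mon (fun i j => Complex.exp (b j * l i)) ξ)) →
      J.card = s → (∀ j j' : J, c j j' = if j = j' then 1 else 0) →
      (∀ (j : J) (μ : ℂ →ₗ[ℚ] ℚ), ∃ N : ℕ, N ≠ 0 ∧ ∃ ξ ∈ G, ∀ i k,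
        (ξ i k : ℚ) = N * μ (v i * c j k)) →
      LinearIndependent ℚ g → LinearIndependent ℚ h →
      (∀ j a k, h a * c j k = ∑ p, (q j a k p : ℂ) * g p) →
      ((∀ i, AlgOver f (l i)) ∧ k0 ≤ s ∨ k0 + 1 ≤ s) → False

/-- The contradiction. -/
theorem CovR_core (h5 : S_Fun) (h6 : S_TIr) (h7 : S_TrCount) (m s r r' : ℕ)
    (hr : 1 ≤ r) (hrr : s * r < s * r' + r) : ∃ n₀ : ℕ, CovP m s r r' n₀ := by
  classical
  obtain ⟨n1, hn1⟩ := h6 r (r + s * r') 1 s le_rfl hr (by nlinarith)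
  have hn2' : ∃ n2 : ℕ, 1 ≤ s → ∀ φ : Fin (r + s * r') → Fin r → ℂ,
      (∀ j k, IsAlgebraic ℚ (φ j k)) → LinearIndependent ℚ φ →
      ∀ (N : ℕ) (w : Fin N → Fin r → ℂ), Lg w → Rob n2 w →
        ¬ TrLe (s - 1) (fun q : Fin N × Fin (r + s * r') => ey φ w q.1 q.2) := by
    by_cases hs : 1 ≤ s
    · obtain ⟨n2, hn2⟩ := h6 r (r + s * r') 0 (s - 1) (Nat.zero_le 1) hr (by
        have h8 : s - 1 + 1 = s := by omega
        rw [h8]
        nlinarith)
      exact ⟨n2, fun _ φ hφ hφi N w hw hw' => (hn2 φ hφ hφi N w hw hw').2 rfl⟩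
    · exact ⟨0, fun h => absurd h hs⟩
  obtain ⟨n2, hn2⟩ := hn2'
  refine ⟨n1 + n2, ?_⟩
  intro n b l v k0 f G J c g h q hn hba hb hv hl hlog hG hJ hc hξ hg hh hq halt
  obtain ⟨N, μ, hμ⟩ := h5 n r v l g hv hl hg
  have hcard : Fintype.card (Fin r ⊕ (J × Fin r')) = r + s * r' := by
    rw [Fintype.card_sum, Fintype.card_prod, Fintype.card_fin, Fintype.card_fin,
      Fintype.card_coe, hJ]
  let e : Fin (r + s * r') ≃ Fin r ⊕ (J × Fin r') := (Fintype.equivFinOfCardEq hcard).symm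
  let Φ : Fin r ⊕ (J × Fin r') → Fin r → ℂ :=
    Sum.elim (fun p : Fin r => (Pi.single p 1 : Fin r → ℂ))
      (fun ja : J × Fin r' => fun p => ∑ k, b k * (q ja.1 ja.2 k p : ℂ))
  let φ : Fin (r + s * r') → Fin r → ℂ := fun x => Φ (e x)
  let w : Fin N → Fin r → ℂ := fun i k => ∑ a, (μ i (g k * v a) : ℂ) * l a
  have hΦa : ∀ x k, IsAlgebraic ℚ (Φ x k) := by
    rintro (p | ⟨j, a⟩) k
    · change IsAlgebraic ℚ ((Pi.single p 1 : Fin r → ℂ) k)
      by_cases hk : k = p
      · subst hk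
        rw [Pi.single_eq_same]
        exact isAlgebraic_one
      · rw [Pi.single_eq_of_ne hk]
        exact isAlgebraic_zero
    · change IsAlgebraic ℚ (∑ k', b k' * (q j a k' k : ℂ))
      refine (mem_algebraicClosure_iff (F := ℚ) (E := ℂ)).1 (sum_mem fun k' _ => ?_)
      exact mem_algebraicClosure_iff.2 ((hba k').mul (isAlgebraic_ratCast ℚ _))
  have hφi : LinearIndependent ℚ φ :=
    (CovR_LI b hb J c hc g h hh q hq).comp e e.injective
  have hlg : Lg w := by
    intro i k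
    exact hlog (fun a => μ i (g k * v a))
  have hrob1 : Rob n1 w := fun c' hc' => le_trans (by omega) (hμ c' hc')
  have hrob2 : Rob n2 w := fun c' hc' => le_trans (by omega) (hμ c' hc')
  have hey : ∀ i x, AlgOver f (ey φ w i x) := by
    intro i x
    change AlgOver f (Complex.exp (∑ k, Φ (e x) k * w i k))
    rcases hx : e x with p | ⟨j, a⟩
    · have h8 : ∑ k, Φ (Sum.inl p) k * w i k = w i p := by
        change ∑ k, (Pi.single p 1 : Fin r → ℂ) k * w i k = w i p
        rw [Finset.sum_eq_single p]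
        · rw [Pi.single_eq_same, one_mul]
        · intro k _ hk
          rw [Pi.single_eq_of_ne hk, zero_mul]
        · intro h9
          exact absurd (Finset.mem_univ p) h9
      rw [h8]
      exact CovR_alg f (hlg i p)
    · exact CovR_exp b l v f G hG J c hξ g h q hq (μ i) j a
  rcases halt with ⟨hli, hk0⟩ | hk0
  · refine (hn1 φ (fun x k => hΦa _ k) hφi N w hlg hrob1).1 rfl ?_
    refine CovR_TrLe h7 f _ ?_ hk0
    rintro (⟨i, k⟩ | ⟨i, x⟩)
    · exact CovR_sum f _ l hli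
    · exact hey i x
  · refine hn2 (by omega) φ (fun x k => hΦa _ k) hφi N w hlg hrob2 ?_
    exact CovR_TrLe h7 f _ (fun x => hey x.1 x.2) (by omega)

/-- A7, for arbitrary algebraic exponents `b_j` such that `1, b_1, …, b_m` are linearly independent
over `ℚ`. -/
def S_CovB : Prop := ∀ m : ℕ, ∃ n₀ : ℕ, ∀ b : Fin m → ℂ, (∀ k, IsAlgebraic ℚ (b k)) →
  LinearIndependent ℚ (Fin.cons 1 b : Fin (m + 1) → ℂ) → ∀ n : ℕ, n₀ < n →
    ∀ l : Fin n → ℂ, LinearIndependent ℚ l →
    (∀ t : Fin n → ℚ, IsAlgebraic ℚ (Complex.exp (Fintype.linearCombination ℚ l t))) →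
      ∃ T : Finset (Submodule ℚ (Fin n → ℚ)), (∀ W ∈ T, W ≠ ⊤) ∧
        ∀ t : Fin n → ℚ, ¬ AlgebraicIndependent ℚ
          (Fin.cons (Fintype.linearCombination ℚ l t)
            (fun j => Complex.exp (b j * Fintype.linearCombination ℚ l t)) :
              Fin (m + 1) → ℂ) → ∃ W ∈ T, t ∈ W

theorem pr_CovB (h1 : S_UPC) (h2 : S_Ax2) (h3 : S_Lin2) (h4 : S_Grow) (h5 : S_Fun)
    (h6 : S_TIr) (h7 : S_TrCount) : S_CovB := by
  classical
  intro m
  choose D1 hD1 using fun s => h4 (m * m) s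
  have hcore : ∀ s r r' : ℕ, ∃ n₀ : ℕ, 1 ≤ r → s * r < s * r' + r → CovP m s r r' n₀ := by
    intro s r r'
    by_cases h : 1 ≤ r ∧ s * r < s * r' + r
    · obtain ⟨n₀, hn₀⟩ := CovR_core h5 h6 h7 m s r r' h.1 h.2
      exact ⟨n₀, fun _ _ => hn₀⟩
    · exact ⟨0, fun a b => absurd ⟨a, b⟩ h⟩
  choose n0 hn0 using hcore
  refine ⟨∑ s ∈ Finset.range (m + 1), ∑ r ∈ Finset.range (D1 s + 1),
    ∑ r' ∈ Finset.range (D1 s + 1), n0 s r r', ?_⟩
  intro b hba hbl n hn l hl hlog
  by_contra hcov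
  push Not at hcov
  obtain ⟨ι, xd, v, a, hNS⟩ := h1 n m l b (by omega) hl (by
    intro T hT
    obtain ⟨t, ht, ht'⟩ := hcov T hT
    refine ⟨t, ht', ?_⟩
    intro hai
    apply ht
    have h8 := hai.comp (finSuccEquiv m) (finSuccEquiv m).injective
    have h9 : (Fin.cons (Fintype.linearCombination ℚ l t)
          (fun j => Complex.exp (b j * Fintype.linearCombination ℚ l t)) : Fin (m + 1) → ℂ) =
        (fun o : Option (Fin m) => o.elim (Fintype.linearCombination ℚ l t)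
          (fun j => Complex.exp (b j * Fintype.linearCombination ℚ l t))) ∘
            (finSuccEquiv m) := by
      funext j
      refine Fin.cases ?_ (fun j => ?_) j
      · rw [Function.comp_apply, finSuccEquiv_zero]
        rfl
      · rw [Function.comp_apply, finSuccEquiv_succ]
        rfl
    rw [h9]
    exact h8)
  obtain ⟨G, k0, f, hf, hG, hk0, halt⟩ := h2 n m l b ι xd v a hNS
  obtain ⟨J, c, hJ, hc, hξ⟩ := h3 n m G v
  have hvι : ∀ c : Fin n → ℂ, ∑ i, v i * ι (c i) = 0 → c = 0 := hNS.2.2.1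
  have hv : LinearIndependent ℚ v := by
    rw [Fintype.linearIndependent_iff]
    intro x hx i
    have h8 := hvι (fun i => (x i : ℂ)) (by
      rw [← hx]
      refine Finset.sum_congr rfl fun i _ => ?_
      rw [map_ratCast, Rat.smul_def, mul_comm])
    have h9 : (x i : ℂ) = 0 := congrFun h8 i
    exact_mod_cast h9
  let tt : Fin m × Fin m → ℂ := fun jk => if h : jk.1 ∈ J then c ⟨jk.1, h⟩ jk.2 else 0
  let t : Fin (m * m) → ℂ := fun q => tt (finProdFinEquiv.symm q)
  have ht : ∀ (j : J) (k : Fin m), t (finProdFinEquiv ((j : Fin m), k)) = c j k := by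
    intro j k
    change tt (finProdFinEquiv.symm (finProdFinEquiv ((j : Fin m), k))) = _
    rw [Equiv.symm_apply_apply]
    change (if h : (j : Fin m) ∈ J then c ⟨(j : Fin m), h⟩ k else 0) = _
    rw [dif_pos j.2]
  obtain ⟨D, hD1', hD2, hD3, hD4⟩ := hD1 J.card t
  have hfin := hD3
  have hfin0 : FiniteDimensional ℚ (AD t D) :=
    Submodule.finiteDimensional_of_le (CovR_AD_mono t D)
  have hrr' : Module.finrank ℚ (AD t D) ≤ Module.finrank ℚ (AD t (D + 1)) :=
    Submodule.finrank_mono (CovR_AD_mono t D)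
  have hr1 : 1 ≤ Module.finrank ℚ (AD t (D + 1)) := by
    by_contra h8
    have h9 : Module.finrank ℚ (AD t (D + 1)) = 0 := by omega
    have h10 : Module.finrank ℚ (AD t D) = 0 := by omega
    rw [h9, h10] at hD4
    omega
  have hJm : J.card ≤ m := by omega
  have hP := hn0 J.card _ _ hr1 hD4
  set r := Module.finrank ℚ (AD t (D + 1)) with hr
  set r' := Module.finrank ℚ (AD t D) with hr'
  let B := Module.finBasis ℚ (AD t (D + 1))
  let B' := Module.finBasis ℚ (AD t D)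
  let g : Fin r → ℂ := fun i => (B i : ℂ)
  let h : Fin r' → ℂ := fun i => (B' i : ℂ)
  have hg : LinearIndependent ℚ g :=
    B.linearIndependent.map' (Submodule.subtype _) (Submodule.ker_subtype _)
  have hh : LinearIndependent ℚ h :=
    B'.linearIndependent.map' (Submodule.subtype _) (Submodule.ker_subtype _)
  have hmem : ∀ (j : J) (a : Fin r') (k : Fin m), h a * c j k ∈ AD t (D + 1) := by
    intro j a k
    rw [← ht j k]
    exact CovR_AD_mul t D _ (B' a).2
  let q : J → Fin r' → Fin m → Fin r → ℚ := fun j a k p => B.repr ⟨h a * c j k, hmem j a k⟩ p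
  have hq : ∀ j a k, h a * c j k = ∑ p, (q j a k p : ℂ) * g p := by
    intro j a k
    have h8 := congrArg (Submodule.subtype _) (B.sum_repr ⟨h a * c j k, hmem j a k⟩)
    rw [map_sum] at h8
    change _ = h a * c j k at h8
    rw [← h8]
    refine Finset.sum_congr rfl fun p _ => ?_
    rw [map_smul, Rat.smul_def]
    rfl
  have hb : ∀ (x : ℚ) (y : Fin m → ℚ), (x : ℂ) + ∑ k, b k * (y k : ℂ) = 0 →
      x = 0 ∧ ∀ k, y k = 0 := by
    intro x y hxy
    rw [Fintype.linearIndependent_iff] at hbl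
    have h8 := hbl (Fin.cons x y) (by
      rw [Fin.sum_univ_succ, ← hxy]
      simp only [Fin.cons_zero, Fin.cons_succ]
      congr 1
      · rw [Rat.smul_def, mul_one]
      · exact Finset.sum_congr rfl fun k _ => by rw [Rat.smul_def, mul_comm])
    exact ⟨h8 0, fun k => h8 k.succ⟩
  refine hP n b l v k0 f G J c g h q ?_ hba hb hv hl ?_ hG rfl hc hξ hg hh hq ?_
  · refine le_trans ?_ hn.le
    refine le_trans ?_ (Finset.single_le_sum (fun _ _ => Nat.zero_le _)
      (Finset.mem_range.2 (show J.card < m + 1 by omega)))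
    refine le_trans ?_ (Finset.single_le_sum (fun _ _ => Nat.zero_le _)
      (Finset.mem_range.2 (show r < D1 J.card + 1 by omega)))
    exact Finset.single_le_sum (f := fun r' => n0 J.card r r') (fun _ _ => Nat.zero_le _)
      (Finset.mem_range.2 (show r' < D1 J.card + 1 by omega))
  · intro t
    have h8 := hlog t
    rw [Fintype.linearCombination_apply] at h8
    have h9 : ∑ i, (t i : ℂ) * l i = ∑ i, t i • l i :=
      Finset.sum_congr rfl fun i _ => by rw [Rat.smul_def]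
    rw [h9]
    exact h8
  · rcases halt with h8 | h8
    · exact Or.inl ⟨h8, by omega⟩
    · exact Or.inr (by omega)

/-- The case `b_j = β^(j+1)`, `β` of degree `m + 1`. -/
theorem pr_CovR (h : S_CovB) : S_CovR := by
  intro d hd
  obtain ⟨m, rfl⟩ : ∃ m, d = m + 1 := ⟨d - 1, by omega⟩
  obtain ⟨n₀, hn₀⟩ := h m
  refine ⟨n₀, ?_⟩
  intro β hβ hdeg n hn l hl hlog
  have hli := linearIndependent_pow (K := ℚ) β
  rw [hdeg] at hli
  have h1 : (Fin.cons 1 (fun j : Fin m => β ^ ((j : ℕ) + 1)) : Fin (m + 1) → ℂ) =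
      fun i : Fin (m + 1) => β ^ (i : ℕ) := by
    funext j
    refine Fin.cases ?_ (fun j => ?_) j
    · rw [Fin.cons_zero, Fin.val_zero, pow_zero]
    · rw [Fin.cons_succ, Fin.val_succ]
  obtain ⟨T, hT, hT'⟩ := hn₀ (fun j => β ^ ((j : ℕ) + 1)) (fun k => hβ.pow _)
    (by rw [h1]; exact hli) n hn l hl hlog
  refine ⟨T, hT, fun t ht => hT' t ?_⟩
  have h2 : (Fin.cons (Fintype.linearCombination ℚ l t)
      (fun j : Fin m => Complex.exp (β ^ ((j : ℕ) + 1) * Fintype.linearCombination ℚ l t)) :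
        Fin (m + 1) → ℂ) = (fun j : Fin (m + 1) =>
        if (j : ℕ) = 0 then Fintype.linearCombination ℚ l t
        else Complex.exp (β ^ (j : ℕ) * Fintype.linearCombination ℚ l t)) := by
    funext j
    refine Fin.cases ?_ (fun j => ?_) j
    · rw [Fin.cons_zero, Fin.val_zero, if_pos rfl]
    · rw [Fin.cons_succ, Fin.val_succ, if_neg (Nat.succ_ne_zero _)]
  rw [h2]
  exact ht

end Pool.Agent.Work.MP_327059_nt.FR
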