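import Mathlib
import Pool.Agent.Work.MP_327059_nt.FR.Stmts2
import Pool.Agent.Work.MP_327059_nt.AA.Asm

/-!
# Item L4 (`S_LAl`): Liouville bound for exponential polynomials at algebraic points
-/

set_option autoImplicit false

namespace Pool.Agent.Work.MP_327059_nt.FR

open Pool.Agent.Work.MP_327059_nt

theorem LAl_pow {M : ℕ} (b : Fin M → ℂ) (q : Fin M) (n : ℕ) : AA.IsVal b n 1 (b q ^ n) := by
  induction n with
  | zero =>
    have h := AA.IsVal.int (x := b) 1
    simpa using h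
  | succ n ih =>
    have h := AA.IsVal.mul ih (AA.IsVal.var (x := b) q)
    rw [mul_one] at h
    rw [pow_succ]
    exact h

theorem LAl_prod {M : ℕ} {ι : Type} (b : Fin M → ℂ) (s : Finset ι) (D : ι → ℕ) (ξ : ι → ℂ)
    (h : ∀ i ∈ s, AA.IsVal b (D i) 1 (ξ i)) : AA.IsVal b (∑ i ∈ s, D i) 1 (∏ i ∈ s, ξ i) := by
  classical
  induction s using Finset.induction_on with
  | empty =>
    have h := AA.IsVal.int (x := b) 1
    simpa using h
  | insert a s ha ih =>
    rw [Finset.sum_insert ha, Finset.prod_insert ha]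
    have h1 := AA.IsVal.mul (h a (Finset.mem_insert_self a s))
      (ih (fun i hi => h i (Finset.mem_insert_of_mem hi)))
    rwa [mul_one] at h1

theorem LAl_sum {M : ℕ} {ι : Type} (b : Fin M → ℂ) (s : Finset ι) (D : ℕ) (H : ι → ℝ) (ξ : ι → ℂ)
    (h : ∀ i ∈ s, AA.IsVal b D (H i) (ξ i)) : AA.IsVal b D (∑ i ∈ s, H i) (∑ i ∈ s, ξ i) := by
  classical
  induction s using Finset.induction_on with
  | empty =>
    have h := AA.IsVal.int (x := b) 0
    have h' := AA.IsVal.mono (D' := D) (H' := 0) (Nat.zero_le D) (by simp) h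
    simpa using h'
  | insert a s ha ih =>
    rw [Finset.sum_insert ha, Finset.sum_insert ha]
    exact AA.IsVal.add (h a (Finset.mem_insert_self a s))
      (ih (fun i hi => h i (Finset.mem_insert_of_mem hi)))

theorem LAl_exp (x : ℕ) (s : ℤ) (w : ℂ) :
    Complex.exp ((x : ℂ) * ((s : ℂ) * w)) =
      (if 0 ≤ s then Complex.exp w else Complex.exp (-w)) ^ (x * s.natAbs) := by
  split_ifs with h
  · rw [← Complex.exp_nat_mul]
    congr 1
    have h1 : ((s.natAbs : ℕ) : ℂ) = (s : ℂ) := by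
      have : ((s.natAbs : ℕ) : ℤ) = s := Int.natAbs_of_nonneg h
      calc ((s.natAbs : ℕ) : ℂ) = (((s.natAbs : ℕ) : ℤ) : ℂ) := (Int.cast_natCast _).symm
        _ = (s : ℂ) := by rw [this]
    push_cast
    rw [h1]
    ring
  · rw [← Complex.exp_nat_mul]
    congr 1
    have h1 : ((s.natAbs : ℕ) : ℂ) = -(s : ℂ) := by
      have : ((s.natAbs : ℕ) : ℤ) = -s := by omega
      calc ((s.natAbs : ℕ) : ℂ) = (((s.natAbs : ℕ) : ℤ) : ℂ) := (Int.cast_natCast _).symm
        _ = -(s : ℂ) := by rw [this, Int.cast_neg]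
    push_cast
    rw [h1]
    ring

theorem pr_LAl : S_LAl := by
  intro N r w hw
  classical
  -- the algebraic numbers
  let e : ((Fin N × Fin r) × Bool) ≃ Fin (Fintype.card ((Fin N × Fin r) × Bool)) :=
    Fintype.equivFin _
  let g : ((Fin N × Fin r) × Bool) → ℂ := fun q =>
    if q.2 then Complex.exp (w q.1.1 q.1.2) else Complex.exp (-(w q.1.1 q.1.2))
  let b : Fin (Fintype.card ((Fin N × Fin r) × Bool)) → ℂ := fun q => g (e.symm q)
  have hbalg : ∀ q, IsAlgebraic ℚ (b q) := by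
    intro q
    change IsAlgebraic ℚ (g (e.symm q))
    generalize e.symm q = u
    by_cases hu : u.2 = true
    · have : g u = Complex.exp (w u.1.1 u.1.2) := by simp [g, hu]
      rw [this]
      exact hw _ _
    · have : g u = (Complex.exp (w u.1.1 u.1.2))⁻¹ := by simp [g, hu, Complex.exp_neg]
      rw [this]
      exact (hw _ _).inv
  obtain ⟨C0, hC0, hL⟩ := AA.pr_Liou AA.full_NL _ b hbalg
  have hrN : (0 : ℝ) ≤ (r : ℝ) * N + r := by positivity
  refine ⟨C0 * ((r : ℝ) * N + r + 1), ?_, ?_⟩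
  · nlinarith
  intro K h B p s hp hs hne
  -- the value
  have hterm : ∀ x : Fin r → Fin K,
      Complex.exp (∑ k, ((x k : ℕ) : ℂ) * ∑ i, (s i : ℂ) * w i k) =
        ∏ k, ∏ i, b (e ((i, k), decide (0 ≤ s i))) ^ ((x k : ℕ) * (s i).natAbs) := by
    intro x
    rw [Complex.exp_sum]
    refine Finset.prod_congr rfl (fun k _ => ?_)
    rw [Finset.mul_sum, Complex.exp_sum]
    refine Finset.prod_congr rfl (fun i _ => ?_)
    rw [LAl_exp]
    congr 1
    simp only [b, g, Equiv.symm_apply_apply, decide_eq_true_eq]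
  have hval : ∀ x : Fin r → Fin K, AA.IsVal b (r * (N * (K * B))) 1
      (Complex.exp (∑ k, ((x k : ℕ) : ℂ) * ∑ i, (s i : ℂ) * w i k)) := by
    intro x
    rw [hterm x]
    refine AA.IsVal.mono ?_ le_rfl (LAl_prod b Finset.univ
      (fun k => ∑ i, (x k : ℕ) * (s i).natAbs) _ (fun k _ => LAl_prod b Finset.univ
        (fun i => (x k : ℕ) * (s i).natAbs) _ (fun i _ => LAl_pow b _ _)))
    calc ∑ k : Fin r, ∑ i : Fin N, (x k : ℕ) * (s i).natAbs
        ≤ ∑ _k : Fin r, ∑ _i : Fin N, K * B := by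
          refine Finset.sum_le_sum (fun k _ => Finset.sum_le_sum (fun i _ => ?_))
          refine Nat.mul_le_mul (x k).2.le ?_
          have h1 := hs i
          rw [← Int.natCast_natAbs] at h1
          exact_mod_cast h1
      _ = r * (N * (K * B)) := by simp
  have hsum : AA.IsVal b (r * (N * (K * B))) (∑ x : Fin r → Fin K, |(p x : ℝ)|)
      (∑ x, (p x : ℂ) * Complex.exp (∑ k, ((x k : ℕ) : ℂ) * ∑ i, (s i : ℂ) * w i k)) := by
    refine LAl_sum b Finset.univ _ _ _ (fun x _ => ?_)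
    have h1 := AA.IsVal.mul (AA.IsVal.int (x := b) (p x)) (hval x)
    rwa [zero_add, mul_one] at h1
  have hK1 : (1 : ℝ) ≤ (K : ℝ) + 1 := by
    have : (0 : ℝ) ≤ K := Nat.cast_nonneg K
    linarith
  have hH : (1 : ℝ) ≤ ((K : ℝ) + 1) ^ r * 2 ^ h := by
    have h1 : (1 : ℝ) ≤ ((K : ℝ) + 1) ^ r := one_le_pow₀ hK1
    have h2 : (1 : ℝ) ≤ 2 ^ h := one_le_pow₀ (by norm_num)
    nlinarith
  have hsumle : (∑ x : Fin r → Fin K, |(p x : ℝ)|) ≤ ((K : ℝ) + 1) ^ r * 2 ^ h := by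
    calc (∑ x : Fin r → Fin K, |(p x : ℝ)|) ≤ ∑ _x : Fin r → Fin K, (2 : ℝ) ^ h := by
          refine Finset.sum_le_sum (fun x _ => ?_)
          have h1 := hp x
          have h2 : ((|p x| : ℤ) : ℝ) ≤ (((2 : ℤ) ^ h : ℤ) : ℝ) := by exact_mod_cast h1
          rw [Int.cast_abs] at h2
          push_cast at h2
          exact h2
      _ = (K : ℝ) ^ r * 2 ^ h := by simp
      _ ≤ ((K : ℝ) + 1) ^ r * 2 ^ h := by
          refine mul_le_mul_of_nonneg_right ?_ (by positivity)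
          exact pow_le_pow_left₀ (Nat.cast_nonneg K) (by linarith) r
  have h1 := hL (r * (N * (K * B))) _ _ hH (AA.IsVal.mono le_rfl hsumle hsum) hne
  set ξ : ℂ := ∑ x, (p x : ℂ) * Complex.exp (∑ k, ((x k : ℕ) : ℂ) * ∑ i, (s i : ℂ) * w i k) with hξ
  have hlog : Real.log (((K : ℝ) + 1) ^ r * 2 ^ h) ≤ r * K + h := by
    rw [Real.log_mul (by positivity) (by positivity), Real.log_pow, Real.log_pow]
    have h2 : Real.log ((K : ℝ) + 1) ≤ K := by
      have := Real.log_le_sub_one_of_pos (show (0 : ℝ) < (K : ℝ) + 1 by linarith)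
      linarith
    have h3 : Real.log 2 ≤ 1 := by
      have := Real.log_le_sub_one_of_pos (show (0 : ℝ) < 2 by norm_num)
      linarith
    have h4 : (r : ℝ) * Real.log ((K : ℝ) + 1) ≤ r * K :=
      mul_le_mul_of_nonneg_left h2 (Nat.cast_nonneg r)
    have h5 : (h : ℝ) * Real.log 2 ≤ h * 1 := mul_le_mul_of_nonneg_left h3 (Nat.cast_nonneg h)
    linarith
  have hKr : (0 : ℝ) ≤ (K : ℝ) := Nat.cast_nonneg K
  have hBr : (0 : ℝ) ≤ (B : ℝ) := Nat.cast_nonneg B
  have hhr : (0 : ℝ) ≤ (h : ℝ) := Nat.cast_nonneg h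
  have hrr : (0 : ℝ) ≤ (r : ℝ) := Nat.cast_nonneg r
  have hNr : (0 : ℝ) ≤ (N : ℝ) := Nat.cast_nonneg N
  have h2 : C0 * (((r * (N * (K * B)) : ℕ) : ℝ) + 1 + Real.log (((K : ℝ) + 1) ^ r * 2 ^ h)) ≤
      C0 * ((r : ℝ) * N + r + 1) * ((K : ℝ) * B + h + K + 1) := by
    rw [mul_assoc]
    refine mul_le_mul_of_nonneg_left ?_ (by linarith)
    push_cast
    have hKB : (0 : ℝ) ≤ (K : ℝ) * B := by positivity
    have hrNn : (0 : ℝ) ≤ (r : ℝ) * N := by positivity
    have e1 : 0 ≤ (r : ℝ) * N * (h + K + 1) := by positivity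
    have e2 : 0 ≤ (r : ℝ) * (K * B + h + 1) := by positivity
    have e3 : 0 ≤ (K : ℝ) * B + K := by positivity
    nlinarith
  have h3 : 1 ≤ ‖ξ‖ * Real.exp (C0 * ((r : ℝ) * N + r + 1) * ((K : ℝ) * B + h + K + 1)) :=
    h1.trans (mul_le_mul_of_nonneg_left (Real.exp_le_exp.2 h2) (norm_nonneg _))
  rw [Real.exp_neg, inv_le_iff_one_le_mul₀ (Real.exp_pos _)]
  linarith

end Pool.Agent.Work.MP_327059_nt.FR
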