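import Mathlib
import Pool.Agent.Work.MP_327059_nt.FR.Stmts2

/-! # Item Lin2: pivots and functionals -/

set_option autoImplicit false

namespace Pool.Agent.Work.MP_327059_nt.FR

open Pool.Agent.Work.MP_327059_nt.GL

/-- The orthogonal space of a subspace of `ℂ^m`. -/
theorem Lin2_orth (m : ℕ) (W : Submodule ℂ (Fin m → ℂ)) :
    ∃ V : Submodule ℂ (Fin m → ℂ), Module.finrank ℂ V + Module.finrank ℂ W = m ∧
      ∀ c ∈ V, ∀ w ∈ W, ∑ k, c k * w k = 0 := by
  refine ⟨W.dualAnnihilator.map (dotProductEquiv ℂ (Fin m)).symm.toLinearMap, ?_, ?_⟩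
  · have h1 := Subspace.finrank_add_finrank_dualAnnihilator_eq W
    rw [Module.finrank_fin_fun] at h1
    have h2 : Module.finrank ℂ
        (W.dualAnnihilator.map (dotProductEquiv ℂ (Fin m)).symm.toLinearMap) =
        Module.finrank ℂ W.dualAnnihilator :=
      LinearEquiv.finrank_map_eq (dotProductEquiv ℂ (Fin m)).symm W.dualAnnihilator
    rw [h2]
    omega
  · rintro c ⟨φ, hφ, rfl⟩ w hw
    have h1 : φ w = 0 := (Submodule.mem_dualAnnihilator φ).1 hφ w hw
    have h2 : dotProductEquiv ℂ (Fin m) ((dotProductEquiv ℂ (Fin m)).symm φ) w = 0 := by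
      rw [LinearEquiv.apply_symm_apply]; exact h1
    exact h2

theorem pr_Lin2 (h1 : S_Piv) (_h2 : GL.S_AnnExt) (h3 : GL.S_DoubleAnn) : S_Lin2 := by
  intro n m G v
  obtain ⟨V, hV, hort⟩ := Lin2_orth m ((annC G).map (mv v))
  obtain ⟨J, c, hJ, hc, hpiv⟩ := h1 m V
  refine ⟨J, c, ?_, hpiv, ?_⟩
  · rw [hJ]; exact hV
  · intro j μ
    obtain ⟨N, hN, ξ, hξ, h⟩ := h3 n m G (fun i k => μ (v i * c j k)) (by
      intro b hb
      have hbC : (fun i k => (b i k : ℂ)) ∈ annC G := by
        intro ξ hξ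
        have := hb ξ hξ
        have h5 : ((∑ i, ∑ k, (ξ i k : ℚ) * b i k : ℚ) : ℂ) = 0 := by
          rw [this]; simp
        push_cast at h5
        exact h5
      have h6 := hort (c j) (hc j) (mv v (fun i k => (b i k : ℂ)))
        (Submodule.mem_map_of_mem hbC)
      have h7 : (∑ i, ∑ k, μ (v i * c j k) * b i k) =
          μ (∑ k, c j k * (mv v (fun i k => (b i k : ℂ))) k) := by
        simp only [mv, LinearMap.coe_mk, AddHom.coe_mk, map_sum, Finset.mul_sum]
        rw [Finset.sum_comm]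
        refine Finset.sum_congr rfl fun k _ => Finset.sum_congr rfl fun i _ => ?_
        have h8 : c j k * (v i * (b i k : ℂ)) = (b i k) • (v i * c j k) := by
          rw [Rat.smul_def]; ring
        rw [h8, map_smul, smul_eq_mul, mul_comm]
      rw [h7, h6, map_zero])
    exact ⟨N, hN, ξ, hξ, h⟩

end Pool.Agent.Work.MP_327059_nt.FR
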